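import Mathlib
import Pool.Agent.H26.ToricDefs

/-!
# Toric quotient singularities

`K` is the function field of `X` and `L` the function field of `Y`.  `Pool.Agent.H26.Defs` defines
germs of affine log pairs (`LogGerm`), minimal log discrepancies and the chain conditions,
`Pool.Agent.H26.ToricDefs` defines toric germs.
-/

open scoped BigOperators

namespace Pool.Agent.H50.TQ

open Pool.Agent.H26

universe u

section

variable {k : Type u} [Field k] {K L : Type u} [Field K] [Field L] [Algebra k K] [Algebra k L]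
  [Algebra K L] [IsScalarTower k K L] {n : ℕ}

/-- The germ `x ∈ (X, Δ)` is the quotient of the germ `y ∈ (Y, Δ_Y)` by the finite group
`H = Gal (L / K)`: `L / K` is a finite Galois extension, `Y` is the normalisation of `X` in `L` (so
that `H` acts on `Y` and `X = Y / H`), `H` fixes the point `y`, which lies over `x`, and
`K_Y + Δ_Y` is the pull back of `K_X + Δ` near `y`. Here `K_Y` is the divisor of the pull back of
the rational top form `G.ω`. -/
structure IsFiniteQuotient (G : LogGerm k K n) (Y : LogGerm k L n) : Prop where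
  finiteDimensional : FiniteDimensional K L
  isGalois : IsGalois K L
  mem_iff : ∀ b : L, b ∈ Y.A ↔ IsIntegral G.A b
  fixed : ∀ (σ : L ≃ₐ[K] L) (b : Y.A), b ∈ Y.pt → ∃ b' : Y.A, b' ∈ Y.pt ∧ (b' : L) = σ b
  map_pt : ∀ f : G.A, f ∈ G.pt → ∃ b : Y.A, b ∈ Y.pt ∧ (b : L) = algebraMap K L f
  form : ∀ i, Y.ω i = KaehlerDifferential.map k k K L (G.ω i)
  crepant : ∀ V : DVal k L, V.IsPrimeDivisorThrough Y.A Y.pt → ∃ e : ℤ, V.FormOrd Y.ω e ∧
    (e : ℝ) + Y.bdry V = ∑ i, G.r i * (V.val (algebraMap K L (G.s i)) : ℝ)

/-- `y ∈ (Y, Δ_Y)` is an affine toric germ at its torus-fixed point with torus coordinates `x`,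
`Δ_Y` is torus-invariant with coefficients in `Γ`, and `σ` normalises the torus: it maps each
torus coordinate to a constant multiple of a monomial. -/
structure IsToricFor (Y : LogGerm k L n) (Γ : Set ℝ) (σ : L ≃ₐ[K] L) (x : Fin n → L)
    (S : AddSubmonoid (Fin n → ℤ)) : Prop where
  toric : Y.IsToric x S
  bdry : ∀ V : DVal k L, V.IsPrimeDivisorThrough Y.A Y.pt → Y.bdry V = 0 ∨
    (Y.bdry V ∈ Γ ∧ ∃ m, V.val (monom x m) ≠ 0)
  normalises : ∀ i, ∃ (c : k) (m : Fin n → ℤ), σ (x i) = algebraMap k L c * monom x m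

/-- `x ∈ (X, Δ)` is a toric quotient singularity: the quotient of a germ `y ∈ (Y, Δ_Y)` by a finite
group `H` fixing `y`, such that for each `σ ∈ H` the pair `y ∈ (Y, Δ_Y)` is toric (`y` is the fixed
point and `Δ_Y` is invariant, with coefficients in `Γ`) for a torus which is normalised by `σ`. The
torus may depend on `σ`. -/
structure IsToricQuotient (G : LogGerm k K n) (Y : LogGerm k L n) (Γ : Set ℝ) : Prop
    extends IsFiniteQuotient G Y where
  torus : ∀ σ : L ≃ₐ[K] L, ∃ (x : Fin n → L) (S : AddSubmonoid (Fin n → ℤ)),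
    IsToricFor Y Γ σ x S

end

/-- The set of the minimal log discrepancies of the `n`-dimensional toric quotient singularities
(over arbitrary algebraically closed fields of characteristic zero) with invariant boundary with
coefficients in `Γ`. -/
def toricQuotientMlds (n : ℕ) (Γ : Set ℝ) : Set EReal :=
  {a | ∃ (k : Type u) (_ : Field k) (_ : IsAlgClosed k) (_ : CharZero k) (K L : Type u)
    (_ : Field K) (_ : Field L) (_ : Algebra k K) (_ : Algebra k L) (_ : Algebra K L)
    (_ : IsScalarTower k K L) (G : LogGerm k K n) (Y : LogGerm k L n),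
    IsToricQuotient G Y Γ ∧ a = G.mld}

end Pool.Agent.H50.TQ
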