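import Mathlib
import Pool.Agent.H50.TQ.Defs

/-!
# Lattice data of an element of finite order

Conventions: characters `m : Fin n → ℤ` are row vectors, an automorphism `σ` of `L` which
normalises the torus acts on the characters by `m ↦ m ᵥ* A`, that is
`σ (x ^ m) = c m • x ^ (m ᵥ* A)`; cocharacters `w : Fin n → ℤ` are column vectors.
-/

open scoped BigOperators Matrix

namespace Pool.Agent.H50.TQ

open Pool.Agent.H26

universe u

/-- the action of `σ` on the monomials in the torus coordinates `x` -/
structure Act {k K L : Type u} [Field k] [Field K] [Field L] [Algebra k L] [Algebra K L] {n : ℕ}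
    (σ : L ≃ₐ[K] L) (x : Fin n → L) (A : Matrix (Fin n) (Fin n) ℤ) (c : (Fin n → ℤ) → k) :
    Prop where
  c_ne : ∀ m, c m ≠ 0
  c_add : ∀ m m', c (m + m') = c m * c m'
  spec : ∀ m, σ (monom x m) = algebraMap k L (c m) * monom x (m ᵥ* A)

/-- A basis (the rows of `B`) of the character lattice adapted to the matrix `A` with `A ^ r = 1`:
the rows `B i` with `P i` form a basis of the saturation of the image of `A - 1`, `a` is the matrix
in the new basis, the rows `v i` with `P i` are eigenvectors (over `k`) of `a`, with eigenvalues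
`ζ ^ b i ≠ 1`. -/
structure LatData {k : Type u} [Field k] {n : ℕ} (A : Matrix (Fin n) (Fin n) ℤ) (r : ℕ) (ζ : k)
    where
  B : Matrix (Fin n) (Fin n) ℤ
  B' : Matrix (Fin n) (Fin n) ℤ
  hB : B * B' = 1
  a : Matrix (Fin n) (Fin n) ℤ
  hA : B * A = a * B
  P : Fin n → Bool
  ha : ∀ i j, P j = false → a i j = if i = j then 1 else 0
  hN : ∀ i j, P i = true → (∑ s ∈ Finset.range r, a ^ s) i j = 0
  v : Matrix (Fin n) (Fin n) k
  hv : ∀ i j, P i = false → v i j = if i = j then 1 else 0
  hv' : ∀ i j, P i = true → P j = false → v i j = 0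
  det_v : v.det ≠ 0
  b : Fin n → ℕ
  hb : ∀ i, P i = true → 0 < b i ∧ b i < r
  hb' : ∀ i, P i = false → b i = 0
  eig : ∀ i, P i = true → ∀ j, ∑ l, v i l * (a l j : k) = ζ ^ b i * v i j

end Pool.Agent.H50.TQ
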