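import Mathlib
import Pool.Agent.H50.TQ.Lat
import Pool.Agent.H26.ToricTransfer

/-!
# The action on the monomials

PROOFS. Use `monom_add`, `monom_zero`, `monom_ne_zero` and `coordHom_injective`, `coordHom_single`
of `Pool.Agent.H26.ToricTransfer` (`hx.1.ne_zero i : x i ≠ 0`).
`monom_inj`: `coordHom k hx0 (single m c) = coordHom k hx0 (single m' c')`, so the two elements of
the Laurent polynomial ring are equal; `c ≠ 0` gives `m = m'`, `c = c'`.
`exists_act`: choose `c₀ i`, `M i` with `σ (x i) = c₀ i • x ^ (M i)`; `c₀ i ≠ 0` since `σ (x i) ≠ 0`.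
`A = Matrix.of M`, `c m = ∏ i, c₀ i ^ m i`; `σ (x ^ m) = ∏ i, (c₀ i • x ^ (M i)) ^ m i` and
`∏ i, (x ^ (M i)) ^ (m i) = x ^ (∑ i, m i • M i) = x ^ (m ᵥ* A)`.
`Act.pow`: induction on `q`, `σ ^ (q+1) = σ * σ ^ q` (`pow_succ'`),
`σ (c • x ^ (m ᵥ* A ^ q)) = c * c (m ᵥ* A ^ q) • x ^ ((m ᵥ* A ^ q) ᵥ* A)` by `sigma_const`.
`matrix_pow_eq_one`: `Act.pow` and `monom_inj` with `m = Pi.single i 1`: the row `i` of `A ^ r` is
`Pi.single i 1`.
-/

open scoped BigOperators Matrix

namespace Pool.Agent.H50.TQ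

open Pool.Agent.H26

universe u

variable {k K L : Type u} [Field k] [Field K] [Field L] [Algebra k K] [Algebra k L]
  [Algebra K L] [IsScalarTower k K L] {n : ℕ}

/-- `σ` fixes the constants -/
theorem sigma_const (σ : L ≃ₐ[K] L) (c : k) : σ (algebraMap k L c) = algebraMap k L c := by
  rw [IsScalarTower.algebraMap_apply k K L, AlgEquiv.commutes]

/-- proportional monomials are equal -/
theorem monom_inj {x : Fin n → L} (hx : IsTorusCoord k x) {m m' : Fin n → ℤ} {c c' : k}
    (hc : c ≠ 0) (h : algebraMap k L c * monom x m = algebraMap k L c' * monom x m') :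
    m = m' ∧ c = c' := by
  have hx0 : ∀ i, x i ≠ 0 := fun i => hx.1.ne_zero i
  have h1 : coordHom k hx0 (AddMonoidAlgebra.single m c) =
      coordHom k hx0 (AddMonoidAlgebra.single m' c') := by
    rw [coordHom_single, coordHom_single]
    exact h
  have h2 := coordHom_injective hx0 hx.1 h1
  have h3 := congrArg AddMonoidAlgebra.coeff h2
  rw [AddMonoidAlgebra.coeff_single, AddMonoidAlgebra.coeff_single,
    Finsupp.single_eq_single_iff] at h3
  rcases h3 with h3 | h3
  · exact h3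
  · exact absurd h3.1 hc

theorem actL_monom_zsmul {x : Fin n → L} (z : ℤ) (m : Fin n → ℤ) :
    monom x (z • m) = monom x m ^ z := by
  unfold monom
  rw [← Finset.prod_zpow]
  refine Finset.prod_congr rfl fun i _ => ?_
  rw [Pi.smul_apply, smul_eq_mul, zpow_mul']

theorem actL_monom_sum {x : Fin n → L} (hx : ∀ i, x i ≠ 0) {ι : Type*} (s : Finset ι)
    (f : ι → Fin n → ℤ) : monom x (∑ i ∈ s, f i) = ∏ i ∈ s, monom x (f i) := by
  classical
  induction s using Finset.induction_on with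
  | empty => rw [Finset.sum_empty, Finset.prod_empty, monom_zero]
  | insert i s hi ih => rw [Finset.sum_insert hi, Finset.prod_insert hi, monom_add hx, ih]

theorem exists_act {x : Fin n → L} (hx : IsTorusCoord k x) (σ : L ≃ₐ[K] L)
    (h : ∀ i, ∃ (c : k) (m : Fin n → ℤ), σ (x i) = algebraMap k L c * monom x m) :
    ∃ (A : Matrix (Fin n) (Fin n) ℤ) (c : (Fin n → ℤ) → k), Act σ x A c := by
  have hx0 : ∀ i, x i ≠ 0 := fun i => hx.1.ne_zero i
  choose c₀ M hM using h
  have hc₀ : ∀ i, c₀ i ≠ 0 := by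
    intro i hi
    have h1 := hM i
    rw [hi, map_zero, zero_mul] at h1
    exact hx0 i ((map_eq_zero σ).1 h1)
  refine ⟨Matrix.of M, fun m => ∏ i, c₀ i ^ m i, ⟨?_, ?_, ?_⟩⟩
  · intro m
    exact Finset.prod_ne_zero_iff.2 fun i _ => zpow_ne_zero _ (hc₀ i)
  · intro m m'
    rw [← Finset.prod_mul_distrib]
    exact Finset.prod_congr rfl fun i _ => by rw [Pi.add_apply, zpow_add₀ (hc₀ i)]
  · intro m
    have h1 : monom x (m ᵥ* Matrix.of M) = ∏ i, monom x (M i) ^ m i := by
      rw [Matrix.vecMul_eq_sum, actL_monom_sum hx0]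
      exact Finset.prod_congr rfl fun i _ => actL_monom_zsmul (m i) (M i)
    rw [h1, map_prod, ← Finset.prod_mul_distrib]
    unfold monom
    rw [map_prod]
    refine Finset.prod_congr rfl fun i _ => ?_
    rw [map_zpow₀, hM, mul_zpow, map_zpow₀]
    rfl

theorem Act.c_zero {σ : L ≃ₐ[K] L} {x : Fin n → L} {A : Matrix (Fin n) (Fin n) ℤ}
    {c : (Fin n → ℤ) → k} (h : Act σ x A c) : c 0 = 1 := by
  have h1 := h.c_add 0 0
  rw [add_zero] at h1
  exact (mul_eq_left₀ (h.c_ne 0)).1 h1.symm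

theorem Act.pow {σ : L ≃ₐ[K] L} {x : Fin n → L} {A : Matrix (Fin n) (Fin n) ℤ}
    {c : (Fin n → ℤ) → k} (h : Act σ x A c) (q : ℕ) :
    Act (σ ^ q) x (A ^ q) (fun m => ∏ s ∈ Finset.range q, c (m ᵥ* A ^ s)) := by
  refine ⟨fun m => Finset.prod_ne_zero_iff.2 fun s _ => h.c_ne _, fun m m' => ?_, ?_⟩
  · rw [← Finset.prod_mul_distrib]
    exact Finset.prod_congr rfl fun s _ => by rw [Matrix.add_vecMul, h.c_add]
  · induction q with
    | zero =>
      intro m
      rw [pow_zero, pow_zero, Finset.range_zero, Finset.prod_empty, map_one, one_mul,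
        Matrix.vecMul_one]
      rfl
    | succ q ih =>
      intro m
      rw [pow_succ', AlgEquiv.mul_apply, ih m, map_mul, sigma_const, h.spec,
        Finset.prod_range_succ, map_mul, mul_assoc, Matrix.vecMul_vecMul, ← pow_succ]

theorem Act.matrix_pow_eq_one {σ : L ≃ₐ[K] L} {x : Fin n → L} (hx : IsTorusCoord k x)
    {A : Matrix (Fin n) (Fin n) ℤ} {c : (Fin n → ℤ) → k} (h : Act σ x A c) {r : ℕ}
    (hσ : σ ^ r = 1) : A ^ r = 1 := by
  classical
  have h1 : ∀ i, Pi.single i (1 : ℤ) = (A ^ r).row i := by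
    intro i
    have h2 := (h.pow r).spec (Pi.single i 1)
    rw [hσ, AlgEquiv.one_apply, Matrix.single_one_vecMul] at h2
    have h3 : algebraMap k L 1 * monom x (Pi.single i 1) =
        algebraMap k L (∏ s ∈ Finset.range r, c (Pi.single i 1 ᵥ* A ^ s)) *
          monom x ((A ^ r).row i) := by
      rw [map_one, one_mul]
      exact h2
    exact (monom_inj hx one_ne_zero h3).1
  ext i j
  have h4 := congrFun (h1 i) j
  rw [Matrix.row_apply] at h4
  rw [← h4, Matrix.one_apply, Pi.single_apply]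
  simp only [eq_comm]

end Pool.Agent.H50.TQ
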