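import Mathlib
import Pool.Agent.H50.TQ.ActL
import Pool.Agent.H26.ToricGerm

/-!
# The toric data of the cover
-/

open scoped BigOperators Matrix

namespace Pool.Agent.H50.TQ

open Pool.Agent.H26

universe u

variable {k K L : Type u} [Field k] [Field K] [Field L] [Algebra k K] [Algebra k L]
  [Algebra K L] [IsScalarTower k K L] {n : ℕ}

/-- Toric data of the cover: `u` is the linear function on the cocharacters which gives the log
discrepancies of the toric valuations with respect to `K_Y + Δ_Y`, `R` is the set of the primitive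
generators of the rays. -/
structure BaseData (G : LogGerm k K n) (Y : LogGerm k L n) (x : Fin n → L)
    (S : AddSubmonoid (Fin n → ℤ)) (Γ : Set ℝ) where
  u : Fin n → ℝ
  R : Finset (Fin n → ℤ)
  ray : ∀ ρ ∈ R, ∃ v : DVal k L, v.IsPrimeDivisorThrough Y.A Y.pt ∧
    (∃ m, v.val (monom x m) ≠ 0) ∧ ∀ i, v.val (x i) = ρ i
  u_eq : ∀ v : DVal k L, v.IsPrimeDivisorThrough Y.A Y.pt → (∃ m, v.val (monom x m) ≠ 0) →
    ∃ γ : ℝ, (γ = 0 ∨ γ ∈ Γ) ∧ ∑ i, u i * (v.val (x i) : ℝ) = 1 - γ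
  nonneg : ∀ ρ ∈ R, ∀ m ∈ S, 0 ≤ m ⬝ᵥ ρ
  mem : ∀ m : Fin n → ℤ, (∀ ρ ∈ R, 0 ≤ m ⬝ᵥ ρ) → m ∈ S
  crep : ∀ v : DVal k L, v.HasCenter Y.A Y.pt →
    ∑ i, G.r i * (v.val (algebraMap K L (G.s i)) : ℝ) +
      (v.val (Y.ω.det fun i => dlog k (x i)) : ℝ) = - ∑ i, u i * (v.val (x i) : ℝ)
  pos : ∀ v : DVal k L, v.HasCenter Y.A Y.pt → ∀ m ∈ S, m ≠ 0 → 0 < v.val (monom x m)
  center : ∀ v : DVal k L, (∀ m ∈ S, m ≠ 0 → 0 < v.val (monom x m)) → v.HasCenter Y.A Y.pt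
  exists_ne : ∀ v : DVal k L, v.HasCenter Y.A Y.pt → ∃ m ∈ S, m ≠ 0

end Pool.Agent.H50.TQ
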