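import Mathlib
import Pool.Agent.H50.TQ.Base

/-!
# Existence of the toric data of the cover

PROOF. Follow `exists_toricData` in `Pool.Agent.H26.ToricGerm` and `toric_output` in
`Pool.Agent.H26.ToricTransfer` (for the germ `Y` over the field `L`). First
`exists_laurent_structure hT.toric.coordinates` gives the algebra structure `Laurent k n → L` with
`mono k L m = monom x m` (in particular `coord k L i = x i`), and `Y.A = toricAlg k L S`. Take `Y`
apart with `obtain` (as in `exists_toricData`) to substitute `Y.A`.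
* `exists_u` (ToricGerm.lean) with `J = Empty` (or `Fin 0`), `bdry = Y.bdry`, `ι = G.ι`, `r = G.r`,
  `s i = algebraMap K L (G.s i)` (nonzero by `G.s_ne_zero`), `cartier = hq.crepant`; `noninv`: if all
  monomials have value `0` along `v` then `Y.bdry v = 0` by `hT.bdry` (the sum over `J` is empty).
  It gives `u` and the relation which is `crep` (with `P = Y.pt`);
  `logBasis ω i = dlog k (coord k L i)` (`logBasis_apply`).
* `exists_rays` (ToricGerm.lean) gives `R`, `nonneg`, `mem`, and for `ρ ∈ R` the valuation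
  `monoDVal k L ρ hρ` is a prime divisor through the point, with nontrivial value on some
  monomial; `wt_monoDVal` gives `v.val (x i) = ρ i`.
* `u_eq`: let `v` be a prime divisor through the point with `v.val (monom x m) ≠ 0`;
  `invariant_prime` (ToricDiv.lean) says that `v = monoDVal k L (wt v) h1`; now argue as in
  `exists_toricData` (field `u_eq`): `FormOrd_monoDVal`, `log_discrepancy_eq` with `f` empty gives
  `e` with `v.FormOrd ω e` and `∑ u i * wt v i = Fun u ∅ _ (wt v) = 1 + e - ∑ r i * v.val (s i)`, and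
  `hq.crepant` gives `e + Y.bdry v = ∑ r i * v.val (s i)`; so `γ = Y.bdry v`, which is `0` or in
  `Γ` by `hT.bdry`.
* `pos`: `hT.toric.fixed_point` and `v.HasCenter`. `exists_ne`: `exists_ne_of_dval`
  (ToricGerm.lean).
* `center`: as in `hasCenter_monoDVal` (ToricGerm.lean): `a ∈ Y.A` is a Laurent polynomial with
  exponents in `S` (`exists_laurent_of_mem`); if its constant coefficient is `c₀` then
  `a - c₀ ∈ Y.pt` (`const_of_toric`) and `v (a - c₀) > 0` (all its monomials have positive value: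
  `v.ord.map_lt_sum` or `lt_ord_laurent`). So `v a ≥ 0`; if `a ∈ Y.pt` then `c₀ ∈ Y.pt`, so `c₀ = 0`
  (`Y.isMaximal`, constants `≠ 0` are units) and `v a > 0`; if `v a > 0` then `v c₀ > 0`, so
  `c₀ = 0` and `a ∈ Y.pt`.
-/

open scoped BigOperators Matrix

namespace Pool.Agent.H50.TQ

open Pool.Agent.H26

universe u

section core

variable {k L : Type u} [Field k] {n : ℕ} [Field L] [Algebra k L]
  [Algebra (Laurent k n) L] [IsScalarTower k (Laurent k n) L] [IsFractionRing (Laurent k n) L]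

/-- subtract the constant term -/
theorem base1_split (f : Laurent k n) : ∃ g : Laurent k n,
    (∀ m ∈ g.coeff.support, m ∈ f.coeff.support) ∧ g.coeff 0 = 0 ∧
      f = algebraMap k _ (f.coeff 0) + g := by
  classical
  let g : Laurent k n := restr f (fun m => ¬ m = 0)
  refine ⟨g, ?_, ?_, ?_⟩
  · intro m hm
    rw [restr_support, Finset.mem_filter] at hm
    exact hm.1
  · rw [restr_coeff, Finsupp.filter_apply_neg]
    simp
  · apply AddMonoidAlgebra.coeff_injective
    rw [AddMonoidAlgebra.coeff_add, AddMonoidAlgebra.coe_algebraMap]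
    ext m
    rw [Finsupp.add_apply, Function.comp_apply, AddMonoidAlgebra.coeff_single,
      Finsupp.single_apply]
    simp only [g, restr_coeff, Finsupp.filter_apply]
    by_cases hm : m = 0
    · subst hm; simp
    · simp [hm, Ne.symm hm]

theorem base1_center {S : AddSubmonoid (Fin n → ℤ)} {pt : Ideal (toricAlg k L S)}
    (hmax : pt.IsMaximal)
    (hpt : ∀ m ∈ S, m ≠ 0 → ∀ a : toricAlg k L S, (a : L) = mono k L m → a ∈ pt)
    (v : DVal k L) (hv : ∀ m ∈ S, m ≠ 0 → 0 < v.val (mono k L m)) :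
    v.HasCenter (toricAlg k L S) pt := by
  classical
  have hw : ∀ m ∈ S, m ≠ 0 → 0 < m ⬝ᵥ wt v := fun m hm hm0 => by
    rw [← val_mono]; exact hv m hm hm0
  have hnn : ∀ a : toricAlg k L S, 0 ≤ v.ord (a : L) := fun a => by
    obtain ⟨f, hf, hfa⟩ := exists_laurent_of_mem a.2
    rw [← hfa]
    refine le_ord_laurent v f 0 fun m hm => ?_
    by_cases h : m = 0
    · rw [h, zero_dotProduct]
    · exact (hw m (hf m hm) h).le
  have hpos : ∀ (f : Laurent k n), (∀ m ∈ f.coeff.support, m ∈ S) → f.coeff 0 = 0 →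
      0 < v.ord (algebraMap (Laurent k n) L f) := by
    intro f hf h0
    refine lt_ord_laurent v f 0 fun m hm => hw m (hf m hm) ?_
    rintro rfl
    exact Finsupp.mem_support_iff.1 hm h0
  refine ⟨hnn, fun a => ⟨fun ha => ?_, fun ha => ?_⟩⟩
  · obtain ⟨f, hf, hfa⟩ := exists_laurent_of_mem a.2
    have h0 : f.coeff 0 = 0 := by
      by_contra hne
      obtain ⟨g, hgf, hg0, hfg⟩ := base1_split f
      have hg : ∀ m ∈ g.coeff.support, m ∈ S := fun m hm => hf m (hgf m hm)
      have hgmem := const_of_toric hpt ⟨algebraMap _ _ g, mem_toricAlg_of_laurent g hg⟩ g hg rfl hg0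
      have hc : algebraMap k (toricAlg k L S) (f.coeff 0) ∈ pt := by
        have h1 : algebraMap k (toricAlg k L S) (f.coeff 0) =
            a - ⟨algebraMap _ _ g, mem_toricAlg_of_laurent g hg⟩ := by
          apply Subtype.ext
          change algebraMap k L (f.coeff 0) = (a : L) - algebraMap _ _ g
          rw [← hfa]
          conv_rhs => rw [hfg]
          rw [map_add, ← IsScalarTower.algebraMap_apply]
          ring
        rw [h1]
        exact Ideal.sub_mem _ ha hgmem
      refine hmax.ne_top (Ideal.eq_top_of_isUnit_mem _ hc ?_)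
      exact (IsUnit.mk0 _ hne).map (algebraMap k (toricAlg k L S))
    rw [← hfa]
    exact hpos f hf h0
  · obtain ⟨f, hf, hfa⟩ := exists_laurent_of_mem a.2
    refine const_of_toric hpt a f hf hfa ?_
    by_contra hne
    obtain ⟨g, hgf, hg0, hfg⟩ := base1_split f
    have hg : ∀ m ∈ g.coeff.support, m ∈ S := fun m hm => hf m (hgf m hm)
    have h1 := hpos g hg hg0
    have h2 : algebraMap k L (f.coeff 0) =
        algebraMap (Laurent k n) L f + -(algebraMap (Laurent k n) L g) := by
      conv_rhs => rw [hfg]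
      rw [map_add, ← IsScalarTower.algebraMap_apply]
      ring
    have h3 : 0 < v.ord (algebraMap k L (f.coeff 0)) := by
      rw [h2]
      refine v.ord.map_lt_add ?_ ?_
      · rw [hfa]; exact ha
      · rw [v.ord.map_neg]; exact h1
    rw [v.ord_algebraMap _ hne] at h3
    exact lt_irrefl _ h3

theorem base1_core [IsAlgClosed k] [CharZero k] {S : AddSubmonoid (Fin n → ℤ)}
    (fg : (toricAlg k L S).FG) (hfrac : IsFractionRing (toricAlg k L S) L)
    (hnorm : IsIntegrallyClosed (toricAlg k L S)) {pt : Ideal (toricAlg k L S)}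
    (hmax : pt.IsMaximal) {Γ : Set ℝ}
    (bdry : DVal k L → ℝ) (ω : Module.Basis (Fin n) L (Ω[L⁄k])) {ι : Type} [Fintype ι]
    (r : ι → ℝ) (s : ι → L) (s_ne : ∀ i, s i ≠ 0)
    (cartier : ∀ v : DVal k L, v.IsPrimeDivisorThrough (toricAlg k L S) pt →
      ∃ e : ℤ, v.FormOrd ω e ∧ (e : ℝ) + bdry v = ∑ i, r i * (v.val (s i) : ℝ))
    (hb : ∀ v : DVal k L, v.IsPrimeDivisorThrough (toricAlg k L S) pt → bdry v = 0 ∨
      (bdry v ∈ Γ ∧ ∃ m : Fin n → ℤ, v.val (mono k L m) ≠ 0))
    (hpt : ∀ m ∈ S, m ≠ 0 → ∀ a : toricAlg k L S, (a : L) = mono k L m → a ∈ pt) :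
    ∃ (u : Fin n → ℝ) (R : Finset (Fin n → ℤ)),
      (∀ ρ ∈ R, ∃ v : DVal k L, v.IsPrimeDivisorThrough (toricAlg k L S) pt ∧
        (∃ m : Fin n → ℤ, v.val (mono k L m) ≠ 0) ∧ ∀ i, v.val (coord k L i) = ρ i) ∧
      (∀ v : DVal k L, v.IsPrimeDivisorThrough (toricAlg k L S) pt →
        (∃ m : Fin n → ℤ, v.val (mono k L m) ≠ 0) →
        ∃ γ : ℝ, (γ = 0 ∨ γ ∈ Γ) ∧ ∑ i, u i * (v.val (coord k L i) : ℝ) = 1 - γ) ∧
      (∀ ρ ∈ R, ∀ m ∈ S, 0 ≤ m ⬝ᵥ ρ) ∧
      (∀ m : Fin n → ℤ, (∀ ρ ∈ R, 0 ≤ m ⬝ᵥ ρ) → m ∈ S) ∧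
      (∀ v : DVal k L, v.HasCenter (toricAlg k L S) pt →
        ∑ i, r i * (v.val (s i) : ℝ) + (v.val (ω.det fun i => dlog k (coord k L i)) : ℝ) =
          - ∑ i, u i * (v.val (coord k L i) : ℝ)) ∧
      (∀ v : DVal k L, v.HasCenter (toricAlg k L S) pt → ∀ m ∈ S, m ≠ 0 →
        0 < v.val (mono k L m)) ∧
      (∀ v : DVal k L, (∀ m ∈ S, m ≠ 0 → 0 < v.val (mono k L m)) →
        v.HasCenter (toricAlg k L S) pt) ∧
      (∀ v : DVal k L, v.HasCenter (toricAlg k L S) pt → ∃ m ∈ S, m ≠ 0) := by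
  classical
  have hnoeth : IsNoetherianRing (toricAlg k L S) := by
    have : Algebra.FiniteType k (toricAlg k L S) := (toricAlg k L S).fg_iff_finiteType.1 fg
    exact Algebra.FiniteType.isNoetherianRing k _
  have hprime := hmax.isPrime
  let f : Empty → Laurent k n := fun j => j.elim
  let d : Empty → ℝ := fun j => j.elim
  have f_ne : ∀ j, f j ≠ 0 := fun j => j.elim
  obtain ⟨u, hu⟩ := exists_u (S := S) (pt := pt) (d := d) ω f_ne s_ne cartier (by
    intro v hv hm
    rw [Finset.univ_eq_empty, Finset.sum_empty]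
    rcases hb v hv with h | ⟨_, m, h⟩
    · exact h
    · exact absurd (hm m) h)
  obtain ⟨R, hR, hnn, hmem⟩ := exists_rays (k := k) (S := S) (pt := pt) hpt
  refine ⟨u, R, ?_, ?_, hnn, hmem, ?_, ?_, ?_, ?_⟩
  · intro ρ hρ
    obtain ⟨h1, h2, h3⟩ := hR ρ hρ
    exact ⟨monoDVal k L ρ h1, h2, h3, fun i => congrFun (wt_monoDVal ρ h1) i⟩
  · intro v hv hm
    obtain ⟨h1, h2⟩ := invariant_prime hv hm
    obtain ⟨e, he, hcar⟩ := cartier v hv
    refine ⟨bdry v, (hb v hv).imp id fun h => h.1, ?_⟩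
    obtain ⟨P, hP, _, hPpt⟩ := hv
    have hL := hu v P hP hPpt
    rw [h2] at hL
    obtain ⟨e', he', hF⟩ := log_discrepancy_eq (ω := ω) f_ne (wt v) h1 hL
    rw [← h2] at he' hF
    rw [FormOrd_unique _ ω he he'] at hcar
    unfold Fun at hF
    rw [Finset.univ_eq_empty (α := Empty), Finset.sum_empty, sub_zero] at hF
    have hF' : ∑ i, u i * (v.val (coord k L i) : ℝ) =
        1 + (e' : ℝ) - ∑ i, r i * (v.val (s i) : ℝ) := hF
    rw [hF']
    linarith
  · intro v hv
    have h1 := hu v pt hv le_rfl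
    rw [Finset.univ_eq_empty (α := Empty), Finset.sum_empty, sub_zero] at h1
    have h2 : (fun i => dlog k (coord k L i)) = (logBasis ω : Fin n → Ω[L⁄k]) :=
      funext fun i => (logBasis_apply ω i).symm
    rw [h2]
    exact h1
  · intro v hv m hm hm0
    rw [val_mono]
    exact int_of_hasCenter hpt hv m hm hm0
  · intro v hv
    exact base1_center hmax hpt v hv
  · intro v _
    exact exists_ne_of_dval S v

end core

variable {k K L : Type u} [Field k] [Field K] [Field L] [Algebra k K] [Algebra k L]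
  [Algebra K L] [IsScalarTower k K L] {n : ℕ}

theorem exists_baseData [IsAlgClosed k] [CharZero k] {G : LogGerm k K n} {Y : LogGerm k L n}
    {Γ : Set ℝ} (hq : IsFiniteQuotient G Y) {σ : L ≃ₐ[K] L} {x : Fin n → L}
    {S : AddSubmonoid (Fin n → ℤ)} (hT : IsToricFor Y Γ σ x S) :
    Nonempty (BaseData G Y x S Γ) := by
  classical
  obtain ⟨inst, h1, h2, h3⟩ := exists_laurent_structure hT.toric.coordinates
  have hA : Y.A = toricAlg k L S := by
    rw [hT.toric.coordinate_ring]
    unfold toricAlg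
    congr 1
    ext y
    constructor
    · rintro ⟨m, hm, rfl⟩
      exact ⟨m, hm, h3 m⟩
    · rintro ⟨m, hm, rfl⟩
      exact ⟨m, hm, (h3 m).symm⟩
  have hcoord : ∀ i, coord k L i = x i := by
    intro i
    unfold coord
    rw [h3]
    unfold monom
    rw [Finset.prod_eq_single i]
    · simp
    · intro j _ hj
      rw [Pi.single_eq_of_ne hj, zpow_zero]
    · simp
  have hs : ∀ i, algebraMap K L (G.s i) ≠ 0 := fun i =>
    (map_ne_zero (algebraMap K L)).2 (G.s_ne_zero i)
  have hcr := hq.crepant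
  have hfix := hT.toric.fixed_point
  have hbd := hT.bdry
  clear hq hT
  obtain ⟨A, fg, hfrac, hnorm, pt, hmax, bdry, ω, ι, hfin, r, s, s_ne, cartier⟩ := Y
  simp only at hA hcr hfix hbd
  subst hA
  have hpt : ∀ m ∈ S, m ≠ 0 → ∀ a : toricAlg k L S, (a : L) = mono k L m → a ∈ pt := by
    intro m hm hm0 a ha
    obtain ⟨b, hb, hbm⟩ := hfix m hm hm0
    have : a = b := Subtype.ext (by rw [ha, hbm, h3])
    rw [this]; exact hb
  obtain ⟨u, R, c1, c2, c3, c4, c5, c6, c7, c8⟩ := base1_core (Γ := Γ) fg hfrac hnorm hmax bdry ω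
    G.r (fun i => algebraMap K L (G.s i)) hs hcr (by simpa only [h3] using hbd) hpt
  simp only [h3, hcoord] at c1 c2 c5 c6 c7
  exact ⟨⟨u, R, c1, c2, c3, c4, c5, c6, c7, c8⟩⟩

end Pool.Agent.H50.TQ
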