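import Mathlib
import Pool.Agent.H50.TQ.Defs
import Pool.Agent.H32.ArrCenter

/-!
# Centres on the quotient and on the cover

PROOFS. `hasCenter_down`: for `a ∈ G.A` the element `algebraMap K L a` is integral over `G.A`, so it
is in `Y.A` (`hq.mem_iff`), `v ≥ 0` there, hence `E a ≥ 0` (`v.val = r * E.val`, `r > 0`; use
`nonneg_ord_iff`, `pos_ord_iff` of `Pool.Agent.H26.Basic`). If `a ∈ G.pt` then
`algebraMap K L a ∈ Y.pt` (`hq.map_pt`), so `v > 0` and `E a > 0`. If `a ∉ G.pt` then by maximality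
(`Ideal.IsMaximal.exists_inv`, or `Ideal.Quotient` is a field) there is `b ∈ G.A` with
`a * b - 1 ∈ G.pt`, so `E (a b - 1) > 0`, so `E (a b) = 0` (else `E 1 > 0`), and
`E a, E b ≥ 0` give `E a = 0`.

`hasCenter_up`: copy the proof of `pos_of_mem_pt` in `Pool.Agent.H32.ArrCenter` (it uses only:
`L / K` Galois, every `b ∈ Y.A` is integral over `G.A`, `Y.A` is stable under the group with
`hq.fixed`, and elements of `Y.pt` which are in `K` are in `G.pt`). For the last point: if
`f ∈ K` and `algebraMap K L f = b ∈ Y.pt` then `f` is integral over `G.A`, so `f ∈ G.A` (`G.normal`);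
if `f ∉ G.pt` then `f g - 1 ∈ G.pt` for some `g ∈ G.A`, so `b g - 1 ∈ Y.pt` (`hq.map_pt`), so
`1 ∈ Y.pt`, contradiction to `Y.isMaximal`. This gives `v b ≥ 0` for `b ∈ Y.A` and `v b > 0` for
`b ∈ Y.pt`. For `b ∉ Y.pt` take `b' ∈ Y.A` with `b b' - 1 ∈ Y.pt`; then `v b = 0` as above.
-/

open scoped BigOperators Matrix

namespace Pool.Agent.H50.TQ

open Pool.Agent.H26 Pool.H32

universe u

variable {k K L : Type u} [Field k] [Field K] [Field L] [Algebra k K] [Algebra k L]
  [Algebra K L] [IsScalarTower k K L] {n : ℕ}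

theorem base2_center {A : Subalgebra k K} {P : Ideal A} (hP : P.IsMaximal) (v : DVal k K)
    (h0 : ∀ a : A, 0 ≤ v.ord (a : K)) (h1 : ∀ a ∈ P, 0 < v.ord (a : K)) : v.HasCenter A P := by
  refine ⟨h0, fun a => ⟨h1 a, fun ha => ?_⟩⟩
  by_contra hc
  obtain ⟨b, i, hi, e⟩ := hP.exists_inv hc
  have e' : (b : K) * a + i = 1 := congrArg (Subtype.val) e
  have h2 : 0 < v.ord ((b : K) * a) := by
    rw [v.ord.map_mul]
    exact add_pos_nn (h0 b) ha
  have h3 : 0 < v.ord ((b : K) * a + i) := v.ord.map_lt_add h2 (h1 i hi)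
  rw [e', v.ord.map_one] at h3
  exact lt_irrefl _ h3

theorem base2_nonneg {v : DVal k L} {E : DVal k K} {r : ℕ}
    (hr0 : 0 < r) (hr : ∀ f : K, f ≠ 0 → v.val (algebraMap K L f) = r * E.val f) (f : K) :
    0 ≤ v.ord (algebraMap K L f) ↔ 0 ≤ E.ord f := by
  rw [v.nonneg_ord_iff, E.nonneg_ord_iff]
  by_cases hf : f = 0
  · simp [hf]
  · rw [hr f hf]
    have h1 : algebraMap K L f ≠ 0 := by simpa using hf
    have h2 : (0 : ℤ) < r := by exact_mod_cast hr0
    simp only [hf, h1, false_or]
    constructor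
    · intro h
      by_contra hc
      push Not at hc
      nlinarith
    · intro h
      positivity

theorem base2_pos {v : DVal k L} {E : DVal k K} {r : ℕ}
    (hr0 : 0 < r) (hr : ∀ f : K, f ≠ 0 → v.val (algebraMap K L f) = r * E.val f) (f : K) :
    0 < v.ord (algebraMap K L f) ↔ 0 < E.ord f := by
  rw [v.pos_ord_iff, E.pos_ord_iff]
  by_cases hf : f = 0
  · simp [hf]
  · rw [hr f hf]
    have h1 : algebraMap K L f ≠ 0 := by simpa using hf
    have h2 : (0 : ℤ) < r := by exact_mod_cast hr0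
    simp only [hf, h1, false_or]
    constructor
    · intro h
      by_contra hc
      push Not at hc
      nlinarith
    · intro h
      positivity

theorem base2_map_mem {G : LogGerm k K n} {Y : LogGerm k L n}
    (hq : IsFiniteQuotient G Y) (a : G.A) : algebraMap K L (a : K) ∈ Y.A := by
  rw [hq.mem_iff]
  exact isIntegral_algebraMap (R := G.A) (A := L) (x := a)

theorem base2_mem_pt {G : LogGerm k K n} {Y : LogGerm k L n}
    (hq : IsFiniteQuotient G Y) (a : G.A)
    (h : (⟨algebraMap K L (a : K), base2_map_mem hq a⟩ : Y.A) ∈ Y.pt) : a ∈ G.pt := by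
  by_contra hc
  obtain ⟨b, i, hi, e⟩ := G.isMaximal.exists_inv hc
  have e' : (b : K) * a + i = 1 := congrArg (Subtype.val) e
  obtain ⟨c, hc1, hc2⟩ := hq.map_pt i hi
  apply Y.isMaximal.ne_top
  rw [Ideal.eq_top_iff_one]
  have e2 : (⟨algebraMap K L (b : K), base2_map_mem hq b⟩ : Y.A) *
      ⟨algebraMap K L (a : K), base2_map_mem hq a⟩ + c = 1 := by
    apply Subtype.ext
    change algebraMap K L (b : K) * algebraMap K L (a : K) + (c : L) = 1
    rw [hc2, ← map_mul, ← map_add, e', map_one]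
  rw [← e2]
  exact Y.pt.add_mem (Y.pt.mul_mem_left _ h) hc1

/-- a valuation of `L` centred at `y` restricts to one centred at `x` -/
theorem hasCenter_down {G : LogGerm k K n} {Y : LogGerm k L n}
    (hq : IsFiniteQuotient G Y) (v : DVal k L) (hv : v.HasCenter Y.A Y.pt) (E : DVal k K) {r : ℕ}
    (hr0 : 0 < r) (hr : ∀ f : K, f ≠ 0 → v.val (algebraMap K L f) = r * E.val f) :
    E.HasCenter G.A G.pt := by
  refine base2_center G.isMaximal E (fun a => ?_) fun a ha => ?_
  · rw [← base2_nonneg hr0 hr]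
    exact hv.1 ⟨algebraMap K L (a : K), base2_map_mem hq a⟩
  · rw [← base2_pos hr0 hr]
    obtain ⟨c, hc1, hc2⟩ := hq.map_pt a ha
    rw [← hc2]
    exact (hv.2 c).1 hc1

/-- a valuation of `L` which restricts to a valuation centred at `x` is centred at `y` -/
theorem hasCenter_up {G : LogGerm k K n} {Y : LogGerm k L n}
    (hq : IsFiniteQuotient G Y) (E : DVal k K) (hE : E.HasCenter G.A G.pt) (v : DVal k L) {r : ℕ}
    (hr0 : 0 < r) (hr : ∀ f : K, f ≠ 0 → v.val (algebraMap K L f) = r * E.val f) :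
    v.HasCenter Y.A Y.pt := by
  classical
  have hfin := hq.finiteDimensional
  have hgal := hq.isGalois
  have hFE0 : ∀ f : K, 0 ≤ E.ord f → 0 ≤ v.ord (algebraMap K L f) :=
    fun f => (base2_nonneg hr0 hr f).2
  have hFE : ∀ f : K, 0 < E.ord f → 0 < v.ord (algebraMap K L f) :=
    fun f => (base2_pos hr0 hr f).2
  have hA : ∀ a : G.A, 0 ≤ v.ord (algebraMap G.A L a) := fun a => hFE0 _ (hE.1 a)
  have hnn : ∀ b : Y.A, 0 ≤ v.ord (b : L) :=
    fun b => nonneg_of_isIntegral v.ord hA ((hq.mem_iff b).1 b.2)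
  refine base2_center Y.isMaximal v hnn fun b hb => ?_
  choose β hβ1 hβ2 using fun σ : L ≃ₐ[K] L => hq.fixed σ b hb
  let P0 : Polynomial Y.A := ∏ σ : L ≃ₐ[K] L, (Polynomial.X - Polynomial.C (β σ))
  set N := Fintype.card (L ≃ₐ[K] L) with hN
  have hN0 : 0 < N := Fintype.card_pos
  have hmonic : P0.Monic := Polynomial.monic_prod_of_monic _ _ fun σ _ => Polynomial.monic_X_sub_C _
  have hdeg : P0.natDegree = N := by
    rw [Polynomial.natDegree_prod_of_monic _ _ fun σ _ => Polynomial.monic_X_sub_C _]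
    simp [hN]
  -- the lower coefficients are in `pt`
  have hpt : ∀ i, i < N → P0.coeff i ∈ Y.pt := by
    intro i hi
    have h1 : P0.map (Ideal.Quotient.mk Y.pt) = Polynomial.X ^ N := by
      simp only [P0]
      rw [Polynomial.map_prod]
      have h2 : ∀ σ : L ≃ₐ[K] L, (Polynomial.X - Polynomial.C (β σ)).map
          (Ideal.Quotient.mk Y.pt) = Polynomial.X := by
        intro σ
        rw [Polynomial.map_sub, Polynomial.map_X, Polynomial.map_C,
          Ideal.Quotient.eq_zero_iff_mem.2 (hβ1 σ), map_zero, sub_zero]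
      simp_rw [h2]
      rw [Finset.prod_const, Finset.card_univ]
    have h2 := congrArg (fun p => Polynomial.coeff p i) h1
    simp only [Polynomial.coeff_map, Polynomial.coeff_X_pow, if_neg hi.ne] at h2
    exact Ideal.Quotient.eq_zero_iff_mem.1 h2
  -- the coefficients are in `K`
  let ι : Y.A →+* L := Y.A.val.toRingHom
  have hPL : P0.map ι = ∏ σ : L ≃ₐ[K] L, (Polynomial.X - Polynomial.C (σ (b : L))) := by
    simp only [P0]
    rw [Polynomial.map_prod]
    refine Finset.prod_congr rfl fun σ _ => ?_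
    rw [Polynomial.map_sub, Polynomial.map_X, Polynomial.map_C]
    congr 2
    exact hβ2 σ
  have hfix : ∀ (τ : L ≃ₐ[K] L) (i : ℕ), τ ((P0.coeff i : Y.A) : L) = (P0.coeff i : Y.A) := by
    intro τ i
    have h1 : (P0.map ι).map (τ : L →+* L) = P0.map ι := by
      rw [hPL, Polynomial.map_prod]
      refine Fintype.prod_equiv (Equiv.mulLeft τ) _ _ fun σ => ?_
      rw [Polynomial.map_sub, Polynomial.map_X, Polynomial.map_C]
      rfl
    have h2 := congrArg (fun p => Polynomial.coeff p i) h1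
    simp only [Polynomial.coeff_map] at h2
    exact h2
  have hcoef : ∀ i, i < N → 0 < v.ord ((P0.coeff i : Y.A) : L) := by
    intro i hi
    obtain ⟨κ, hκ⟩ := (IsGalois.mem_range_algebraMap_iff_fixed (F := K) (E := L)
      ((P0.coeff i : Y.A) : L)).2 fun τ => hfix τ i
    have hint : IsIntegral G.A κ := by
      have h1 := (hq.mem_iff _).1 (P0.coeff i).2
      rw [← hκ] at h1
      exact (isIntegral_algebraMap_iff (algebraMap K L).injective).1 h1
    have := G.normal
    have := G.isFractionRing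
    obtain ⟨a, ha⟩ := (IsIntegrallyClosed.isIntegral_iff (R := G.A) (K := K)).1 hint
    have ha' : (a : K) = κ := ha
    have h1 : (⟨algebraMap K L (a : K), base2_map_mem hq a⟩ : Y.A) = P0.coeff i := by
      apply Subtype.ext
      change algebraMap K L (a : K) = _
      rw [ha', hκ]
    have h2 : a ∈ G.pt := by
      apply base2_mem_pt hq a
      rw [h1]
      exact hpt i hi
    rw [← hκ, ← ha']
    exact hFE _ ((hE.2 a).1 h2)
  -- the equation
  have hroot : P0.eval₂ ι (b : L) = 0 := by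
    rw [← Polynomial.eval_map, hPL, Polynomial.eval_prod]
    refine Finset.prod_eq_zero (Finset.mem_univ 1) ?_
    simp
  rw [Polynomial.eval₂_eq_sum_range, hdeg, Finset.sum_range_succ] at hroot
  have hlead : P0.coeff N = 1 := by
    rw [← hdeg]; exact hmonic
  rw [hlead, map_one, one_mul] at hroot
  have hbN : ((b : L)) ^ N = -∑ i ∈ Finset.range N, ι (P0.coeff i) * (b : L) ^ i := by
    rw [eq_neg_iff_add_eq_zero, add_comm]; exact hroot
  have hpos : 0 < v.ord ((b : L) ^ N) := by
    rw [hbN, v.ord.map_neg]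
    apply v.ord.map_lt_sum
    · exact WithTop.zero_ne_top
    · intro i hi
      rw [v.ord.map_mul, v.ord.map_pow, add_comm]
      exact add_pos_nn (nsmul_nonneg (hnn b) i) (hcoef i (Finset.mem_range.1 hi))
  by_contra hcon
  have h0 : v.ord (b : L) = 0 := le_antisymm (not_lt.1 hcon) (hnn b)
  rw [v.ord.map_pow, h0, nsmul_zero] at hpos
  exact lt_irrefl _ hpos

end Pool.Agent.H50.TQ
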