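import Mathlib
import Pool.Agent.H50.TQ.Defs
import Pool.Agent.H26.Basic

/-!
# The group acts on the valuations of the cover

PROOFS. `exists_comp`: `v' = ⟨v.ord.comap σ, ..⟩` (`AddValuation.comap` along the ring homomorphism
`σ`), trivial on `k` because `σ` fixes the constants, and `v'.ord (σ⁻¹ t) = 1`.
`primeDivisor_comp`: let `P` be the centre of `v` (height one, `P ≤ Y.pt`). `σ` induces a ring
automorphism `s` of `Y.A` (`b ∈ Y.A ↔ σ b ∈ Y.A`: by `hq.mem_iff` and `σ` fixes `K`, so it preserves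
integrality over `G.A`: `IsIntegral.map`; use `σ.symm` for the converse). The centre of `v'` is
`P' = P.comap s`; `P' ≤ Y.pt` by `hq.fixed σ.symm`; the height of `P'` is the height of `P`
(`RingEquiv.height_comap` or `Ideal.height_comap_of_...`, search for `height` and `RingEquiv`; or
`Order.height` under the order isomorphism of prime spectra).
-/

open scoped BigOperators Matrix

namespace Pool.Agent.H50.TQ

open Pool.Agent.H26

universe u

variable {k K L : Type u} [Field k] [Field K] [Field L] [Algebra k K] [Algebra k L]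
  [Algebra K L] [IsScalarTower k K L] {n : ℕ}

/-- composition of a valuation with an automorphism -/
theorem exists_comp (σ : L ≃ₐ[K] L) (v : DVal k L) :
    ∃ v' : DVal k L, ∀ y, v'.ord y = v.ord (σ y) := by
  refine ⟨⟨v.ord.comap (σ : L →+* L), fun c hc => ?_, ?_⟩, fun y => rfl⟩
  · have h1 : σ (algebraMap k L c) = algebraMap k L c := by
      rw [IsScalarTower.algebraMap_apply k K L, σ.commutes]
    change v.ord (σ (algebraMap k L c)) = 0
    rw [h1]
    exact v.ord_algebraMap c hc
  · obtain ⟨t, ht⟩ := v.exists_ord_eq_one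
    refine ⟨σ.symm t, ?_⟩
    change v.ord (σ (σ.symm t)) = 1
    rw [AlgEquiv.apply_symm_apply]
    exact ht

/-- integrality over a subalgebra of `K` is preserved by the automorphisms over `K` -/
theorem base3_isIntegral_map (A : Subalgebra k K) (σ : L ≃ₐ[K] L) {b : L}
    (hb : IsIntegral A b) : IsIntegral A (σ b) := by
  obtain ⟨p, hp, hpb⟩ := hb
  refine ⟨p, hp, ?_⟩
  have h1 := congrArg (σ : L →+* L) hpb
  rw [Polynomial.hom_eval₂, map_zero] at h1
  have h2 : (σ : L →+* L).comp (algebraMap A L) = algebraMap A L := by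
    ext a
    exact σ.commutes (a : K)
  rw [h2] at h1
  exact h1

/-- the ring automorphism of the cover -/
noncomputable def base3Equiv {G : LogGerm k K n} {Y : LogGerm k L n}
    (hq : IsFiniteQuotient G Y) (σ : L ≃ₐ[K] L) : Y.A ≃+* Y.A where
  toFun b := ⟨σ b, (hq.mem_iff _).2 (base3_isIntegral_map G.A σ ((hq.mem_iff _).1 b.2))⟩
  invFun b := ⟨σ.symm b, (hq.mem_iff _).2 (base3_isIntegral_map G.A σ.symm ((hq.mem_iff _).1 b.2))⟩
  left_inv b := Subtype.ext (σ.symm_apply_apply _)
  right_inv b := Subtype.ext (σ.apply_symm_apply _)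
  map_mul' a b := Subtype.ext (map_mul σ _ _)
  map_add' a b := Subtype.ext (map_add σ _ _)

/-- the group acts on the prime divisors through `y` -/
theorem primeDivisor_comp {G : LogGerm k K n} {Y : LogGerm k L n}
    (hq : IsFiniteQuotient G Y) (σ : L ≃ₐ[K] L) {v v' : DVal k L}
    (h : ∀ y, v'.ord y = v.ord (σ y)) (hv : v.IsPrimeDivisorThrough Y.A Y.pt) :
    v'.IsPrimeDivisorThrough Y.A Y.pt := by
  obtain ⟨P, ⟨hP1, hP2⟩, hP3, hP4⟩ := hv
  have hs : ∀ a : Y.A, ((base3Equiv hq σ a : Y.A) : L) = σ a := fun a => rfl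
  refine ⟨P.comap (base3Equiv hq σ), ⟨fun a => ?_, fun a => ?_⟩, ?_, fun a ha => ?_⟩
  · rw [h, ← hs a]
    exact hP1 _
  · rw [Ideal.mem_comap, hP2, hs a, h]
  · rw [RingEquiv.height_comap]
    exact hP3
  · rw [Ideal.mem_comap] at ha
    obtain ⟨b', hb1, hb2⟩ := hq.fixed σ.symm _ (hP4 ha)
    rw [hs a, AlgEquiv.symm_apply_apply] at hb2
    have h3 : b' = a := Subtype.ext hb2
    rwa [h3] at hb1

end Pool.Agent.H50.TQ
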