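import Mathlib
import Pool.Agent.H50.TQ.ActL
import Pool.Agent.H32.OrbDefs

/-!
# The smooth chart `k[X_i, X_j⁻¹ (P j)]` at the point `X_j = 1 (P j)`, `X_i = 0` (not `P i`)

PROOFS. `chartAlg_fg`: the generating set is finite (`Subalgebra.fg_adjoin_of_finite`).
`monom_mem`: a finite product of powers `X i ^ m i`; for `m i < 0` we have `P i = true` and use
`(X i)⁻¹`.
`exists_laurent`: `Algebra.adjoin_induction`; or: the set of the values `laurentPoly X f` with `f` of
the required form is a subalgebra containing the generators (`coordHom_apply`: `laurentPoly X f` is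
the value of an algebra homomorphism at `f`; products of Laurent polynomials: the support of `f * g`
is in `support f + support g`). See `exists_laurent_of_mem` in `Pool.Agent.H26.ToricAlg` for a
similar proof.
`isFractionRing_chart`: `k[X]` is contained in the chart and its fraction field is `L`
(`hX.2`, `IntermediateField.mem_adjoin_range_iff`), as in the proof of `exists_laurent_structure`
(`IsFractionRing.of_field`).
`exists_value`: by `Algebra.adjoin_induction` (the set of the `b` for which a value exists is a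
subalgebra: products `b b' - c c' = (b - c) b' + c (b' - c')`); `X i - eps i` is a generator of the
point; for `P i = true`: `(X i)⁻¹ - 1 = - (X i)⁻¹ * (X i - 1)`.
`chartPt_ne_top`: let `ev f = ∑ m ∈ f.support, if (∀ i, P i = false → m i = 0) then f m else 0`
(the value at the point). If `1` were in the ideal then `1 = ∑ i, b_i * (X i - eps i)`; with
`b_i = laurentPoly X f_i` and the injectivity of `coordHom` this is an identity of Laurent
polynomials (with exponents `≥ 0` at the `i` with `P i = false`), and `ev` (a ring homomorphism on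
those, or compute `ev (f * (X_i - eps i)) = 0` directly) gives `1 = 0`. Cleaner: construct a ring
homomorphism from the chart to `k`: e.g. first the `k`-algebra homomorphism from
`{f : Laurent k n | exponents ≥ 0 at P i = false}`; or use `AddMonoidAlgebra` of the submonoid
`{m | ∀ i, P i = false → 0 ≤ m i}` and `AddMonoidAlgebra.lift` with the monoid homomorphism
`m ↦ if (∀ i, P i = false → m i = 0) then 1 else 0`.
`isMaximal_chartPt`: from `exists_value` and `chartPt_ne_top`: if `b ∉ chartPt` then its value is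
`c ≠ 0` and `c⁻¹ * b - 1 ∈ chartPt` (`Ideal.isMaximal_iff` or the quotient is `k`).
`isParam_chart`: `chartPt` is generated by the `chartParam`, take `s = 1`.
-/

open scoped BigOperators Matrix

namespace Pool.Agent.H50.TQ

open Pool.Agent.H26 Pool.H32

universe u

variable {k L : Type u} [Field k] [Field L] [Algebra k L] {n : ℕ}

/-- the coordinate ring of the chart -/
def chartAlg (k : Type u) [Field k] {L : Type u} [Field L] [Algebra k L] {n : ℕ} (X : Fin n → L)
    (P : Fin n → Bool) : Subalgebra k L :=
  Algebra.adjoin k (Set.range X ∪ {y | ∃ i, P i = true ∧ y = (X i)⁻¹})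

/-- the value of the coordinate `i` at the point -/
def eps (P : Fin n → Bool) (i : Fin n) : ℤ := if P i = true then 1 else 0

theorem X_mem (X : Fin n → L) (P : Fin n → Bool) (i : Fin n) : X i ∈ chartAlg k X P :=
  Algebra.subset_adjoin (Or.inl ⟨i, rfl⟩)

/-- the local parameters `X i - eps i` -/
def chartParam (k : Type u) [Field k] {L : Type u} [Field L] [Algebra k L] {n : ℕ} (X : Fin n → L)
    (P : Fin n → Bool) (i : Fin n) : chartAlg k X P :=
  ⟨X i, X_mem X P i⟩ - ((eps P i : ℤ) : chartAlg k X P)

/-- the point -/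
def chartPt (k : Type u) [Field k] {L : Type u} [Field L] [Algebra k L] {n : ℕ} (X : Fin n → L)
    (P : Fin n → Bool) : Ideal (chartAlg k X P) :=
  Ideal.span (Set.range (chartParam k X P))

theorem chartAlg_fg (X : Fin n → L) (P : Fin n → Bool) : (chartAlg k X P).FG := by
  unfold chartAlg
  refine Subalgebra.fg_def.2 ⟨_, (Set.finite_range X).union ?_, rfl⟩
  refine (Set.finite_range fun i => (X i)⁻¹).subset ?_
  rintro y ⟨i, -, rfl⟩
  exact ⟨i, rfl⟩

theorem X_inv_mem (X : Fin n → L) (P : Fin n → Bool) {i : Fin n} (hi : P i = true) :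
    (X i)⁻¹ ∈ chartAlg k X P :=
  Algebra.subset_adjoin (Or.inr ⟨i, hi, rfl⟩)

theorem monom_mem {X : Fin n → L} {P : Fin n → Bool} {m : Fin n → ℤ}
    (hm : ∀ i, P i = false → 0 ≤ m i) : monom X m ∈ chartAlg k X P := by
  unfold monom
  refine Subalgebra.prod_mem _ fun i _ => ?_
  rcases le_or_gt 0 (m i) with h | h
  · obtain ⟨a, ha⟩ := Int.eq_ofNat_of_zero_le h
    rw [ha]
    rw [zpow_natCast]
    exact Subalgebra.pow_mem _ (X_mem X P i) a
  · have hP : P i = true := by
      by_contra hcon
      have h1 := hm i (by simpa using hcon)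
      omega
    obtain ⟨a, ha⟩ := Int.eq_ofNat_of_zero_le (by omega : 0 ≤ -(m i))
    have ha' : m i = -((a : ℕ) : ℤ) := by
      have : (Int.ofNat a : ℤ) = ((a : ℕ) : ℤ) := rfl
      omega
    rw [ha', zpow_neg, zpow_natCast, ← inv_pow]
    exact Subalgebra.pow_mem _ (X_inv_mem X P hP) a

/-- each element of the chart is a Laurent polynomial in the `X i` without negative exponents at
the `i` with `P i = false` -/
theorem exists_laurent {X : Fin n → L} (hX0 : ∀ i, X i ≠ 0) {P : Fin n → Bool} {y : L}
    (hy : y ∈ chartAlg k X P) :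
    ∃ f : (Fin n → ℤ) →₀ k, laurentPoly X f = y ∧ ∀ m ∈ f.support, ∀ i, P i = false → 0 ≤ m i := by
  classical
  unfold chartAlg at hy
  rw [← Subalgebra.mem_toSubmodule, Algebra.adjoin_eq_span] at hy
  have hcl : (Submonoid.closure (Set.range X ∪ {y | ∃ i, P i = true ∧ y = (X i)⁻¹}) : Set L) ⊆
      {y | ∃ m : Fin n → ℤ, (∀ i, P i = false → 0 ≤ m i) ∧ y = monom X m} := by
    intro y hy
    rw [SetLike.mem_coe] at hy
    induction hy using Submonoid.closure_induction with
    | mem x hx =>
      rcases hx with ⟨i, rfl⟩ | ⟨i, hi, rfl⟩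
      · refine ⟨Pi.single i 1, fun j _ => ?_, ?_⟩
        · by_cases hj : j = i
          · subst hj; simp
          · rw [Pi.single_eq_of_ne hj]
        · unfold monom
          rw [Finset.prod_eq_single i]
          · simp
          · intro j _ hj
            rw [Pi.single_eq_of_ne hj, zpow_zero]
          · simp
      · refine ⟨Pi.single i (-1), fun j hj' => ?_, ?_⟩
        · have hj : j ≠ i := by
            rintro rfl
            rw [hi] at hj'
            exact absurd hj' (by simp)
          rw [Pi.single_eq_of_ne hj]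
        · unfold monom
          rw [Finset.prod_eq_single i]
          · simp
          · intro j _ hj
            rw [Pi.single_eq_of_ne hj, zpow_zero]
          · simp
    | one => exact ⟨0, fun _ _ => le_rfl, (monom_zero X).symm⟩
    | mul x y _ _ hx hy =>
      obtain ⟨m, hm, rfl⟩ := hx
      obtain ⟨m', hm', rfl⟩ := hy
      exact ⟨m + m', fun i hi => add_nonneg (hm i hi) (hm' i hi), (monom_add hX0 _ _).symm⟩
  have hy2 := Submodule.span_mono (R := k) hcl hy
  clear hy
  have key : ∃ f : Laurent k n, coordHom k hX0 f = y ∧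
      ∀ m ∈ f.coeff.support, ∀ i, P i = false → 0 ≤ m i := by
    induction hy2 using Submodule.span_induction with
    | mem x h =>
      obtain ⟨m, hm, rfl⟩ := h
      refine ⟨AddMonoidAlgebra.single m 1, by rw [coordHom_single, map_one, one_mul], ?_⟩
      intro m' hm'
      rw [AddMonoidAlgebra.coeff_single] at hm'
      have := Finsupp.support_single_subset hm'
      rw [Finset.mem_singleton] at this
      rw [this]; exact hm
    | zero => exact ⟨0, by simp, by simp⟩
    | add x y _ _ hx hy =>
      obtain ⟨f, rfl, hf⟩ := hx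
      obtain ⟨g, rfl, hg⟩ := hy
      refine ⟨f + g, map_add _ _ _, ?_⟩
      intro m hm
      rw [AddMonoidAlgebra.coeff_add] at hm
      rcases Finset.mem_union.1 (Finsupp.support_add hm) with h | h
      · exact hf m h
      · exact hg m h
    | smul c x _ hx =>
      obtain ⟨f, rfl, hf⟩ := hx
      refine ⟨c • f, map_smul _ _ _, ?_⟩
      intro m hm
      rw [AddMonoidAlgebra.coeff_smul] at hm
      exact hf m (Finsupp.support_smul hm)
  obtain ⟨f, hf, hf2⟩ := key
  exact ⟨f.coeff, by rw [← coordHom_apply hX0, hf], hf2⟩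

theorem aeval_mem (X : Fin n → L) (P : Fin n → Bool) (r : MvPolynomial (Fin n) k) :
    MvPolynomial.aeval X r ∈ chartAlg k X P := by
  have h1 : MvPolynomial.aeval X r ∈ Algebra.adjoin k (Set.range X) := by
    rw [Algebra.adjoin_range_eq_range_aeval]
    exact ⟨r, rfl⟩
  exact Algebra.adjoin_mono Set.subset_union_left h1

theorem isFractionRing_chart {X : Fin n → L} (hX : IsTorusCoord k X) (P : Fin n → Bool) :
    IsFractionRing (chartAlg k X P) L := by
  refine IsFractionRing.of_field _ _ fun z => ?_
  have hz : z ∈ IntermediateField.adjoin k (Set.range X) := by rw [hX.2]; trivial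
  obtain ⟨r, s, hrs⟩ := (IntermediateField.mem_adjoin_range_iff k X z).1 hz
  exact ⟨⟨_, aeval_mem X P r⟩, ⟨_, aeval_mem X P s⟩, hrs⟩

/-- each function has a value at the point -/
theorem exists_value {X : Fin n → L} (hX : IsTorusCoord k X) (P : Fin n → Bool)
    (b : chartAlg k X P) : ∃ c : k, b - algebraMap k (chartAlg k X P) c ∈ chartPt k X P := by
  have hgen : ∀ i, chartParam k X P i ∈ chartPt k X P := fun i => Ideal.subset_span ⟨i, rfl⟩
  obtain ⟨y, hy⟩ := b
  unfold chartAlg at hy
  induction hy using Algebra.adjoin_induction with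
  | mem x hx =>
    rcases hx with ⟨i, rfl⟩ | ⟨i, hi, rfl⟩
    · refine ⟨((eps P i : ℤ) : k), ?_⟩
      rw [map_intCast]
      exact hgen i
    · refine ⟨1, ?_⟩
      rw [map_one]
      have h1 := (chartPt k X P).mul_mem_left (-(⟨(X i)⁻¹, X_inv_mem X P hi⟩ : chartAlg k X P))
        (hgen i)
      convert h1 using 1
      apply Subtype.ext
      have h0 : X i ≠ 0 := hX.1.ne_zero i
      have h2 : eps P i = 1 := by unfold eps; rw [if_pos hi]
      unfold chartParam
      rw [h2]
      change (X i)⁻¹ - 1 = -(X i)⁻¹ * (X i - ((1 : ℤ) : L))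
      rw [Int.cast_one, mul_sub, neg_mul, inv_mul_cancel₀ h0]
      ring
  | algebraMap r =>
    refine ⟨r, ?_⟩
    have h1 : (⟨algebraMap k L r, (chartAlg k X P).algebraMap_mem r⟩ : chartAlg k X P) -
        algebraMap k (chartAlg k X P) r = 0 := sub_self _
    exact h1 ▸ zero_mem _
  | add x y hx hy h1 h2 =>
    obtain ⟨c, hc⟩ := h1
    obtain ⟨d, hd⟩ := h2
    refine ⟨c + d, ?_⟩
    have h3 := add_mem hc hd
    convert h3 using 1
    rw [map_add]
    apply Subtype.ext
    change x + y - (algebraMap k L c + algebraMap k L d) =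
      (x - algebraMap k L c) + (y - algebraMap k L d)
    ring
  | mul x y hx hy h1 h2 =>
    obtain ⟨c, hc⟩ := h1
    obtain ⟨d, hd⟩ := h2
    refine ⟨c * d, ?_⟩
    have h3 := add_mem ((chartPt k X P).mul_mem_right (⟨y, hy⟩ : chartAlg k X P) hc)
      ((chartPt k X P).mul_mem_left (algebraMap k (chartAlg k X P) c) hd)
    convert h3 using 1
    rw [map_mul]
    apply Subtype.ext
    change x * y - (algebraMap k L c * algebraMap k L d) =
      (x - algebraMap k L c) * y + algebraMap k L c * (y - algebraMap k L d)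
    ring

/-- elements of the chart are quotients of polynomials with a denominator not vanishing at the
point -/
theorem exists_fraction {X : Fin n → L} (hX0 : ∀ i, X i ≠ 0) {P : Fin n → Bool} {y : L}
    (hy : y ∈ chartAlg k X P) : ∃ r s : MvPolynomial (Fin n) k,
      MvPolynomial.eval (fun i => ((eps P i : ℤ) : k)) s ≠ 0 ∧
      y * MvPolynomial.aeval X s = MvPolynomial.aeval X r := by
  unfold chartAlg at hy
  induction hy using Algebra.adjoin_induction with
  | mem x hx =>
    rcases hx with ⟨i, rfl⟩ | ⟨i, hi, rfl⟩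
    · exact ⟨MvPolynomial.X i, 1, by simp, by simp⟩
    · refine ⟨1, MvPolynomial.X i, ?_, ?_⟩
      · rw [MvPolynomial.eval_X]
        unfold eps
        rw [if_pos hi]
        simp
      · rw [MvPolynomial.aeval_X, map_one, inv_mul_cancel₀ (hX0 i)]
  | algebraMap r => exact ⟨MvPolynomial.C r, 1, by simp, by simp⟩
  | add x y hx hy h1 h2 =>
    obtain ⟨r, s, hs, hrs⟩ := h1
    obtain ⟨r', s', hs', hrs'⟩ := h2
    refine ⟨r * s' + r' * s, s * s', ?_, ?_⟩
    · rw [map_mul]; exact mul_ne_zero hs hs'
    · rw [map_mul, map_add, map_mul, map_mul, ← hrs, ← hrs']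
      ring
  | mul x y hx hy h1 h2 =>
    obtain ⟨r, s, hs, hrs⟩ := h1
    obtain ⟨r', s', hs', hrs'⟩ := h2
    refine ⟨r * r', s * s', ?_, ?_⟩
    · rw [map_mul]; exact mul_ne_zero hs hs'
    · rw [map_mul, map_mul, ← hrs, ← hrs']
      ring

/-- elements of the point are quotients with numerator vanishing at the point -/
theorem exists_fraction_pt {X : Fin n → L} (hX0 : ∀ i, X i ≠ 0) {P : Fin n → Bool}
    {y : chartAlg k X P} (hy : y ∈ chartPt k X P) : ∃ r s : MvPolynomial (Fin n) k,
      MvPolynomial.eval (fun i => ((eps P i : ℤ) : k)) s ≠ 0 ∧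
      MvPolynomial.eval (fun i => ((eps P i : ℤ) : k)) r = 0 ∧
      (y : L) * MvPolynomial.aeval X s = MvPolynomial.aeval X r := by
  unfold chartPt at hy
  induction hy using Submodule.span_induction with
  | mem x h =>
    obtain ⟨i, rfl⟩ := h
    refine ⟨MvPolynomial.X i - MvPolynomial.C ((eps P i : ℤ) : k), 1, by simp, by simp, ?_⟩
    rw [map_one, mul_one, map_sub, MvPolynomial.aeval_X, MvPolynomial.aeval_C]
    change X i - ((eps P i : ℤ) : L) = _
    rw [map_intCast]
  | zero => exact ⟨0, 1, by simp, by simp, by simp⟩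
  | add x y _ _ h1 h2 =>
    obtain ⟨r, s, hs, hr, hrs⟩ := h1
    obtain ⟨r', s', hs', hr', hrs'⟩ := h2
    refine ⟨r * s' + r' * s, s * s', ?_, ?_, ?_⟩
    · rw [map_mul]; exact mul_ne_zero hs hs'
    · rw [map_add, map_mul, map_mul, hr, hr', zero_mul, zero_mul, add_zero]
    · rw [map_mul, map_add, map_mul, map_mul, ← hrs, ← hrs']
      change ((x : L) + (y : L)) * _ = _
      ring
  | smul c x _ h =>
    obtain ⟨r, s, hs, hr, hrs⟩ := h
    obtain ⟨r', s', hs', hrs'⟩ := exists_fraction hX0 c.2
    refine ⟨r' * r, s' * s, ?_, ?_, ?_⟩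
    · rw [map_mul]; exact mul_ne_zero hs' hs
    · rw [map_mul, hr, mul_zero]
    · rw [map_mul, map_mul, ← hrs, ← hrs']
      change ((c : L) * (x : L)) * _ = _
      ring

theorem chartPt_ne_top {X : Fin n → L} (hX : IsTorusCoord k X) (P : Fin n → Bool) :
    chartPt k X P ≠ ⊤ := by
  intro htop
  have h1 : (1 : chartAlg k X P) ∈ chartPt k X P := by rw [htop]; trivial
  obtain ⟨r, s, hs, hr, hrs⟩ := exists_fraction_pt (fun i => hX.1.ne_zero i) h1
  have h2 : MvPolynomial.aeval X s = MvPolynomial.aeval X r := by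
    rw [← hrs]
    change _ = (1 : L) * _
    rw [one_mul]
  have h3 : s = r := hX.1 h2
  rw [h3] at hs
  exact hs hr

theorem isMaximal_chartPt {X : Fin n → L} (hX : IsTorusCoord k X) (P : Fin n → Bool) :
    (chartPt k X P).IsMaximal := by
  rw [Ideal.isMaximal_iff]
  refine ⟨fun h => chartPt_ne_top hX P ((Ideal.eq_top_iff_one _).2 h), fun J x hJ hx hxJ => ?_⟩
  obtain ⟨c, hc⟩ := exists_value hX P x
  have hc0 : c ≠ 0 := by
    rintro rfl
    rw [map_zero, sub_zero] at hc
    exact hx hc
  have h1 : algebraMap k (chartAlg k X P) c ∈ J := by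
    have h2 := J.sub_mem hxJ (hJ hc)
    rwa [sub_sub_cancel] at h2
  have h3 := J.mul_mem_left (algebraMap k (chartAlg k X P) c⁻¹) h1
  rwa [← map_mul, inv_mul_cancel₀ hc0, map_one] at h3

theorem isParam_chart (X : Fin n → L) (P : Fin n → Bool) (h : chartPt k X P ≠ ⊤) :
    IsParam (chartAlg k X P) (chartPt k X P) (chartParam k X P) where
  mem i := Ideal.subset_span ⟨i, rfl⟩
  gen b hb := ⟨1, fun h1 => h ((Ideal.eq_top_iff_one _).2 h1), by rwa [one_mul]⟩

end Pool.Agent.H50.TQ
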