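import Mathlib
import Pool.Agent.H50.TQ.Chart

/-!
# Systems of parameters in the chart

PROOFS. `isParam_of_matrix`: `t i ∈ chartPt` clearly. `M.adjugate * M = M.det • 1`, so
`M.det * chartParam j = ∑ i, (M.adjugate j i) * t i` is in the ideal `J` generated by the `t i`. So
`M.det * b ∈ J` for `b ∈ chartPt` (`Submodule.span_induction`), and `s = M.det ∉ chartPt`.
`exists_expansion`: the set of the `m` (supported on `P`) for which the expansion exists is closed
under addition: `X ^ (m + m') - 1 = (X ^ m - 1) X ^ m' + (X ^ m' - 1)`, so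
`h = h_m * X ^ m' + h_{m'}`, and `h i - (m i + m' i)` is in `chartPt` because
`X ^ m' - 1 ∈ chartPt` (it is the expansion of `m'`) and `h_m i ≡ m i`; it contains
`± Pi.single j 1` for `P j = true`: `X j - 1 = chartParam j` (`h = Pi.single j 1`), and
`(X j)⁻¹ - 1 = - (X j)⁻¹ * (X j - 1)` (`h = Pi.single j (-(X j)⁻¹)`,
`-(X j)⁻¹ + 1 = (X j)⁻¹ * (X j - 1) ∈ chartPt`). Write `m = ∑ j, m j • Pi.single j 1` and use
induction on the finite sum and on the integer `m j` (`Int.induction_on`). `monom_mem` gives that the
monomials supported on `P` are in the chart.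
-/

open scoped BigOperators Matrix

namespace Pool.Agent.H50.TQ

open Pool.Agent.H26 Pool.H32

universe u

variable {k L : Type u} [Field k] [Field L] [Algebra k L] {n : ℕ}

/-- a criterion for a system of parameters -/
theorem isParam_of_matrix (X : Fin n → L) (P : Fin n → Bool)
    (t : Fin n → chartAlg k X P) (M : Matrix (Fin n) (Fin n) (chartAlg k X P))
    (ht : ∀ i, t i = ∑ j, M i j * chartParam k X P j) (hM : M.det ∉ chartPt k X P) :
    IsParam (chartAlg k X P) (chartPt k X P) t := by
  constructor
  · intro i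
    rw [ht i]
    exact Ideal.sum_mem _ fun j _ => Ideal.mul_mem_left _ _ (Ideal.subset_span ⟨j, rfl⟩)
  · intro b hb
    refine ⟨M.det, hM, ?_⟩
    have key : ∀ j, M.det * chartParam k X P j ∈ Ideal.span (Set.range t) := by
      intro j
      have ht' : t = M.mulVec (chartParam k X P) := by
        funext i
        rw [ht i]
        rfl
      have h1 : M.adjugate.mulVec t = M.det • chartParam k X P := by
        rw [ht', Matrix.mulVec_mulVec, Matrix.adjugate_mul, Matrix.smul_mulVec,
          Matrix.one_mulVec]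
      have h2 : M.det * chartParam k X P j = ∑ i, M.adjugate j i * t i := (congrFun h1 j).symm
      rw [h2]
      exact Ideal.sum_mem _ fun i _ => Ideal.mul_mem_left _ _ (Ideal.subset_span ⟨i, rfl⟩)
    unfold chartPt at hb
    refine Submodule.span_induction (p := fun b _ => M.det * b ∈ Ideal.span (Set.range t))
      ?_ ?_ ?_ ?_ hb
    · rintro _ ⟨j, rfl⟩
      exact key j
    · rw [mul_zero]
      exact Ideal.zero_mem _
    · intro x y _ _ hx hy
      rw [mul_add]
      exact Ideal.add_mem _ hx hy
    · intro a x _ hx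
      have h3 : M.det * a • x = a * (M.det * x) := by
        rw [smul_eq_mul]
        ring
      rw [h3]
      exact Ideal.mul_mem_left _ _ hx

/-- `m` is supported on `P` and `X ^ m - 1` has an expansion -/
def Exq (k : Type u) [Field k] {L : Type u} [Field L] [Algebra k L] {n : ℕ} (X : Fin n → L)
    (P : Fin n → Bool) (m : Fin n → ℤ) : Prop :=
  (∀ i, P i = false → m i = 0) ∧ ∃ h : Fin n → chartAlg k X P, (∀ i, P i = false → h i = 0) ∧
      (monom X m - 1 = ∑ i, (h i : L) * (chartParam k X P i : L)) ∧
      ∀ i, h i - (m i : chartAlg k X P) ∈ chartPt k X P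

theorem Exq.sub_one {X : Fin n → L} {P : Fin n → Bool} {m : Fin n → ℤ} (h : Exq k X P m)
    (hm : monom X m ∈ chartAlg k X P) :
    (⟨monom X m, hm⟩ : chartAlg k X P) - 1 ∈ chartPt k X P := by
  obtain ⟨-, h, -, h2, -⟩ := h
  have h3 : (⟨monom X m, hm⟩ : chartAlg k X P) - 1 = ∑ i, h i * chartParam k X P i := by
    apply Subtype.ext
    push_cast
    exact h2
  rw [h3]
  exact Ideal.sum_mem _ fun j _ => Ideal.mul_mem_left _ _ (Ideal.subset_span ⟨j, rfl⟩)

theorem Exq.add {X : Fin n → L} (hX0 : ∀ i, X i ≠ 0) {P : Fin n → Bool} {m m' : Fin n → ℤ}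
    (h : Exq k X P m) (h' : Exq k X P m') : Exq k X P (m + m') := by
  have hmem : monom X m' ∈ chartAlg k X P := monom_mem fun i hi => (h'.1 i hi).ge
  have hs := h'.sub_one hmem
  obtain ⟨a0, h, a1, a2, a3⟩ := h
  obtain ⟨b0, h', b1, b2, b3⟩ := h'
  refine ⟨fun i hi => ?_, fun i => h i * ⟨monom X m', hmem⟩ + h' i, fun i hi => ?_, ?_, fun i => ?_⟩
  · rw [Pi.add_apply, a0 i hi, b0 i hi, add_zero]
  · show h i * ⟨monom X m', hmem⟩ + h' i = 0
    rw [a1 i hi, b1 i hi, zero_mul, add_zero]
  · rw [monom_add hX0]
    have e1 : monom X m = 1 + ∑ i, (h i : L) * (chartParam k X P i : L) := by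
      rw [← a2]; ring
    have e2 : monom X m * monom X m' - 1 =
        (∑ i, (h i : L) * (chartParam k X P i : L)) * monom X m' + (monom X m' - 1) := by
      rw [e1]; ring
    rw [e2, b2, Finset.sum_mul, ← Finset.sum_add_distrib]
    refine Finset.sum_congr rfl fun i _ => ?_
    push_cast
    ring
  · show h i * ⟨monom X m', hmem⟩ + h' i - ((m + m') i : chartAlg k X P) ∈ chartPt k X P
    have e : h i * ⟨monom X m', hmem⟩ + h' i - ((m + m') i : chartAlg k X P) =
        h i * ((⟨monom X m', hmem⟩ : chartAlg k X P) - 1) + (h i - (m i : chartAlg k X P)) +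
          (h' i - (m' i : chartAlg k X P)) := by
      rw [Pi.add_apply]
      push_cast
      ring
    rw [e]
    exact Ideal.add_mem _ (Ideal.add_mem _ (Ideal.mul_mem_left _ _ hs) (a3 i)) (b3 i)

theorem Exq.zero (X : Fin n → L) (P : Fin n → Bool) : Exq k X P 0 := by
  refine ⟨fun i _ => rfl, fun _ => 0, fun _ _ => rfl, ?_, fun i => ?_⟩
  · rw [monom_zero]
    simp
  · simp

theorem monom_piSingle (X : Fin n → L) (j : Fin n) (z : ℤ) :
    monom X (Pi.single j z) = X j ^ z := by
  unfold monom
  rw [Finset.prod_eq_single j]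
  · rw [Pi.single_eq_same]
  · intro i _ hi
    rw [Pi.single_eq_of_ne hi, zpow_zero]
  · intro h
    exact absurd (Finset.mem_univ j) h

theorem Exq.one (X : Fin n → L) {P : Fin n → Bool} {j : Fin n} (hj : P j = true) :
    Exq k X P (Pi.single j 1) := by
  classical
  have hij : ∀ i, P i = false → i ≠ j := by
    rintro i hi rfl
    rw [hj] at hi
    exact absurd hi (by simp)
  refine ⟨fun i hi => Pi.single_eq_of_ne (hij i hi) _, Pi.single j 1, fun i hi =>
    Pi.single_eq_of_ne (hij i hi) _, ?_, fun i => ?_⟩
  · rw [monom_piSingle, zpow_one, Finset.sum_eq_single j]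
    · rw [Pi.single_eq_same]
      unfold chartParam eps
      rw [if_pos hj]
      push_cast
      ring
    · intro i _ hi
      rw [Pi.single_eq_of_ne hi]
      simp
    · intro h
      exact absurd (Finset.mem_univ j) h
  · by_cases hi : i = j
    · subst hi
      rw [Pi.single_eq_same, Pi.single_eq_same]
      simp
    · rw [Pi.single_eq_of_ne hi, Pi.single_eq_of_ne hi]
      simp

theorem Exq.neg_one {X : Fin n → L} (hX0 : ∀ i, X i ≠ 0) {P : Fin n → Bool} {j : Fin n}
    (hj : P j = true) : Exq k X P (Pi.single j (-1)) := by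
  classical
  have hij : ∀ i, P i = false → i ≠ j := by
    rintro i hi rfl
    rw [hj] at hi
    exact absurd hi (by simp)
  have hmem : (X j)⁻¹ ∈ chartAlg k X P := Algebra.subset_adjoin (Or.inr ⟨j, hj, rfl⟩)
  have hp : (chartParam k X P j : L) = X j - 1 := by
    unfold chartParam eps
    rw [if_pos hj]
    push_cast
    rfl
  refine ⟨fun i hi => Pi.single_eq_of_ne (hij i hi) _, Pi.single j (-⟨(X j)⁻¹, hmem⟩), fun i hi =>
    Pi.single_eq_of_ne (hij i hi) _, ?_, fun i => ?_⟩
  · rw [monom_piSingle, zpow_neg_one, Finset.sum_eq_single j]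
    · rw [Pi.single_eq_same, hp]
      push_cast
      have := hX0 j
      field_simp
      ring
    · intro i _ hi
      rw [Pi.single_eq_of_ne hi]
      simp
    · intro h
      exact absurd (Finset.mem_univ j) h
  · by_cases hi : i = j
    · subst hi
      rw [Pi.single_eq_same, Pi.single_eq_same]
      have e : -(⟨(X i)⁻¹, hmem⟩ : chartAlg k X P) - ((-1 : ℤ) : chartAlg k X P) =
          ⟨(X i)⁻¹, hmem⟩ * chartParam k X P i := by
        apply Subtype.ext
        push_cast
        rw [hp]
        have := hX0 i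
        field_simp
        ring
      rw [e]
      exact Ideal.mul_mem_left _ _ (Ideal.subset_span ⟨i, rfl⟩)
    · rw [Pi.single_eq_of_ne hi, Pi.single_eq_of_ne hi]
      simp

theorem Exq.single {X : Fin n → L} (hX0 : ∀ i, X i ≠ 0) {P : Fin n → Bool} {j : Fin n}
    (hj : P j = true) (z : ℤ) : Exq k X P (Pi.single j z) := by
  induction z using Int.induction_on with
  | zero =>
    rw [Pi.single_zero]
    exact Exq.zero X P
  | succ i ih =>
    rw [Pi.single_add]
    exact ih.add hX0 (Exq.one X hj)
  | pred i ih =>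
    rw [sub_eq_add_neg, Pi.single_add]
    exact ih.add hX0 (Exq.neg_one hX0 hj)

/-- the expansion of `X ^ m - 1` at the point, for `m` supported on the set of the `i` with
`P i = true` -/
theorem exists_expansion {X : Fin n → L} (hX0 : ∀ i, X i ≠ 0) (P : Fin n → Bool)
    (m : Fin n → ℤ) (hm : ∀ i, P i = false → m i = 0) :
    ∃ h : Fin n → chartAlg k X P, (∀ i, P i = false → h i = 0) ∧
      (monom X m - 1 = ∑ i, (h i : L) * (chartParam k X P i : L)) ∧
      ∀ i, h i - (m i : chartAlg k X P) ∈ chartPt k X P := by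
  classical
  have key : ∀ s : Finset (Fin n), Exq k X P (∑ j ∈ s, Pi.single j (m j)) := by
    intro s
    induction s using Finset.induction_on with
    | empty =>
      rw [Finset.sum_empty]
      exact Exq.zero X P
    | insert a s ha ih =>
      rw [Finset.sum_insert ha]
      cases hP : P a with
      | true => exact (Exq.single hX0 hP _).add hX0 ih
      | false =>
        rw [hm a hP, Pi.single_zero, zero_add]
        exact ih
  have h1 := key Finset.univ
  have h2 : ∑ j, Pi.single j (m j) = m := by
    funext i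
    rw [Finset.sum_apply, Finset.sum_eq_single i]
    · rw [Pi.single_eq_same]
    · intro j _ hj
      rw [Pi.single_eq_of_ne hj.symm]
    · intro h
      exact absurd (Finset.mem_univ i) h
  rw [h2] at h1
  exact h1.2

end Pool.Agent.H50.TQ
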