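import Mathlib
import Pool.Agent.H50.TQ.Base
import Pool.Agent.H50.TQ.Base3

/-!
# The orbit of a ray

PROOFS. Let `v` be the prime divisor of the ray `ρ` (`T.ray`), `v_s` the valuation with
`v_s.ord y = v.ord ((σ ^ s) y)` (`exists_comp`, for `σ ^ s`); it is a prime divisor through the point
(`primeDivisor_comp`). By `Act.pow`, `(σ ^ s) (x i) = const • monom x ((A ^ s) i)`
(`m = Pi.single i 1`), so `v_s.val (x i) = (A ^ s) i ⬝ᵥ ρ = (A ^ s *ᵥ ρ) i`, and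
`v_s.val (monom x m) = m ⬝ᵥ (A ^ s *ᵥ ρ)`.
`nonneg_orbit`: `monom x m ∈ Y.A` for `m ∈ S` (`hT.coordinate_ring`), and `v_s ≥ 0` on `Y.A`.
`average_eq`: `T.u_eq v_s` gives `γ_s ∈ {0} ∪ Γ` with `∑ i, u i * (A ^ s *ᵥ ρ) i = 1 - γ_s`; put
`y = ∑ s < h, γ_s`. The condition that some monomial has nonzero value: `v.val (monom x m) ≠ 0` for some
`m`, i.e. `ρ ≠ 0`; `A ^ s *ᵥ ρ ≠ 0` because `A` is invertible: `σ` has finite order `N > 0` (the group
`L ≃ₐ[K] L` is finite by `hq.finiteDimensional`; `pow_card_eq_one'` or `orderOf_pos`), so `A ^ N = 1`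
(`Act.matrix_pow_eq_one`), and `A ^ s *ᵥ ρ = 0` would give `ρ = A ^ (N s) *ᵥ ρ = 0`.
-/

open scoped BigOperators Matrix
open KaehlerDifferential

namespace Pool.Agent.H50.TQ

open Pool.Agent.H26

universe u

variable {k K L : Type u} [Field k] [Field K] [Field L] [Algebra k K] [Algebra k L]
  [Algebra K L] [IsScalarTower k K L] {n : ℕ}

/-- value of a monomial -/
theorem val_monom_dot (v : DVal k L) {x : Fin n → L} (hx0 : ∀ i, x i ≠ 0) {ρ : Fin n → ℤ}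
    (hv : ∀ i, v.val (x i) = ρ i) (m : Fin n → ℤ) : v.val (monom x m) = m ⬝ᵥ ρ := by
  unfold monom
  rw [v.val_prod _ _ fun i _ => zpow_ne_zero _ (hx0 i)]
  unfold dotProduct
  exact Finset.sum_congr rfl fun i _ => by rw [v.val_zpow (hx0 i), hv i]

/-- value of a monomial for the translated valuation -/
theorem val_comp_monom {σ : L ≃ₐ[K] L} {x : Fin n → L} (hx0 : ∀ i, x i ≠ 0)
    {A : Matrix (Fin n) (Fin n) ℤ} {c : (Fin n → ℤ) → k} (hact : Act σ x A c) {v v' : DVal k L}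
    {ρ : Fin n → ℤ} (hv : ∀ i, v.val (x i) = ρ i) (s : ℕ)
    (h : ∀ y, v'.ord y = v.ord ((σ ^ s) y)) (m : Fin n → ℤ) :
    v'.val (monom x m) = m ⬝ᵥ (A ^ s *ᵥ ρ) := by
  have hp := hact.pow s
  have h1 : v'.val (monom x m) = v.val ((σ ^ s) (monom x m)) := by
    unfold DVal.val
    rw [h]
  have h2 : algebraMap k L (∏ r ∈ Finset.range s, c (m ᵥ* A ^ r)) ≠ 0 := by
    rw [Ne, map_eq_zero]
    exact hp.c_ne m
  rw [h1, hp.spec m, v.val_mul h2 (monom_ne_zero hx0 _), v.val_algebraMap, zero_add,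
    val_monom_dot v hx0 hv, Matrix.dotProduct_mulVec]

theorem val_comp_coord {σ : L ≃ₐ[K] L} {x : Fin n → L} (hx0 : ∀ i, x i ≠ 0)
    {A : Matrix (Fin n) (Fin n) ℤ} {c : (Fin n → ℤ) → k} (hact : Act σ x A c) {v v' : DVal k L}
    {ρ : Fin n → ℤ} (hv : ∀ i, v.val (x i) = ρ i) (s : ℕ)
    (h : ∀ y, v'.ord y = v.ord ((σ ^ s) y)) (i : Fin n) :
    v'.val (x i) = (A ^ s *ᵥ ρ) i := by
  have h1 := val_comp_monom hx0 hact hv s h (Pi.single i 1)
  have h2 : monom x (Pi.single i (1 : ℤ)) = x i := by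
    unfold monom
    rw [Finset.prod_eq_single i]
    · rw [Pi.single_eq_same, zpow_one]
    · intro j _ hj
      rw [Pi.single_eq_of_ne hj, zpow_zero]
    · intro hi
      exact absurd (Finset.mem_univ i) hi
  rw [h2, single_one_dotProduct] at h1
  exact h1

/-- averages of the linear function over the orbit of a ray -/
theorem average_eq {G : LogGerm k K n} {Y : LogGerm k L n}
    (hq : IsFiniteQuotient G Y) {x : Fin n → L} (hx : IsTorusCoord k x)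
    {S : AddSubmonoid (Fin n → ℤ)} {Γ : Set ℝ} (hΓ : Γ ⊆ Set.Icc 0 1) (T : BaseData G Y x S Γ)
    {σ : L ≃ₐ[K] L} {A : Matrix (Fin n) (Fin n) ℤ} {c : (Fin n → ℤ) → k} (hact : Act σ x A c)
    (ρ : Fin n → ℤ) (hρ : ρ ∈ T.R) (h : ℕ) :
    ∃ y ∈ AddSubmonoid.closure Γ, y ≤ h ∧
      ∑ s ∈ Finset.range h, ∑ i, T.u i * ((A ^ s *ᵥ ρ) i : ℝ) = h - y := by
  have hx0 : ∀ i, x i ≠ 0 := fun i => hx.1.ne_zero i
  obtain ⟨v, hvp, ⟨m, hm⟩, hv⟩ := T.ray ρ hρ
  have hfd := hq.finiteDimensional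
  obtain ⟨N, hN0, hN⟩ : ∃ N : ℕ, 0 < N ∧ σ ^ N = 1 :=
    ⟨orderOf σ, orderOf_pos σ, pow_orderOf_eq_one σ⟩
  have hAN : A ^ N = 1 := hact.matrix_pow_eq_one hx hN
  have step : ∀ s : ℕ, ∃ γ : ℝ, (γ = 0 ∨ γ ∈ Γ) ∧ ∑ i, T.u i * ((A ^ s *ᵥ ρ) i : ℝ) = 1 - γ := by
    intro s
    obtain ⟨v', hv'⟩ := exists_comp (K := K) (σ ^ s) v
    have hp' := primeDivisor_comp hq (σ ^ s) hv' hvp
    have hne : ∃ m', v'.val (monom x m') ≠ 0 := by
      refine ⟨m ᵥ* A ^ (N * s - s), ?_⟩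
      rw [val_comp_monom hx0 hact hv s hv', Matrix.dotProduct_mulVec, Matrix.vecMul_vecMul,
        ← pow_add, Nat.sub_add_cancel (Nat.le_mul_of_pos_left s hN0), pow_mul, hAN, one_pow,
        Matrix.vecMul_one]
      rw [val_monom_dot v hx0 hv] at hm
      exact hm
    obtain ⟨γ, hγ, e⟩ := T.u_eq v' hp' hne
    refine ⟨γ, hγ, ?_⟩
    rw [← e]
    exact Finset.sum_congr rfl fun i _ => by rw [val_comp_coord hx0 hact hv s hv' i]
  induction h with
  | zero => exact ⟨0, AddSubmonoid.zero_mem _, by simp, by simp⟩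
  | succ h ih =>
    obtain ⟨y, hy, hyh, e⟩ := ih
    obtain ⟨γ, hγ, e'⟩ := step h
    refine ⟨y + γ, AddSubmonoid.add_mem _ hy ?_, ?_, ?_⟩
    · rcases hγ with rfl | hγ
      · exact AddSubmonoid.zero_mem _
      · exact AddSubmonoid.subset_closure hγ
    · have : γ ≤ 1 := by
        rcases hγ with rfl | hγ
        · exact zero_le_one
        · exact (hΓ hγ).2
      push_cast
      linarith
    · rw [Finset.sum_range_succ, e, e']
      push_cast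
      ring

/-- the rays stay nonnegative on the monoid under the action -/
theorem nonneg_orbit {G : LogGerm k K n} {Y : LogGerm k L n}
    (hq : IsFiniteQuotient G Y) {x : Fin n → L} (hx : IsTorusCoord k x)
    {S : AddSubmonoid (Fin n → ℤ)} {Γ : Set ℝ} (hT : Y.IsToric x S) (T : BaseData G Y x S Γ)
    {σ : L ≃ₐ[K] L} {A : Matrix (Fin n) (Fin n) ℤ} {c : (Fin n → ℤ) → k} (hact : Act σ x A c)
    (ρ : Fin n → ℤ) (hρ : ρ ∈ T.R) (s : ℕ) (m : Fin n → ℤ) (hm : m ∈ S) :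
    0 ≤ m ⬝ᵥ (A ^ s *ᵥ ρ) := by
  have hx0 : ∀ i, x i ≠ 0 := fun i => hx.1.ne_zero i
  obtain ⟨v, hvp, -, hv⟩ := T.ray ρ hρ
  obtain ⟨v', hv'⟩ := exists_comp (K := K) (σ ^ s) v
  obtain ⟨P, hP, -, -⟩ := primeDivisor_comp hq (σ ^ s) hv' hvp
  have hmem : monom x m ∈ Y.A := by
    rw [hT.coordinate_ring]
    exact Algebra.subset_adjoin ⟨m, hm, rfl⟩
  have h1 := hP.1 ⟨monom x m, hmem⟩
  rcases v'.nonneg_ord_iff.1 h1 with h2 | h2
  · exact absurd h2 (monom_ne_zero hx0 m)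
  · rw [← val_comp_monom hx0 hact hv s hv' m]
    exact h2

end Pool.Agent.H50.TQ
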