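import Mathlib
import Pool.Agent.H32.Ram2

/-!
# Extension of a divisor to the cover, with the order of the generator of the inertia group

PROOF. Copy the proof of `exists_ramified` in `Pool.Agent.H32.Ram2` (its lemmas are public). The only
new statement is `σ ^ e = 1`: `σ` is an element `g` of the inertia group, which has `e` elements
(`hcard`), so `g ^ e = 1` (`pow_card_eq_one'`).
-/

open scoped BigOperators Matrix nonZeroDivisors Pointwise
open IsDedekindDomain WithZero Pool.Agent.H26

namespace Pool.Agent.H50.TQ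

open Pool.Agent.H26 Pool.H32

universe u

variable {k K L : Type u} [Field k] [Field K] [Field L] [Algebra k K] [Algebra k L]
  [Algebra K L] [IsScalarTower k K L] {n : ℕ}

/-- `exists_ramified` of `Pool.Agent.H32.Ram2`, with the order of the generator `σ` of the inertia
group. -/
theorem exists_ramified_order [IsAlgClosed k] [CharZero k] [FiniteDimensional K L] [IsGalois K L]
    (E : DVal k K) :
    ∃ (F : DVal k L) (e : ℕ) (σ : L ≃ₐ[K] L) (ζ : k) (r : ℕ) (T : Fin r → L), 0 < e ∧
      (∀ f : K, f ≠ 0 → F.val (algebraMap K L f) = e * E.val f) ∧ IsPrimitiveRoot ζ e ∧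
      σ ^ e = 1 ∧
      (∀ x : L, x ≠ 0 → F.ord x < F.ord (σ x - algebraMap k L (ζ ^ (F.val x)) * x)) ∧
      ∀ x : L, 0 ≤ F.ord x → ∃ a b : Fin r → K, (∀ i, 0 ≤ E.ord (a i)) ∧ (∀ i, 0 ≤ E.ord (b i)) ∧
        F.ord (∑ i, algebraMap K L (b i) * T i) = 0 ∧
        x * (∑ i, algebraMap K L (b i) * T i) = ∑ i, algebraMap K L (a i) * T i := by
  classical
  have : CharZero K := charZero_of_injective_algebraMap (algebraMap k K).injective
  let O := vsub E
  let S := integralClosure O L
  have hFR : IsFractionRing S L := integralClosure.isFractionRing_of_finite_extension K L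
  have hDD : IsDedekindDomain S := integralClosure.isDedekindDomain O K L
  have hfin : Module.Finite O S := IsIntegralClosure.finite O K L S
  have hinjOL : Function.Injective (algebraMap O L) := by
    rw [IsScalarTower.algebraMap_eq O K L]
    exact (algebraMap K L).injective.comp (IsFractionRing.injective O K)
  have hinjOS : Function.Injective (algebraMap O S) := by
    intro x y hxy
    apply hinjOL
    rw [IsScalarTower.algebraMap_apply O S L, hxy, ← IsScalarTower.algebraMap_apply O S L]
  have : Algebra.IsIntegral O S := IsIntegralClosure.isIntegral_algebra O L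
  obtain ⟨Q, hQmax, hQ⟩ := Ideal.exists_ideal_over_maximal_of_isIntegral (S := S)
    (IsLocalRing.maximalIdeal O) (by
      rw [(RingHom.injective_iff_ker_eq_bot _).1 hinjOS]; exact bot_le)
  obtain ⟨p, hp1, hpirr, hpass⟩ := vsub_exists_irreducible E
  have hpmem : p ∈ IsLocalRing.maximalIdeal O := by
    rw [vsub_mem_maximalIdeal, hp1]; exact zero_lt_one
  have hpQ : algebraMap O S p ∈ Q := by
    rw [← hQ] at hpmem; exact hpmem
  have hp0 : p ≠ 0 := hpirr.ne_zero
  have hpS0 : algebraMap O S p ≠ 0 := fun h => hp0 (hinjOS (h.trans (map_zero _).symm))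
  let P : HeightOneSpectrum S := ⟨Q, hQmax.isPrime, fun h => hpS0 (Ideal.mem_bot.1 (h ▸ hpQ))⟩
  have hlies : P.asIdeal.LiesOver (IsLocalRing.maximalIdeal O) := ⟨hQ.symm⟩
  have : CharZero (IsLocalRing.maximalIdeal O).ResidueField :=
    charZero_of_injective_algebraMap
      (algebraMap k (IsLocalRing.maximalIdeal O).ResidueField).injective
  -- the valuation
  have hunitO : ∀ y : O, E.ord (y : K) = 0 → padd (L := L) P (algebraMap O L y) = 0 := by
    intro y hy
    have hu : IsUnit y := (vsub_isUnit_iff E y).2 hy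
    have hu' : IsUnit (algebraMap O S y) := hu.map _
    rw [IsScalarTower.algebraMap_apply O S L]
    apply padd_eq_zero_of_notMem
    intro h
    exact P.isPrime.ne_top (Ideal.eq_top_of_isUnit_mem _ h hu')
  let F : DVal k L :=
    { ord := padd P
      ord_algebraMap := by
        intro c hc
        have h1 : algebraMap k L c = algebraMap O L (algebraMap k O c) := by
          rw [IsScalarTower.algebraMap_apply O K L, IsScalarTower.algebraMap_apply k K L]
          rfl
        rw [h1]
        exact hunitO _ (E.ord_algebraMap c hc)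
      exists_ord_eq_one := by
        obtain ⟨π, hπ⟩ := P.valuation_exists_uniformizer L
        have hπ0 : π ≠ 0 := by
          rintro rfl
          rw [map_zero] at hπ
          exact WithZero.exp_ne_zero hπ.symm
        refine ⟨π, ?_⟩
        rw [padd_apply P hπ0, hπ]
        simp }
  have hFord : F.ord = padd P := rfl
  have hpL0 : algebraMap O L p ≠ 0 := fun h => hp0 (hinjOL (h.trans (map_zero _).symm))
  set e : ℕ := (F.val (algebraMap O L p)).toNat with he
  have hpval : 0 < F.val (algebraMap O L p) := by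
    have h1 := (mem_iff_padd_pos (L := L) P (algebraMap O S p)).1 hpQ
    rw [← IsScalarTower.algebraMap_apply O S L] at h1
    exact (F.pos_ord_iff.1 h1).resolve_left hpL0
  have heval : (e : ℤ) = F.val (algebraMap O L p) := Int.toNat_of_nonneg hpval.le
  have he0 : 0 < e := by
    have : (0 : ℤ) < e := by rw [heval]; exact hpval
    exact_mod_cast this
  have hmap : ∀ m : ℕ, Ideal.map (algebraMap O S) (IsLocalRing.maximalIdeal O) ≤ P.asIdeal ^ m ↔
      m ≤ e := by
    intro m
    rw [hpirr.maximalIdeal_eq, Ideal.map_span, Set.image_singleton,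
      Ideal.span_singleton_le_iff_mem, ← le_padd_iff (L := L), ← IsScalarTower.algebraMap_apply O S L]
    change ((m : ℤ) : WithTop ℤ) ≤ F.ord (algebraMap O L p) ↔ _
    rw [F.ord_eq_val hpL0, ← heval]
    norm_cast
  have hram : (IsLocalRing.maximalIdeal O).ramificationIdx' P.asIdeal = e := by
    apply Ideal.ramificationIdx'_spec
    · exact (hmap e).2 le_rfl
    · intro h
      have := (hmap (e + 1)).1 h
      omega
  let _ := IsIntegralClosure.MulSemiringAction O K L S
  have hcard : Nat.card (P.asIdeal.inertia Gal(L/K)) = e := by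
    have h1 := card_inertia O K L S P
    rw [hram] at h1
    exact h1
  let act : P.asIdeal.inertia Gal(L/K) →* (L ≃ₐ[k] L) :=
    { toFun := fun σ => (σ : L ≃ₐ[K] L).restrictScalars k
      map_one' := rfl
      map_mul' := fun _ _ => rfl }
  have hinj : Function.Injective act := by
    intro σ τ h
    apply Subtype.ext
    ext x
    exact congrArg (fun g : L ≃ₐ[k] L => g x) h
  have H : ∀ (g : P.asIdeal.inertia Gal(L/K)) (x : L), 0 ≤ F.ord x → 0 < F.ord (act g x - x) :=
    fun g x hx => inertia_pos O K L S P g.1 g.2 x hx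
  obtain ⟨g, ζ, hζ, hg⟩ := exists_tame_generator F act H hinj
  rw [hcard] at hζ
  obtain ⟨r, T0, hT0⟩ := Module.Finite.exists_fin (R := O) (M := S)
  have hge : (g : L ≃ₐ[K] L) ^ e = 1 := by
    have h1 : g ^ e = 1 := by
      rw [← hcard]
      exact pow_card_eq_one'
    have h2 := congrArg (fun z : P.asIdeal.inertia Gal(L/K) => (z : L ≃ₐ[K] L)) h1
    exact h2
  refine ⟨F, e, (g : L ≃ₐ[K] L), ζ, r, fun i => (T0 i : L), he0, ?_, hζ, hge, hg, ?_⟩
  · intro f hf
    have hpK0 : (p : K) ≠ 0 := fun h => hp0 (Subtype.ext h)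
    have hpKv : E.val (p : K) = 1 := ((E.ord_eq_iff (z := 1)).1 (by exact_mod_cast hp1)).2
    have hy : E.val (f * (p : K) ^ (-E.val f)) = 0 := by
      rw [E.val_mul hf (zpow_ne_zero _ hpK0), E.val_zpow hpK0, hpKv]; ring
    have hy0 : f * (p : K) ^ (-E.val f) ≠ 0 := mul_ne_zero hf (zpow_ne_zero _ hpK0)
    have hyo : E.ord (f * (p : K) ^ (-E.val f)) = 0 := E.ord_eq_zero_iff.2 ⟨hy0, hy⟩
    have h1 := hunitO ⟨f * (p : K) ^ (-E.val f), by rw [mem_vsub, hyo]⟩ hyo
    have h2 : algebraMap O L ⟨f * (p : K) ^ (-E.val f), by rw [mem_vsub, hyo]⟩ =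
        algebraMap K L f * (algebraMap O L p) ^ (-E.val f) := by
      rw [IsScalarTower.algebraMap_apply O K L, IsScalarTower.algebraMap_apply O K L, ← map_zpow₀,
        ← map_mul]
      rfl
    rw [h2] at h1
    have hfL : algebraMap K L f ≠ 0 := fun h =>
      hf ((algebraMap K L).injective (h.trans (map_zero _).symm))
    have h3 := (F.ord_eq_zero_iff.1 h1).2
    rw [F.val_mul hfL (zpow_ne_zero _ hpL0), F.val_zpow hpL0, ← heval] at h3
    linarith
  · intro x hx
    obtain ⟨a, s, hs, hxs⟩ := exists_of_padd_nonneg P hx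
    have hspan : ∀ y : S, ∃ c : Fin r → O, ∑ i, c i • T0 i = y := by
      intro y
      rw [← Submodule.mem_span_range_iff_exists_fun, hT0]
      exact Submodule.mem_top
    obtain ⟨ca, hca⟩ := hspan a
    obtain ⟨cs, hcs⟩ := hspan s
    have hcoe : ∀ c : Fin r → O, (algebraMap S L (∑ i, c i • T0 i)) =
        ∑ i, algebraMap K L (c i : K) * (T0 i : L) := by
      intro c
      rw [map_sum]
      refine Finset.sum_congr rfl fun i _ => ?_
      rw [Algebra.smul_def, map_mul, ← IsScalarTower.algebraMap_apply O S L]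
      rfl
    refine ⟨fun i => (ca i : K), fun i => (cs i : K), fun i => (ca i).2, fun i => (cs i).2, ?_, ?_⟩
    · rw [← hcoe, hcs]
      exact padd_eq_zero_of_notMem P hs
    · rw [← hcoe, hcs, ← hcoe, hca]
      exact hxs

end Pool.Agent.H50.TQ
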