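import Mathlib
import Pool.Agent.H50.TQ.Base2
import Pool.Agent.H50.TQ.Inert
import Pool.Agent.H32.LogBound

/-!
# Divisors over the quotient and inertia

PROOF. `hq` gives `FiniteDimensional K L`, `IsGalois K L` (`have := hq.finiteDimensional` etc.).
`exists_ramified_order E` gives `F, e, σ, ζ, T`. `a = 1 + f - ∑ r i * E.val (s i)` with
`E.FormOrd G.ω f`. Put `r = e`, `N = e * (f + 1)`; `F.val (algebraMap s_i) = e * E.val (s_i)` gives
the last equation; the centre is `hasCenter_up`; the logarithmic bound is `log_forms_ramified`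
(`Pool.Agent.H32.LogBound`) with `ω = G.ω`, `ωL = Y.ω`, `hω = hq.form`.
-/

open scoped BigOperators Matrix

namespace Pool.Agent.H50.TQ

open Pool.Agent.H26 Pool.H32

universe u

variable {k K L : Type u} [Field k] [Field K] [Field L] [Algebra k K] [Algebra k L]
  [Algebra K L] [IsScalarTower k K L] {n : ℕ}

/-- For each divisor `E` over `X` with centre `x` there is a divisor `F` over `Y` above it; the
inertia group is cyclic of order `r`, the ramification index, and `F` satisfies the logarithmic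
bound with `N = r * (f + 1)`, where `r * a = N - ∑ r_i F (s_i)`. -/
theorem exists_inertia [IsAlgClosed k] [CharZero k] {G : LogGerm k K n} {Y : LogGerm k L n}
    (hq : IsFiniteQuotient G Y) (E : DVal k K) (hE : E.IsDivisorial n)
    (hc : E.HasCenter G.A G.pt) {a : ℝ} (ha : G.IsLogDiscrepancy E a) :
    ∃ (σ : L ≃ₐ[K] L) (r : ℕ) (ζ : k) (F : DVal k L) (N : ℤ), 0 < r ∧ IsPrimitiveRoot ζ r ∧
      σ ^ r = 1 ∧ F.HasCenter Y.A Y.pt ∧
      (∀ y : L, y ≠ 0 → F.ord y < F.ord (σ y - algebraMap k L (ζ ^ (F.val y)) * y)) ∧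
      (∀ y : Fin n → L, (∀ i, y i ≠ 0) →
        ((-N : ℤ) : WithTop ℤ) ≤ F.ord (Y.ω.det fun i => dlog k (y i))) ∧
      r * a = N - ∑ i, G.r i * (F.val (algebraMap K L (G.s i)) : ℝ) := by
  classical
  have hfin := hq.finiteDimensional
  have hgal := hq.isGalois
  obtain ⟨F, e, σ, ζ, s, T, he, hFE, hζ, hσe, hσ, hT⟩ := exists_ramified_order (L := L) E
  obtain ⟨f, hf, rfl⟩ := ha
  refine ⟨σ, e, ζ, F, e * (f + 1), he, hζ, hσe, hasCenter_up hq E hc F he hFE, hσ, fun y hy => ?_, ?_⟩
  · exact log_forms_ramified E hE G.ω Y.ω hq.form hf F he hFE T hT y hy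
  · have h1 : ∑ i, G.r i * (F.val (algebraMap K L (G.s i)) : ℝ) =
        e * ∑ i, G.r i * (E.val (G.s i) : ℝ) := by
      rw [Finset.mul_sum]
      refine Finset.sum_congr rfl fun i _ => ?_
      rw [hFE _ (G.s_ne_zero i)]
      push_cast
      ring
    rw [h1]
    push_cast
    ring

end Pool.Agent.H50.TQ
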