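import Mathlib

/-!
# An integral basis adapted to a matrix of finite order

PROOF. Rows are the characters: `m ᵥ* A`. Put `N = ∑ s < r, A ^ s`; `A * N = N * A = N` because
`A ^ r = 1` (so `(A - 1) * N = A ^ r - 1 = 0`). Let `Q = {m | m ᵥ* N = 0}`, the kernel of the linear
map `f : (Fin n → ℤ) →ₗ[ℤ] (Fin n → ℤ)`, `f m = m ᵥ* N`. The quotient `(Fin n → ℤ) ⧸ Q` embeds in
`Fin n → ℤ`, hence it is finite and torsion free, hence free. Take a basis `β₁ : Basis (Fin c) ℤ Q`
(`Module.finBasis`, submodules of `Fin n → ℤ` are free) and a basis `β₂ : Basis (Fin d) ℤ (_ ⧸ Q)`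
(`Module.finBasis`), combine them (`Module.Basis.sumQuot`, or by hand) to a basis of `Fin n → ℤ`
indexed by `Fin c ⊕ Fin d`, reindex it to `Fin n` (`c + d = n` by finrank,
`Fintype.equivOfCardEq`): `β : Basis (Fin n) ℤ (Fin n → ℤ)`. `B i = β i` (as a row), `B'` is the
inverse matrix: `B' i j = β.repr (Pi.single i 1) j`; `P i = true` iff the index `i` comes from
`Fin c`. `a i j = β.repr (β i ᵥ* A) j`, that is `a = B * A * B'`.
* `P j = false`: `β i ᵥ* A - β i ∈ Q` because `(A - 1) * N = 0`; the elements of `Q` have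
  coordinate `0` at the `j` with `P j = false`; so `a i j` is the `j`-th coordinate of `β i`,
  which is `if i = j then 1 else 0`.
* `a ^ s = B * A ^ s * B'`, so `∑ s, a ^ s = B * N * B'`; its row `i` is `(β i ᵥ* N) ᵥ* B' = 0` if
  `P i = true`.
-/

open scoped BigOperators Matrix

namespace Pool.Agent.H50.TQ

/-- a basis of `ℤ ^ n` adapted to the kernel of a linear map -/
theorem exists_adapted_basis {n : ℕ} (f : (Fin n → ℤ) →ₗ[ℤ] (Fin n → ℤ)) :
    ∃ (β : Module.Basis (Fin n) ℤ (Fin n → ℤ)) (P : Fin n → Bool),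
      (∀ i, P i = true → f (β i) = 0) ∧
      (∀ v, f v = 0 → ∀ j, P j = false → β.repr v j = 0) := by
  classical
  let Q : Submodule ℤ (Fin n → ℤ) := LinearMap.ker f
  let e : ((Fin n → ℤ) ⧸ Q) ≃ₗ[ℤ] LinearMap.range f := f.quotKerEquivRange
  have : Module.Free ℤ ((Fin n → ℤ) ⧸ Q) := Module.Free.of_equiv e.symm
  have : Module.Finite ℤ ((Fin n → ℤ) ⧸ Q) := inferInstance
  let bW := Module.finBasis ℤ Q
  let bQ := Module.finBasis ℤ ((Fin n → ℤ) ⧸ Q)
  let b := Module.Basis.sumQuot bW bQ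
  have hcard : Fintype.card (Fin (Module.finrank ℤ Q) ⊕ Fin (Module.finrank ℤ ((Fin n → ℤ) ⧸ Q))) =
      Fintype.card (Fin n) := by
    rw [← Module.finrank_eq_card_basis b, Fintype.card_fin, Module.finrank_fin_fun]
  let g := Fintype.equivOfCardEq hcard
  refine ⟨b.reindex g, fun i => (g.symm i).isLeft, fun i hi => ?_, fun v hv j hj => ?_⟩
  · rw [Module.Basis.reindex_apply]
    obtain ⟨l, hl⟩ := Sum.isLeft_iff.1 hi
    rw [hl]
    change f (Module.Basis.sumQuot bW bQ (Sum.inl l)) = 0
    rw [Module.Basis.sumQuot_inl]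
    exact (bW l).2
  · rw [Module.Basis.repr_reindex_apply]
    have hj' : (g.symm j).isLeft ≠ true := by
      intro h
      exact absurd (h.symm.trans hj) (by decide)
    rw [Ne, Sum.isLeft_iff] at hj'
    rcases h : g.symm j with l | l
    · exact absurd ⟨l, h⟩ hj'
    · exact Module.Basis.sumQuot_repr_inr_of_mem bW bQ v hv l

/-- Let `A` be an integral matrix with `A ^ r = 1`. There is a basis of `ℤ ^ n` (the rows of `B`)
such that the rows `B i` with `P i = true` form a basis of the saturated sublattice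
`{m | m ᵥ* (1 + A + ⋯ + A ^ (r-1)) = 0}`; on the quotient `A` acts trivially. -/
theorem exists_int_basis {n : ℕ} (A : Matrix (Fin n) (Fin n) ℤ) {r : ℕ} (hr : 0 < r)
    (hA : A ^ r = 1) :
    ∃ (B B' a : Matrix (Fin n) (Fin n) ℤ) (P : Fin n → Bool), B * B' = 1 ∧ B * A = a * B ∧
      (∀ i j, P j = false → a i j = if i = j then 1 else 0) ∧
      (∀ i j, P i = true → (∑ s ∈ Finset.range r, a ^ s) i j = 0) := by
  classical
  obtain ⟨β, P, hP1, hP2⟩ :=
    exists_adapted_basis (Matrix.vecMulLinear (∑ s ∈ Finset.range r, A ^ s))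
  let B : Matrix (Fin n) (Fin n) ℤ := fun i => β i
  let B' : Matrix (Fin n) (Fin n) ℤ := fun i j => β.repr (Pi.single i 1) j
  have hrepr : ∀ v : Fin n → ℤ, v ᵥ* B' = β.repr v := by
    intro v
    funext j
    have h1 : v = ∑ l, v l • (Pi.single l (1 : ℤ) : Fin n → ℤ) := by
      funext l
      simp [Finset.sum_apply, Pi.single_apply]
    have h2 : β.repr v = ∑ l, v l • β.repr (Pi.single l (1 : ℤ)) := by
      conv_lhs => rw [h1]
      rw [map_sum]
      exact Finset.sum_congr rfl fun l _ => map_smul _ _ _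
    rw [h2, Finsupp.finsetSum_apply]
    simp [Matrix.vecMul, dotProduct, B']
  have hBB : B * B' = 1 := by
    funext i
    have h2 : (B * B') i = B i ᵥ* B' := rfl
    rw [h2, hrepr]
    funext j
    change β.repr (β i) j = _
    rw [Module.Basis.repr_self, Finsupp.single_apply, Matrix.one_apply]
  have hB'B : B' * B = 1 := mul_eq_one_comm.1 hBB
  have hAN : A * ∑ s ∈ Finset.range r, A ^ s = ∑ s ∈ Finset.range r, A ^ s := by
    have h3 := mul_geom_sum A r
    rw [hA, sub_self, sub_mul, one_mul, sub_eq_zero] at h3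
    exact h3
  refine ⟨B, B', B * A * B', P, hBB, ?_, ?_, ?_⟩
  · rw [mul_assoc, hB'B, mul_one]
  · intro i j hj
    have h4 : (B * A * B') i = (B i ᵥ* A) ᵥ* B' := rfl
    rw [h4, hrepr]
    have h5 : B i ᵥ* A = (B i ᵥ* A - B i) + B i := (sub_add_cancel _ _).symm
    rw [h5, map_add, Finsupp.add_apply, hP2 (B i ᵥ* A - B i) ?_ j hj, zero_add]
    · change β.repr (β i) j = _
      rw [Module.Basis.repr_self, Finsupp.single_apply]
    · rw [Matrix.vecMulLinear_apply, Matrix.sub_vecMul, Matrix.vecMul_vecMul, hAN, sub_self]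
  · intro i j hi
    have hpow : ∀ s : ℕ, (B * A * B') ^ s = B * A ^ s * B' := by
      intro s
      induction s with
      | zero => rw [pow_zero, pow_zero, mul_one, hBB]
      | succ s ih =>
        rw [pow_succ, ih, pow_succ A]
        calc B * A ^ s * B' * (B * A * B') = B * A ^ s * (B' * B) * A * B' := by
              simp only [mul_assoc]
          _ = B * (A ^ s * A) * B' := by rw [hB'B, mul_one, mul_assoc B]
    have hsum : ∑ s ∈ Finset.range r, (B * A * B') ^ s =
        B * (∑ s ∈ Finset.range r, A ^ s) * B' := by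
      rw [Finset.sum_congr rfl fun s _ => hpow s, ← Finset.sum_mul, ← Finset.mul_sum]
    rw [hsum]
    have h6 : (B * (∑ s ∈ Finset.range r, A ^ s) * B') i =
        (B i ᵥ* (∑ s ∈ Finset.range r, A ^ s)) ᵥ* B' := rfl
    have h7 : B i ᵥ* (∑ s ∈ Finset.range r, A ^ s) = 0 := by
      have := hP1 i hi
      rwa [Matrix.vecMulLinear_apply] at this
    rw [h6, h7, Matrix.zero_vecMul]
    rfl

end Pool.Agent.H50.TQ
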