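import Mathlib
import Pool.Agent.H50.TQ.Lat

/-!
# Eigenvectors of an integral matrix of finite order

PROOF. Put `m = {i // P i = true}` and `V = m → k`, `W = {y : Fin n → k | y j = 0 if P j = false}`.
By `ha`, for `i` with `P i = true` the row `a i` is supported on the `j` with `P j = true`, so the
linear map `f : V →ₗ[k] V`, `f y = y ᵥ* a_P` with `a_P : Matrix m m k` the block of `a` (cast to `k`)
is the restriction of `y ↦ y ᵥ* a` to `W`; `(a ^ s)` restricted to the block is `a_P ^ s` (again by
`ha`), so `hN` says `∑ s < r, a_P ^ s = 0`; multiplying by `a_P - 1` gives `a_P ^ r = 1`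
(geometric sum `Commute.mul_geom_sum` / `mul_geom_sum`), i.e. `f ^ r = 1`.
For `e < r` let `p_e = r⁻¹ • ∑ s < r, ζ ^ (-(s e)) • f ^ s` (use `(ζ⁻¹) ^ (s * e)`). Then
`f (p_e y) = ζ ^ e • p_e y` (shift the sum, `f ^ r = 1`, `ζ ^ r = 1`) and `∑ e < r, p_e y = y`
(`∑ e < r, (ζ⁻¹ ^ s) ^ e = 0` for `0 < s < r`, since `ζ⁻¹ ^ s ≠ 1`: `IsPrimitiveRoot.geom_sum_eq_zero`
or `geom_sum_eq`). So the eigenvectors of `f` with eigenvalues in `{ζ ^ e | e < r}` span `V`:
`Module.Basis.ofSpan`/`exists_linearIndependent` gives a basis of `V` consisting of such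
eigenvectors, reindex it by `m` (`Fintype.card m = finrank`). For `i` with `P i = true` let
`v i` be the `i`-th basis vector extended by zero, `b i = e`. `b i ≠ 0`: if `f y = y` then
`0 = ∑ s < r, f ^ s y = r • y`, so `y = 0`, but basis vectors are nonzero. For `P i = false` put
`v i = Pi.single i 1`, `b i = 0`. `v.det ≠ 0`: the rows are linearly independent
(`Matrix.linearIndependent_rows_iff_isUnit` or: if `y ᵥ* v = 0` then looking at the coordinates
`j` with `P j = false` gives `y j = 0` for those `j`, and then the independence of the basis gives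
the rest; `Matrix.exists_vecMul_eq_zero_iff`).
-/

open scoped BigOperators Matrix

namespace Pool.Agent.H50.TQ

open Pool.Agent.H26

universe u

/-- if `f ^ r = 1` the eigenvectors with eigenvalues powers of `ζ` span -/
theorem span_eigenvectors {k V : Type*} [Field k] [CharZero k] [AddCommGroup V] [Module k V]
    (f : V →ₗ[k] V) {r : ℕ} (hr : 0 < r) {ζ : k} (hζ : IsPrimitiveRoot ζ r) (hf : f ^ r = 1) :
    Submodule.span k {y : V | ∃ e < r, f y = ζ ^ e • y} = ⊤ := by
  rw [eq_top_iff]
  intro y _
  have hr0 : (r : k) ≠ 0 := Nat.cast_ne_zero.2 hr.ne'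
  have hζ0 : ζ ≠ 0 := hζ.ne_zero hr.ne'
  -- the projections
  have hsum : ∑ e ∈ Finset.range r, ((r : k)⁻¹ • ∑ s ∈ Finset.range r,
      (ζ⁻¹) ^ (s * e) • (f ^ s) y) = y := by
    rw [← Finset.smul_sum, Finset.sum_comm]
    have h1 : ∀ s ∈ Finset.range r, ∑ e ∈ Finset.range r, (ζ⁻¹) ^ (s * e) • (f ^ s) y =
        if s = 0 then (r : k) • y else 0 := by
      intro s hs
      rw [← Finset.sum_smul]
      by_cases hs0 : s = 0
      · subst hs0
        simp
      · rw [if_neg hs0]
        have h2 : ζ⁻¹ ^ s ≠ 1 := by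
          intro h
          rw [inv_pow, inv_eq_one] at h
          exact hs0 (Nat.eq_zero_of_dvd_of_lt (hζ.dvd_of_pow_eq_one s h) (Finset.mem_range.1 hs))
        have h3 : ∑ e ∈ Finset.range r, (ζ⁻¹) ^ (s * e) = 0 := by
          have h4 := mul_geom_sum (ζ⁻¹ ^ s) r
          have h4' : (ζ⁻¹ ^ s) ^ r = 1 := by
            rw [← pow_mul, mul_comm s r, pow_mul, inv_pow, hζ.pow_eq_one, inv_one, one_pow]
          rw [h4', sub_self] at h4
          rcases mul_eq_zero.1 h4 with h5 | h5
          · exact absurd (sub_eq_zero.1 h5) h2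
          · rw [← h5]
            exact Finset.sum_congr rfl fun e _ => pow_mul _ _ _
        rw [h3, zero_smul]
    rw [Finset.sum_congr rfl h1, Finset.sum_ite_eq' (Finset.range r) 0, if_pos
      (Finset.mem_range.2 hr), smul_smul, inv_mul_cancel₀ hr0, one_smul]
  rw [← hsum]
  refine Submodule.sum_mem _ fun e he => Submodule.subset_span ⟨e, Finset.mem_range.1 he, ?_⟩
  rw [map_smul, smul_comm]
  congr 1
  rw [map_sum, Finset.smul_sum]
  have h6 : ∀ s : ℕ, f (ζ⁻¹ ^ (s * e) • (f ^ s) y) =
      ζ ^ e • (ζ⁻¹ ^ ((s + 1) * e) • (f ^ (s + 1)) y) := by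
    intro s
    rw [map_smul, smul_smul, pow_succ' f s, Module.End.mul_apply]
    congr 1
    rw [add_mul, one_mul, pow_add, mul_left_comm, ← mul_pow, mul_inv_cancel₀ hζ0, one_pow,
      mul_one]
  rw [Finset.sum_congr rfl fun s _ => h6 s]
  have h7 := Finset.sum_range_succ (fun s => ζ ^ e • (ζ⁻¹ ^ (s * e) • (f ^ s) y)) r
  have h8 := Finset.sum_range_succ' (fun s => ζ ^ e • (ζ⁻¹ ^ (s * e) • (f ^ s) y)) r
  rw [h8] at h7
  have h9 : ζ ^ e • (ζ⁻¹ ^ (r * e) • (f ^ r) y) = ζ ^ e • (ζ⁻¹ ^ (0 * e) • (f ^ 0) y) := by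
    rw [hf, pow_zero, zero_mul, pow_zero, pow_mul, inv_pow, hζ.pow_eq_one, inv_one, one_pow]
  rw [h9] at h7
  exact add_right_cancel h7

/-- extension by zero -/
def extZ (k : Type*) [Field k] {n : ℕ} (P : Fin n → Bool) :
    ({i : Fin n // P i = true} → k) →ₗ[k] (Fin n → k) where
  toFun y j := if h : P j = true then y ⟨j, h⟩ else 0
  map_add' y z := by
    funext j
    by_cases h : P j = true <;> simp [h]
  map_smul' c y := by
    funext j
    by_cases h : P j = true <;> simp [h]

theorem extZ_apply (k : Type*) [Field k] {n : ℕ} (P : Fin n → Bool)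
    (y : {i : Fin n // P i = true} → k) (j : Fin n) :
    extZ k P y j = if h : P j = true then y ⟨j, h⟩ else 0 := rfl

theorem extZ_inj (k : Type*) [Field k] {n : ℕ} (P : Fin n → Bool)
    {y z : {i : Fin n // P i = true} → k} (h : extZ k P y = extZ k P z) : y = z := by
  funext j
  have h1 := congrFun h j.1
  rw [extZ_apply, extZ_apply, dif_pos j.2, dif_pos j.2] at h1
  exact h1

/-- simultaneous description of the eigenvectors of a matrix `a` of finite order on the invariant
coordinate subspace given by `P`, on which `1 + a + ⋯ + a ^ (r-1)` vanishes -/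
theorem exists_eigenbasis {k : Type u} [Field k] [CharZero k] {n : ℕ}
    (a : Matrix (Fin n) (Fin n) ℤ) (P : Fin n → Bool) {r : ℕ} (hr : 0 < r) {ζ : k}
    (hζ : IsPrimitiveRoot ζ r)
    (ha : ∀ i j, P j = false → a i j = if i = j then 1 else 0)
    (hN : ∀ i j, P i = true → (∑ s ∈ Finset.range r, a ^ s) i j = 0) :
    ∃ (v : Matrix (Fin n) (Fin n) k) (b : Fin n → ℕ),
      (∀ i j, P i = false → v i j = if i = j then 1 else 0) ∧
      (∀ i j, P i = true → P j = false → v i j = 0) ∧ v.det ≠ 0 ∧
      (∀ i, P i = true → 0 < b i ∧ b i < r) ∧ (∀ i, P i = false → b i = 0) ∧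
      (∀ i, P i = true → ∀ j, ∑ l, v i l * (a l j : k) = ζ ^ b i * v i j) := by
  classical
  have hr0 : (r : k) ≠ 0 := Nat.cast_ne_zero.2 hr.ne'
  have hPf : ∀ j, ¬ P j = true → P j = false := fun j h => Bool.eq_false_iff.2 h
  let aK : Matrix (Fin n) (Fin n) k := a.map (Int.castRingHom k)
  have haK : ∀ i j, aK i j = (a i j : k) := fun i j => rfl
  let res : (Fin n → k) →ₗ[k] ({i : Fin n // P i = true} → k) :=
    LinearMap.funLeft k k Subtype.val
  let f : ({i : Fin n // P i = true} → k) →ₗ[k] ({i : Fin n // P i = true} → k) :=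
    res ∘ₗ (Matrix.vecMulLinear aK) ∘ₗ extZ k P
  have hfext : ∀ y, extZ k P (f y) = extZ k P y ᵥ* aK := by
    intro y
    funext j
    rw [extZ_apply]
    by_cases hj : P j = true
    · rw [dif_pos hj]
      rfl
    · rw [dif_neg hj]
      symm
      change ∑ i, extZ k P y i * (a i j : k) = 0
      refine Finset.sum_eq_zero fun i _ => ?_
      rw [ha i j (hPf j hj), extZ_apply]
      by_cases hi : P i = true
      · have hij : i ≠ j := fun h => hj (by rw [← h]; exact hi)
        rw [if_neg hij, Int.cast_zero, mul_zero]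
      · rw [dif_neg hi, zero_mul]
  have hfpow : ∀ (s : ℕ) y, extZ k P ((f ^ s) y) = extZ k P y ᵥ* aK ^ s := by
    intro s
    induction s with
    | zero => intro y; simp
    | succ s ih =>
      intro y
      rw [pow_succ' f, Module.End.mul_apply, hfext, ih, Matrix.vecMul_vecMul, ← pow_succ]
  have hsumK : ∀ i j, P i = true → (∑ s ∈ Finset.range r, aK ^ s) i j = 0 := by
    intro i j hi
    have h1 : (∑ s ∈ Finset.range r, aK ^ s) =
        (∑ s ∈ Finset.range r, a ^ s).map (Int.castRingHom k) := by
      have h2 := map_sum (Int.castRingHom k).mapMatrix (fun s => a ^ s) (Finset.range r)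
      rw [RingHom.mapMatrix_apply] at h2
      rw [h2]
      refine Finset.sum_congr rfl fun s _ => ?_
      rw [map_pow]
      rfl
    rw [h1, Matrix.map_apply, hN i j hi, map_zero]
  have hsumf : ∀ y, ∑ s ∈ Finset.range r, (f ^ s) y = 0 := by
    intro y
    refine extZ_inj k P ?_
    rw [map_sum, map_zero, Finset.sum_congr rfl fun s _ => hfpow s y]
    have h3 : ∑ s ∈ Finset.range r, extZ k P y ᵥ* aK ^ s =
        extZ k P y ᵥ* ∑ s ∈ Finset.range r, aK ^ s := by
      funext j
      rw [Finset.sum_apply]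
      simp only [Matrix.vecMul, dotProduct, Matrix.sum_apply, Finset.mul_sum]
      exact Finset.sum_comm
    rw [h3]
    funext j
    change ∑ i, extZ k P y i * (∑ s ∈ Finset.range r, aK ^ s) i j = 0
    refine Finset.sum_eq_zero fun i _ => ?_
    rw [extZ_apply]
    by_cases hi : P i = true
    · rw [hsumK i j hi, mul_zero]
    · rw [dif_neg hi, zero_mul]
  have hfr : f ^ r = 1 := by
    have h4 := mul_geom_sum f r
    have h5 : ∑ s ∈ Finset.range r, f ^ s = 0 := by
      refine LinearMap.ext fun y => ?_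
      rw [LinearMap.sum_apply]
      exact hsumf y
    rw [h5, mul_zero] at h4
    exact (sub_eq_zero.1 h4.symm)
  have hspan := span_eigenvectors f hr hζ hfr
  let β₀ := Module.Basis.ofSpan hspan.ge
  have hβ₀ : ∀ i, β₀ i ∈ {y | ∃ e < r, f y = ζ ^ e • y} := fun i =>
    Module.Basis.ofSpan_subset hspan.ge ⟨i, rfl⟩
  have : Fintype ((linearIndepOn_empty k (id : ({i : Fin n // P i = true} → k) → _)).extend
      (Set.empty_subset {y | ∃ e < r, f y = ζ ^ e • y})) :=
    Fintype.ofFinite _
  have hcard : Fintype.card ((linearIndepOn_empty k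
      (id : ({i : Fin n // P i = true} → k) → _)).extend
      (Set.empty_subset {y | ∃ e < r, f y = ζ ^ e • y})) =
      Fintype.card {i : Fin n // P i = true} := by
    rw [← Module.finrank_eq_card_basis β₀, Module.finrank_fintype_fun_eq_card]
  let β := β₀.reindex (Fintype.equivOfCardEq hcard)
  have hβ : ∀ i, ∃ e < r, f (β i) = ζ ^ e • β i := by
    intro i
    rw [Module.Basis.reindex_apply]
    exact hβ₀ _
  choose e he hfe using hβ
  have he0 : ∀ i, e i ≠ 0 := by
    intro i h0
    have h6 : f (β i) = β i := by rw [hfe i, h0, pow_zero, one_smul]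
    have h7 : ∀ s : ℕ, (f ^ s) (β i) = β i := by
      intro s
      induction s with
      | zero => rfl
      | succ s ih => rw [pow_succ' f, Module.End.mul_apply, ih, h6]
    have h8 := hsumf (β i)
    rw [Finset.sum_congr rfl fun s _ => h7 s, Finset.sum_const, Finset.card_range,
      ← Nat.cast_smul_eq_nsmul k, smul_eq_zero] at h8
    rcases h8 with h8 | h8
    · exact hr0 h8
    · exact β.ne_zero i h8
  refine ⟨fun i j => if h : P i = true then extZ k P (β ⟨i, h⟩) j else if i = j then 1 else 0,
    fun i => if h : P i = true then e ⟨i, h⟩ else 0, ?_, ?_, ?_, ?_, ?_, ?_⟩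
  · intro i j hi
    change (if h : P i = true then extZ k P (β ⟨i, h⟩) j else if i = j then 1 else 0) = _
    rw [dif_neg (by rw [hi]; decide)]
  · intro i j hi hj
    change (if h : P i = true then extZ k P (β ⟨i, h⟩) j else if i = j then 1 else 0) = _
    rw [dif_pos hi, extZ_apply, dif_neg (by rw [hj]; decide)]
  · intro hdet
    obtain ⟨y, hy, hy2⟩ := Matrix.exists_vecMul_eq_zero_iff.2 hdet
    have hyf : ∀ j, ¬ P j = true → y j = 0 := by
      intro j hj
      have h9 := congrFun hy2 j
      have h10 : ∑ i, y i * (if h : P i = true then extZ k P (β ⟨i, h⟩) j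
          else if i = j then 1 else 0) = 0 := h9
      rw [Finset.sum_eq_single j, dif_neg hj, if_pos rfl, mul_one] at h10
      · exact h10
      · intro i _ hij
        by_cases hi : P i = true
        · rw [dif_pos hi, extZ_apply, dif_neg hj, mul_zero]
        · rw [dif_neg hi, if_neg hij, mul_zero]
      · intro h
        exact absurd (Finset.mem_univ j) h
    have hlin : ∑ i : {i : Fin n // P i = true}, y i.1 • β i = 0 := by
      funext j
      rw [Finset.sum_apply]
      have h9 : ∑ i, y i * (if h : P i = true then extZ k P (β ⟨i, h⟩) j.1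
          else if i = j.1 then 1 else 0) = 0 := congrFun hy2 j.1
      rw [Pi.zero_apply, ← h9, ← Fintype.sum_subtype_add_sum_subtype (fun i => P i = true)]
      have h12 : ∑ i : {i : Fin n // ¬ P i = true}, y i.1 *
          (if h : P i.1 = true then extZ k P (β ⟨i.1, h⟩) j.1 else if i.1 = j.1 then 1 else 0) =
          0 := Finset.sum_eq_zero fun i _ => by rw [hyf i.1 i.2, zero_mul]
      rw [h12, add_zero]
      refine Finset.sum_congr rfl fun i _ => ?_
      rw [dif_pos i.2, extZ_apply, dif_pos j.2]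
      rfl
    refine hy (funext fun j => ?_)
    by_cases hj : P j = true
    · exact Fintype.linearIndependent_iff.1 β.linearIndependent (fun i => y i.1) hlin ⟨j, hj⟩
    · exact hyf j hj
  · intro i hi
    change 0 < (if h : P i = true then e ⟨i, h⟩ else 0) ∧
      (if h : P i = true then e ⟨i, h⟩ else 0) < r
    rw [dif_pos hi]
    exact ⟨Nat.pos_of_ne_zero (he0 _), he _⟩
  · intro i hi
    change (if h : P i = true then e ⟨i, h⟩ else 0) = 0
    rw [dif_neg (by rw [hi]; decide)]
  · intro i hi j
    change ∑ l, (if h : P i = true then extZ k P (β ⟨i, h⟩) l else if i = l then 1 else 0) *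
      (a l j : k) = ζ ^ (if h : P i = true then e ⟨i, h⟩ else 0) *
      (if h : P i = true then extZ k P (β ⟨i, h⟩) j else if i = j then 1 else 0)
    simp only [dif_pos hi]
    have h11 := congrFun (hfext (β ⟨i, hi⟩)) j
    rw [hfe, map_smul] at h11
    exact h11.symm

end Pool.Agent.H50.TQ
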