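import Mathlib
import Pool.Agent.H50.TQ.LatA
import Pool.Agent.H50.TQ.LatB

/-!
# Existence of lattice data
-/

open scoped BigOperators Matrix

namespace Pool.Agent.H50.TQ

open Pool.Agent.H26

universe u

theorem exists_latData {k : Type u} [Field k] [CharZero k] {n : ℕ}
    (A : Matrix (Fin n) (Fin n) ℤ) {r : ℕ} (hr : 0 < r) (hA : A ^ r = 1) {ζ : k}
    (hζ : IsPrimitiveRoot ζ r) : Nonempty (LatData A r ζ) := by
  obtain ⟨B, B', a, P, hB, hBA, ha, hN⟩ := exists_int_basis A hr hA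
  obtain ⟨v, b, h1, h2, h3, h4, h5, h6⟩ := exists_eigenbasis a P hr hζ ha hN
  exact ⟨⟨B, B', hB, a, hBA, P, ha, hN, v, h1, h2, h3, b, h4, h5, h6⟩⟩

end Pool.Agent.H50.TQ
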