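import Mathlib
import Pool.Agent.H50.TQ.ActL
import Pool.Agent.H26.LogForm

/-!
# Unimodular changes of torus coordinates

PROOFS. `monom_new`: both sides are homomorphisms in `m` (`monom_add`, `hκ`), and they agree on
`m = Pi.single i 1` by `hX` (`Pi.single i 1 ᵥ* B = B i`, `monom X (Pi.single i 1) = X i`); e.g.
write `monom x (m ᵥ* B) = ∏ i, monom x (B i) ^ m i`, `κ (m ᵥ* B) = ∏ i, κ (B i) ^ m i`.
`isTorusCoord_new`: every monomial in `x` is a constant times a monomial in `X` and conversely
(`m = (m ᵥ* B') ᵥ* B` because `B' * B = 1`), so `k(X) = k(x) = L`. Algebraic independence of `X`: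
`x` is a transcendence basis of `L / k` (`IsTranscendenceBasis`), `X` generates `L` and has `n`
elements; a generating family of `n = trdeg` elements is algebraically independent (a subfamily is a
transcendence basis, `exists_isTranscendenceBasis_subset...`; or use
`Pool.Agent.H32.Trdeg`/`Pool.Agent.H26` for the cardinality). Alternative: the map
`Laurent k n → Laurent k n`, `single m c ↦ single (m ᵥ* B) (c * κ(..)⁻¹)` is injective since
`m ↦ m ᵥ* B` is, so `coordHom k hX0` is injective (it is the composition with `coordHom k hx0`),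
and restricting to polynomials gives the algebraic independence.
`det_dlog_new`: `dlog (X i) = ∑ j, (B i j : L) • dlog (x j)` (`dlog_mul`, `dlog_zpow`, `dlog_prod`,
`dlog` of a nonzero constant is zero), then `AlternatingMap.map_matrix...` or
`Module.Basis.det_apply`/`Matrix.det_mul`: the matrix of the new vectors is the product.
`exists_dlogBasis`: `exists_laurent_structure hX` (ToricTransfer) gives the structure with
`coord k L i = X i`, then `logBasis ω` and `logBasis_apply` (Torus.lean).
-/

open scoped BigOperators Matrix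
open KaehlerDifferential

namespace Pool.Agent.H50.TQ

open Pool.Agent.H26

universe u

variable {k L : Type u} [Field k] [Field L] [Algebra k L] {n : ℕ}

/-- characters of the lattice with nonzero values -/
private def coordChar {G : Type*} [Field G] (f : (Fin n → ℤ) → G) (h0 : ∀ m, f m ≠ 0)
    (hadd : ∀ m m', f (m + m') = f m * f m') : Multiplicative (Fin n → ℤ) →* G where
  toFun m := f (Multiplicative.toAdd m)
  map_one' := by
    have h := hadd 0 0
    rw [add_zero] at h
    exact (mul_eq_left₀ (h0 0)).1 h.symm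
  map_mul' _ _ := hadd _ _

private lemma coord_char_vecMul {G : Type*} [Field G] (f : (Fin n → ℤ) → G) (h0 : ∀ m, f m ≠ 0)
    (hadd : ∀ m m', f (m + m') = f m * f m') (B : Matrix (Fin n) (Fin n) ℤ) (m : Fin n → ℤ) :
    f (m ᵥ* B) = ∏ i, f (B i) ^ m i := by
  have h1 : m ᵥ* B = ∑ i, m i • B i := Matrix.vecMul_eq_sum m B
  have h2 : f (m ᵥ* B) = coordChar f h0 hadd (Multiplicative.ofAdd (m ᵥ* B)) := rfl
  rw [h2, h1, ofAdd_sum, map_prod]
  refine Finset.prod_congr rfl fun i _ => ?_
  rw [ofAdd_zsmul, map_zpow]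
  rfl

private lemma coord_monom_single (x : Fin n → L) (i : Fin n) :
    monom x (Pi.single i 1) = x i := by
  unfold monom
  rw [Finset.prod_eq_single i]
  · simp
  · intro j _ hj
    rw [Pi.single_eq_of_ne hj, zpow_zero]
  · simp

/-- monomials in the new coordinates `X i = (κ i)⁻¹ • x ^ (B i)`: `κ` is a character -/
theorem monom_new {x X : Fin n → L} (hx0 : ∀ i, x i ≠ 0) {B : Matrix (Fin n) (Fin n) ℤ}
    {κ : (Fin n → ℤ) → k} (hκ0 : ∀ m, κ m ≠ 0) (hκ : ∀ m m', κ (m + m') = κ m * κ m')
    (hX : ∀ i, algebraMap k L (κ (B i)) * X i = monom x (B i)) (m : Fin n → ℤ) :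
    algebraMap k L (κ (m ᵥ* B)) * monom X m = monom x (m ᵥ* B) := by
  rw [coord_char_vecMul κ hκ0 hκ B m,
    coord_char_vecMul (monom x) (monom_ne_zero hx0) (monom_add hx0) B m, map_prod]
  have h1 : monom X m = ∏ i, X i ^ m i := rfl
  rw [h1, ← Finset.prod_mul_distrib]
  refine Finset.prod_congr rfl fun i _ => ?_
  rw [map_zpow₀, ← mul_zpow, hX i]

/-- the new coordinates are torus coordinates -/
theorem isTorusCoord_new {x X : Fin n → L} (hx : IsTorusCoord k x)
    {B B' : Matrix (Fin n) (Fin n) ℤ} (hB : B * B' = 1)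
    {κ : (Fin n → ℤ) → k} (hκ0 : ∀ m, κ m ≠ 0) (hκ : ∀ m m', κ (m + m') = κ m * κ m')
    (hX : ∀ i, algebraMap k L (κ (B i)) * X i = monom x (B i)) : IsTorusCoord k X := by
  have hx0 : ∀ i, x i ≠ 0 := fun i => hx.1.ne_zero i
  have hB' : B' * B = 1 := mul_eq_one_comm.1 hB
  have hgen : IntermediateField.adjoin k (Set.range X) = ⊤ := by
    rw [eq_top_iff, ← hx.2, IntermediateField.adjoin_le_iff]
    rintro _ ⟨i, rfl⟩
    have h1 : B' i ᵥ* B = Pi.single i 1 := by
      have h2 : B' i ᵥ* B = (B' * B) i := by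
        funext j
        rfl
      rw [h2, hB']
      funext j
      rw [Matrix.one_apply, Pi.single_apply]
      simp only [eq_comm]
    have h3 := monom_new hx0 hκ0 hκ hX (B' i)
    rw [h1, coord_monom_single] at h3
    rw [← h3]
    refine mul_mem (IntermediateField.algebraMap_mem _ _) (prod_mem fun j _ => ?_)
    exact zpow_mem (IntermediateField.subset_adjoin k (Set.range X) (Set.mem_range_self j)) _
  refine ⟨?_, hgen⟩
  have halg : Algebra.IsAlgebraic (Algebra.adjoin k (Set.range X)) L := by
    constructor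
    intro w
    have hw : w ∈ IntermediateField.adjoin k (Set.range X) := by rw [hgen]; trivial
    rw [IntermediateField.mem_adjoin_iff_div] at hw
    obtain ⟨r, hr, t, ht, rfl⟩ := hw
    have h1 : IsAlgebraic (Algebra.adjoin k (Set.range X)) r :=
      isAlgebraic_algebraMap (⟨r, hr⟩ : Algebra.adjoin k (Set.range X))
    have h2 : IsAlgebraic (Algebra.adjoin k (Set.range X)) t :=
      isAlgebraic_algebraMap (⟨t, ht⟩ : Algebra.adjoin k (Set.range X))
    rw [div_eq_mul_inv]
    exact h1.mul h2.inv
  have hle : Cardinal.lift.{u} (Cardinal.mk (Fin n)) ≤ Cardinal.lift.{0} (Algebra.trdeg k L) := by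
    have := hx.1.lift_cardinalMk_le_trdeg
    simpa using this
  exact (Algebra.IsAlgebraic.isTranscendenceBasis_of_lift_le_trdeg_of_finite k X hle).1

/-- the logarithmic top forms of the two coordinate systems agree up to the sign `det B` -/
theorem det_dlog_new {x X : Fin n → L} (hx0 : ∀ i, x i ≠ 0) (hX0 : ∀ i, X i ≠ 0)
    {B : Matrix (Fin n) (Fin n) ℤ} {κ : (Fin n → ℤ) → k} (hκ0 : ∀ m, κ m ≠ 0)
    (hX : ∀ i, algebraMap k L (κ (B i)) * X i = monom x (B i))
    (ω : Module.Basis (Fin n) L (Ω[L⁄k])) :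
    (ω.det fun i => dlog k (X i)) = (B.det : L) * ω.det fun i => dlog k (x i) := by
  classical
  have hconst : ∀ c : k, c ≠ 0 → dlog k (algebraMap k L c) = 0 := by
    intro c _
    unfold dlog
    rw [Derivation.map_algebraMap, smul_zero]
  have h1 : ∀ i, dlog k (X i) = ∑ j, (B i j : L) • dlog k (x j) := by
    intro i
    have h2 : dlog k (algebraMap k L (κ (B i)) * X i) = dlog k (X i) := by
      rw [dlog_mul ((map_ne_zero _).2 (hκ0 _)) (hX0 i), hconst _ (hκ0 _), zero_add]
    rw [← h2, hX i]
    unfold monom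
    rw [dlog_prod _ _ fun j _ => zpow_ne_zero _ (hx0 j)]
    exact Finset.sum_congr rfl fun j _ => dlog_zpow (hx0 j) _
  rw [Module.Basis.det_apply, Module.Basis.det_apply]
  have h3 : ω.toMatrix (fun i => dlog k (X i)) =
      ω.toMatrix (fun i => dlog k (x i)) * ((Int.castRingHom L).mapMatrix B)ᵀ := by
    ext a i
    rw [Module.Basis.toMatrix_apply, h1 i, map_sum, Finsupp.finsetSum_apply, Matrix.mul_apply]
    refine Finset.sum_congr rfl fun j _ => ?_
    rw [map_smul, Finsupp.smul_apply, smul_eq_mul, Module.Basis.toMatrix_apply, mul_comm]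
    rfl
  rw [h3, Matrix.det_mul, Matrix.det_transpose, ← RingHom.map_det, mul_comm]
  rfl

/-- the forms `dlog X i` are a basis -/
theorem exists_dlogBasis {X : Fin n → L} (hX : IsTorusCoord k X)
    (ω : Module.Basis (Fin n) L (Ω[L⁄k])) :
    ∃ η : Module.Basis (Fin n) L (Ω[L⁄k]), ∀ i, η i = dlog k (X i) := by
  obtain ⟨inst, h1, h2, h3⟩ := exists_laurent_structure hX
  refine ⟨logBasis ω, fun i => ?_⟩
  rw [logBasis_apply]
  have h4 : coord k L i = X i := by
    unfold coord
    rw [h3, coord_monom_single]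
  rw [h4]

end Pool.Agent.H50.TQ
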