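import Mathlib
import Pool.Agent.H50.TQ.Lat
import Pool.Agent.H26.ToricTransfer
import Pool.Agent.H32.Crepant

/-!
# The weight of an invariant valuation

PROOFS. Notation: `w i = F.val (x i)`; `F.val (monom x m) = m ⬝ᵥ w` (`val_prod`, `val_zpow`).
Write (*) for the hypothesis `hσ`.
`val_sigma`: `ζ ^ (F.val y) • y` has order `F.ord y` (nonzero constants have order `0`), and (*) says
that `σ y` is congruent to it modulo higher order (`DVal.val_eq_of_lt`).
`weight_invariant`: `(A *ᵥ w) i = (A i) ⬝ᵥ w = F.val (monom x (A i)) = F.val (σ (x i))`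
(`hact.spec (Pi.single i 1)`, constants have value `0`) `= F.val (x i) = w i`.
`character_eq`: `σ (x ^ m) = c m • x ^ m`; (*) for `y = x ^ m` gives
`F.ord y < F.ord ((c m - ζ ^ (m ⬝ᵥ w)) • y)`, so the constant `c m - ζ ^ (m ⬝ᵥ w)` is zero
(`F.ord_algebraMap`).
`exists_residue_const`: `w` is invariant, so `0 = (∑ s, m ᵥ* A ^ s) ⬝ᵥ w = r * (m ⬝ᵥ w)`: `y = x ^ m`
has value `0`. For all `s`: `0 < F.ord ((σ ^ s) y - y)` (induction: (*) applied to an element `z` of
value `0` gives `0 < F.ord (σ z - z)`, and `σ ^ s y` has value `0`). `(σ ^ s) y = c_s • x ^ (m ᵥ* A ^ s)`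
with `c_s ≠ 0` (induction from `hact.spec`). The product over `s < r` is
`(∏ c_s) • x ^ (∑ s, m ᵥ* A ^ s) = ∏ c_s =: C` and it is congruent to `y ^ r` modulo the maximal
ideal of the valuation ring of `F`. Let `κ₁, …, κ_r` be the roots of `T ^ r - C` in `k`
(`IsAlgClosed.splits`): `y ^ r - C = ∏ (y - κ_i)` has positive order, so some factor has positive
order (all factors have order `≥ 0`). `κ_i ≠ 0` because `C ≠ 0`. (Or: let `κ₀ ^ r = C`, then
`(y / κ₀) ^ r - 1 = ∏_{i<r} (y / κ₀ - ξ ^ i)` for a primitive `r`-th root of unity `ξ`.)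
-/

open scoped BigOperators Matrix
open KaehlerDifferential

namespace Pool.Agent.H50.TQ

open Pool.Agent.H26

universe u

variable {k K L : Type u} [Field k] [Field K] [Field L] [Algebra k K] [Algebra k L]
  [Algebra K L] [IsScalarTower k K L] {n : ℕ}

theorem logB_sigma_algebraMap (σ : L ≃ₐ[K] L) (a : k) :
    σ (algebraMap k L a) = algebraMap k L a := by
  rw [IsScalarTower.algebraMap_apply k K L, σ.commutes]

theorem logB_ord_smul (F : DVal k L) {a : k} (ha : a ≠ 0) (y : L) :
    F.ord (algebraMap k L a * y) = F.ord y := by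
  rw [F.ord.map_mul, F.ord_algebraMap a ha, zero_add]

/-- values are invariant -/
theorem val_sigma {σ : L ≃ₐ[K] L} (F : DVal k L) {ζ : k} (hζ0 : ζ ≠ 0)
    (hσ : ∀ y : L, y ≠ 0 → F.ord y < F.ord (σ y - algebraMap k L (ζ ^ (F.val y)) * y))
    {y : L} (hy : y ≠ 0) : F.val (σ y) = F.val y := by
  have hz : ζ ^ (F.val y) ≠ 0 := zpow_ne_zero _ hζ0
  have hz' : algebraMap k L (ζ ^ (F.val y)) ≠ 0 := by
    rw [Ne, map_eq_zero]; exact hz
  have h1 : F.ord (algebraMap k L (ζ ^ (F.val y)) * y) <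
      F.ord (σ y - algebraMap k L (ζ ^ (F.val y)) * y) := by
    rw [logB_ord_smul F hz]
    exact hσ y hy
  have h2 := (F.val_eq_of_lt (mul_ne_zero hz' hy) h1).2
  rw [h2, F.val_mul hz' hy, F.val_algebraMap, zero_add]

/-- the value of a monomial -/
theorem val_monom {x : Fin n → L} (hx0 : ∀ i, x i ≠ 0) (F : DVal k L) (m : Fin n → ℤ) :
    F.val (monom x m) = m ⬝ᵥ fun i => F.val (x i) := by
  unfold monom
  rw [F.val_prod _ _ fun i _ => zpow_ne_zero _ (hx0 i)]
  unfold dotProduct
  exact Finset.sum_congr rfl fun i _ => F.val_zpow (hx0 i) _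

theorem logB_monom_single (x : Fin n → L) (i : Fin n) : monom x (Pi.single i 1) = x i := by
  classical
  unfold monom
  rw [Finset.prod_eq_single i]
  · rw [Pi.single_eq_same, zpow_one]
  · intro j _ hj
    rw [Pi.single_eq_of_ne hj, zpow_zero]
  · intro h
    exact absurd (Finset.mem_univ i) h

/-- the weight of the valuation is an invariant cocharacter -/
theorem weight_invariant {x : Fin n → L} (hx : IsTorusCoord k x) {σ : L ≃ₐ[K] L}
    {A : Matrix (Fin n) (Fin n) ℤ} {c : (Fin n → ℤ) → k} (hact : Act σ x A c) (F : DVal k L)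
    {ζ : k} (hζ0 : ζ ≠ 0)
    (hσ : ∀ y : L, y ≠ 0 → F.ord y < F.ord (σ y - algebraMap k L (ζ ^ (F.val y)) * y)) :
    A *ᵥ (fun i => F.val (x i)) = fun i => F.val (x i) := by
  classical
  have hx0 : ∀ i, x i ≠ 0 := fun i => hx.1.ne_zero i
  funext i
  have h1 := hact.spec (Pi.single i 1)
  rw [logB_monom_single] at h1
  have h2 : (Pi.single i 1 : Fin n → ℤ) ᵥ* A = A i := by
    rw [Matrix.single_one_vecMul]
    rfl
  rw [h2] at h1
  have h3 := val_sigma F hζ0 hσ (hx0 i)
  have hc : algebraMap k L (c (Pi.single i 1)) ≠ 0 := by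
    rw [Ne, map_eq_zero]; exact hact.c_ne _
  rw [h1, F.val_mul hc (monom_ne_zero hx0 _), F.val_algebraMap, zero_add, val_monom hx0] at h3
  exact h3

/-- the weight of the valuation determines the character of `σ` on the invariant monomials -/
theorem character_eq {x : Fin n → L} (hx : IsTorusCoord k x) {σ : L ≃ₐ[K] L}
    {A : Matrix (Fin n) (Fin n) ℤ} {c : (Fin n → ℤ) → k} (hact : Act σ x A c) (F : DVal k L)
    {ζ : k} (hζ0 : ζ ≠ 0)
    (hσ : ∀ y : L, y ≠ 0 → F.ord y < F.ord (σ y - algebraMap k L (ζ ^ (F.val y)) * y))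
    (m : Fin n → ℤ) (hm : m ᵥ* A = m) : c m = ζ ^ (m ⬝ᵥ fun i => F.val (x i)) := by
  have hx0 : ∀ i, x i ≠ 0 := fun i => hx.1.ne_zero i
  have hy := monom_ne_zero hx0 m
  have h1 := hσ _ hy
  rw [hact.spec, hm, ← sub_mul, ← map_sub, val_monom hx0] at h1
  by_contra hne
  rw [logB_ord_smul F (sub_ne_zero.mpr hne)] at h1
  exact lt_irrefl _ h1

/-- over an algebraically closed field, an element of value `0` which is not congruent to a
constant is transcendental modulo the maximal ideal -/
theorem logB_ord_aeval [IsAlgClosed k] (F : DVal k L) {y : L}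
    (hy : ∀ κ : k, F.ord (y - algebraMap k L κ) = 0) : ∀ (d : ℕ) (p : Polynomial k), p ≠ 0 →
    p.natDegree = d → F.ord (Polynomial.aeval y p) = 0 := by
  intro d
  induction d with
  | zero =>
    intro p hp hd
    obtain ⟨a, rfl⟩ : ∃ a, p = Polynomial.C a := ⟨_, Polynomial.eq_C_of_natDegree_eq_zero hd⟩
    rw [Polynomial.aeval_C]
    apply F.ord_algebraMap
    rintro rfl
    exact hp Polynomial.C_0
  | succ d ih =>
    intro p hp hd
    have hdeg : p.degree ≠ 0 := by
      intro h
      have h0 : p.natDegree = 0 := Polynomial.natDegree_eq_of_degree_eq_some h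
      omega
    obtain ⟨a, ha⟩ := IsAlgClosed.exists_root p hdeg
    obtain ⟨q, rfl⟩ := Polynomial.dvd_iff_isRoot.mpr ha
    have hq : q ≠ 0 := right_ne_zero_of_mul hp
    have hqd : q.natDegree = d := by
      rw [Polynomial.natDegree_mul (Polynomial.X_sub_C_ne_zero a) hq,
        Polynomial.natDegree_X_sub_C] at hd
      omega
    rw [map_mul, F.ord.map_mul, ih q hq hqd, add_zero, map_sub, Polynomial.aeval_X,
      Polynomial.aeval_C]
    exact hy a

/-- the monomials in the saturation of the image of `A - 1` are constant in the residue field -/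
theorem exists_residue_const [IsAlgClosed k] [CharZero k] {x : Fin n → L} (hx : IsTorusCoord k x)
    {σ : L ≃ₐ[K] L} {A : Matrix (Fin n) (Fin n) ℤ} {c : (Fin n → ℤ) → k} (hact : Act σ x A c)
    (F : DVal k L) {r : ℕ} (hr : 0 < r) {ζ : k} (hζ0 : ζ ≠ 0)
    (hσ : ∀ y : L, y ≠ 0 → F.ord y < F.ord (σ y - algebraMap k L (ζ ^ (F.val y)) * y))
    (m : Fin n → ℤ) (hm : ∑ s ∈ Finset.range r, m ᵥ* A ^ s = 0) :
    ∃ κ : k, κ ≠ 0 ∧ 0 < F.ord (monom x m - algebraMap k L κ) := by
  classical
  have hx0 : ∀ i, x i ≠ 0 := fun i => hx.1.ne_zero i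
  set w : Fin n → ℤ := fun i => F.val (x i) with hw
  have hAw : A *ᵥ w = w := weight_invariant hx hact F hζ0 hσ
  have hAsw : ∀ s : ℕ, (A ^ s) *ᵥ w = w := by
    intro s
    induction s with
    | zero => rw [pow_zero, Matrix.one_mulVec]
    | succ s ih => rw [pow_succ, ← Matrix.mulVec_mulVec, hAw, ih]
  have hval : ∀ s : ℕ, (m ᵥ* A ^ s) ⬝ᵥ w = m ⬝ᵥ w := by
    intro s
    rw [← Matrix.dotProduct_mulVec, hAsw]
  have hm0 : m ⬝ᵥ w = 0 := by
    have h1 : (∑ s ∈ Finset.range r, m ᵥ* A ^ s) ⬝ᵥ w = 0 := by rw [hm, zero_dotProduct]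
    rw [sum_dotProduct, Finset.sum_congr rfl fun s _ => hval s, Finset.sum_const,
      Finset.card_range, nsmul_eq_mul] at h1
    rcases mul_eq_zero.mp h1 with h2 | h2
    · exfalso
      have : r = 0 := by exact_mod_cast h2
      omega
    · exact h2
  set y := monom x m with hy
  have hy0 : y ≠ 0 := monom_ne_zero hx0 m
  -- the conjugates
  let z : ℕ → L := fun s => (⇑σ)^[s] y
  have hz0 : z 0 = y := rfl
  have hzs : ∀ s, z (s + 1) = σ (z s) := fun s => Function.iterate_succ_apply' _ _ _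
  have hform : ∀ s : ℕ, ∃ a : k, a ≠ 0 ∧ z s = algebraMap k L a * monom x (m ᵥ* A ^ s) := by
    intro s
    induction s with
    | zero => exact ⟨1, one_ne_zero, by rw [hz0, pow_zero, Matrix.vecMul_one, map_one, one_mul]⟩
    | succ s ih =>
      obtain ⟨a, ha, hza⟩ := ih
      refine ⟨a * c (m ᵥ* A ^ s), mul_ne_zero ha (hact.c_ne _), ?_⟩
      rw [hzs, hza, map_mul, logB_sigma_algebraMap, hact.spec, Matrix.vecMul_vecMul, ← pow_succ,
        map_mul, mul_assoc]
  choose a ha hza using hform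
  have hzord : ∀ s, F.ord (z s) = 0 := by
    intro s
    rw [hza s, logB_ord_smul F (ha s), F.ord_eq_zero_iff, val_monom hx0]
    exact ⟨monom_ne_zero hx0 _, by rw [← hw, hval, hm0]⟩
  have hzne : ∀ s, z s ≠ 0 := fun s => (F.ord_eq_zero_iff.mp (hzord s)).1
  have hzval : ∀ s, F.val (z s) = 0 := fun s => (F.ord_eq_zero_iff.mp (hzord s)).2
  have hdiff : ∀ s, 0 < F.ord (z (s + 1) - z s) := by
    intro s
    have h1 := hσ (z s) (hzne s)
    rw [hzord, hzval, zpow_zero, map_one, one_mul, ← hzs] at h1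
    exact h1
  have hcong : ∀ s, 0 < F.ord (z s - y) := by
    intro s
    induction s with
    | zero => rw [hz0, sub_self, F.ord.map_zero]; exact WithTop.coe_lt_top 0
    | succ s ih =>
      have h1 : z (s + 1) - y = (z (s + 1) - z s) + (z s - y) := by ring
      rw [h1]
      exact lt_of_lt_of_le (lt_min (hdiff s) ih) (F.ord.map_add _ _)
  have hprod : ∀ j : ℕ, F.ord (∏ s ∈ Finset.range j, z s) = 0 ∧
      0 < F.ord (y ^ j - ∏ s ∈ Finset.range j, z s) := by
    intro j
    induction j with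
    | zero =>
      rw [Finset.prod_range_zero, pow_zero, sub_self, F.ord.map_zero, F.ord.map_one]
      exact ⟨rfl, WithTop.coe_lt_top 0⟩
    | succ j ih =>
      rw [Finset.prod_range_succ]
      constructor
      · rw [F.ord.map_mul, ih.1, hzord, add_zero]
      · have h1 : y ^ (j + 1) - (∏ s ∈ Finset.range j, z s) * z j =
            y ^ j * -(z j - y) + (y ^ j - ∏ s ∈ Finset.range j, z s) * z j := by ring
        rw [h1]
        refine lt_of_lt_of_le (lt_min ?_ ?_) (F.ord.map_add _ _)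
        · rw [F.ord.map_mul, F.ord.map_neg, F.ord.map_pow]
          have : F.ord y = 0 := by rw [← hz0]; exact hzord 0
          rw [this, smul_zero, zero_add]
          exact hcong j
        · rw [F.ord.map_mul, hzord, add_zero]
          exact ih.2
  set C : k := ∏ s ∈ Finset.range r, a s with hC
  have hC0 : C ≠ 0 := Finset.prod_ne_zero_iff.mpr fun s _ => ha s
  have hsum : ∀ j : ℕ, ∏ s ∈ Finset.range j, monom x (m ᵥ* A ^ s) =
      monom x (∑ s ∈ Finset.range j, m ᵥ* A ^ s) := by
    intro j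
    induction j with
    | zero => rw [Finset.prod_range_zero, Finset.sum_range_zero, monom_zero]
    | succ j ih => rw [Finset.prod_range_succ, Finset.sum_range_succ, monom_add hx0, ih]
  have hzC : ∏ s ∈ Finset.range r, z s = algebraMap k L C := by
    rw [Finset.prod_congr rfl fun s _ => hza s, Finset.prod_mul_distrib, hsum, hm, monom_zero,
      mul_one, hC, map_prod]
  have hyC := (hprod r).2
  rw [hzC] at hyC
  by_contra hno
  push Not at hno
  have hyord : F.ord y = 0 := by rw [← hz0]; exact hzord 0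
  have hall : ∀ κ : k, F.ord (y - algebraMap k L κ) = 0 := by
    intro κ
    by_cases hκ : κ = 0
    · rw [hκ, map_zero, sub_zero, hyord]
    · refine le_antisymm (hno κ hκ) ?_
      have h1 : (0 : WithTop ℤ) ≤ F.ord y := hyord.ge
      have h2 := F.ord_algebraMap_nonneg κ
      exact (le_min h1 h2).trans (F.ord.map_sub _ _)
  have h1 := logB_ord_aeval F hall _ (Polynomial.X ^ r - Polynomial.C C)
    (Polynomial.X_pow_sub_C_ne_zero hr C) rfl
  rw [map_sub, map_pow, Polynomial.aeval_X, Polynomial.aeval_C] at h1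
  rw [h1] at hyC
  exact lt_irrefl _ hyC

end Pool.Agent.H50.TQ
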