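import Mathlib
import Pool.Agent.H50.TQ.LogB
import Pool.Agent.H50.TQ.ActL
import Pool.Agent.H50.TQ.Coord

/-!
# Normalised coordinates for an invariant valuation

PROOF. For `P i = true` the row `D.B i` satisfies `∑ s < r, D.B i ᵥ* A ^ s = 0`: `a ^ s * B = B * A ^ s`
(induction from `D.hA`), so `∑ s, (B * A ^ s) i = ((∑ s, a ^ s) * B) i`, and the row `i` of
`∑ a ^ s` is zero (`D.hN`). So `exists_residue_const` gives `κ₀ i ≠ 0` with
`0 < F.ord (monom x (B i) - κ₀ i)`; put `κ₀ i = 1` if `P i = false`. Let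
`κ m = ∏ i, κ₀ i ^ (m ᵥ* B') i`: a character with `κ (B i) = κ₀ i` (`B i ᵥ* B' = Pi.single i 1`),
`X i = (κ₀ i)⁻¹ • monom x (B i)`. Then `0 < F.ord (X i - 1)` for `P i = true`.
Last claim: `σ (X i) = κ₀ i⁻¹ c (B i) • monom x (B i ᵥ* A)`, `B i ᵥ* A = a i ᵥ* B` and
`monom x (a i ᵥ* B) = κ (a i ᵥ* B) • monom X (a i)` (`monom_new`), so `σ (X i) = C • monom X (a i)`
with `C ≠ 0` in `k`. `a i` is supported on `{j | P j = true}` (`D.ha`, `i ≠ j`), where `X j` is
congruent to `1`, so `monom X (a i)` is congruent to `1` modulo the maximal ideal `𝔪_F`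
(`0 < F.ord (monom X m - 1)` for `m` supported on `P`: `X j ^ z` is congruent to `1` for `z : ℤ`,
products). Also `σ (X i)` is congruent to `X i` (hypothesis `hσ` at `y = X i`, `F.val (X i) = 0`), so
to `1`. Hence `C - 1` is in `𝔪_F`, `C = 1` (`F.ord_algebraMap`).
-/

open scoped BigOperators Matrix
open KaehlerDifferential

namespace Pool.Agent.H50.TQ

open Pool.Agent.H26

universe u

variable {k K L : Type u} [Field k] [Field K] [Field L] [Algebra k K] [Algebra k L]
  [Algebra K L] [IsScalarTower k K L] {n : ℕ}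

theorem logB2a_ord_eq (F : DVal k L) {y : L} (hy : 0 < F.ord (y - 1)) : F.ord y = 0 := by
  have h1 : F.ord 1 = 0 := F.ord.map_one
  have h2 : F.ord (y - 1 + 1) = F.ord 1 := by
    apply AddValuation.map_add_eq_of_lt_right
    rw [h1]; exact hy
  rw [sub_add_cancel, h1] at h2
  exact h2

theorem logB2a_mul (F : DVal k L) {y z : L} (hy : 0 < F.ord (y - 1)) (hz : 0 < F.ord (z - 1)) :
    0 < F.ord (y * z - 1) := by
  have h1 : y * z - 1 = (y - 1) * z + (z - 1) := by ring
  rw [h1]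
  refine lt_of_lt_of_le (lt_min ?_ hz) (F.ord.map_add _ _)
  rw [F.ord.map_mul, logB2a_ord_eq F hz, add_zero]
  exact hy

theorem logB2a_ne (F : DVal k L) {y : L} (hy : 0 < F.ord (y - 1)) : y ≠ 0 := by
  intro h
  have h1 := logB2a_ord_eq F hy
  rw [h, F.ord.map_zero] at h1
  exact WithTop.top_ne_zero h1

theorem logB2a_inv (F : DVal k L) {y : L} (hy : 0 < F.ord (y - 1)) : 0 < F.ord (y⁻¹ - 1) := by
  have hne := logB2a_ne F hy
  have h0 : F.ord y⁻¹ = 0 := by
    have h1 : F.ord (y * y⁻¹) = 0 := by rw [mul_inv_cancel₀ hne]; exact F.ord.map_one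
    rw [F.ord.map_mul, logB2a_ord_eq F hy, zero_add] at h1
    exact h1
  have h1 : y⁻¹ - 1 = -((y - 1) * y⁻¹) := by
    field_simp
    ring
  rw [h1, AddValuation.map_neg, F.ord.map_mul, h0, add_zero]
  exact hy

theorem logB2a_one (F : DVal k L) : 0 < F.ord ((1 : L) - 1) := by
  rw [sub_self, F.ord.map_zero]
  exact WithTop.coe_lt_top 0

theorem logB2a_pow (F : DVal k L) {y : L} (hy : 0 < F.ord (y - 1)) (m : ℕ) :
    0 < F.ord (y ^ m - 1) := by
  induction m with
  | zero => rw [pow_zero]; exact logB2a_one F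
  | succ m ih => rw [pow_succ]; exact logB2a_mul F ih hy

theorem logB2a_zpow (F : DVal k L) {y : L} (hy : 0 < F.ord (y - 1)) (m : ℤ) :
    0 < F.ord (y ^ m - 1) := by
  obtain ⟨m, rfl | rfl⟩ := m.eq_nat_or_neg
  · rw [zpow_natCast]; exact logB2a_pow F hy m
  · rw [zpow_neg, zpow_natCast]; exact logB2a_inv F (logB2a_pow F hy m)

theorem logB2a_monom (F : DVal k L) {X : Fin n → L} {m : Fin n → ℤ}
    (h : ∀ j, m j = 0 ∨ 0 < F.ord (X j - 1)) : 0 < F.ord (monom X m - 1) := by
  unfold monom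
  have key : ∀ s : Finset (Fin n), 0 < F.ord (∏ i ∈ s, X i ^ m i - 1) := by
    intro s
    classical
    induction s using Finset.induction_on with
    | empty => rw [Finset.prod_empty]; exact logB2a_one F
    | insert i s hi ih =>
      rw [Finset.prod_insert hi]
      refine logB2a_mul F ?_ ih
      rcases h i with h | h
      · rw [h, zpow_zero]; exact logB2a_one F
      · exact logB2a_zpow F h (m i)
  exact key Finset.univ

theorem logB2a_row (B M : Matrix (Fin n) (Fin n) ℤ) (i : Fin n) : B i ᵥ* M = (B * M) i := by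
  ext j
  rfl

theorem logB2a_pow_comm {a A B : Matrix (Fin n) (Fin n) ℤ} (h : B * A = a * B) (s : ℕ) :
    B * A ^ s = a ^ s * B := by
  induction s with
  | zero => rw [pow_zero, pow_zero, mul_one, one_mul]
  | succ s ih => rw [pow_succ, ← mul_assoc, ih, mul_assoc, h, ← mul_assoc, ← pow_succ]

/-- normalised coordinates: the coordinates `X i` with `P i` are `1` in the residue field -/
theorem exists_normalised [IsAlgClosed k] [CharZero k] {x : Fin n → L} (hx : IsTorusCoord k x)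
    {σ : L ≃ₐ[K] L} {A : Matrix (Fin n) (Fin n) ℤ} {c : (Fin n → ℤ) → k} (hact : Act σ x A c)
    (F : DVal k L) {r : ℕ} (hr : 0 < r) {ζ : k} (hζ0 : ζ ≠ 0)
    (hσ : ∀ y : L, y ≠ 0 → F.ord y < F.ord (σ y - algebraMap k L (ζ ^ (F.val y)) * y))
    (D : LatData A r ζ) :
    ∃ (X : Fin n → L) (κ : (Fin n → ℤ) → k), (∀ m, κ m ≠ 0) ∧
      (∀ m m', κ (m + m') = κ m * κ m') ∧
      (∀ i, algebraMap k L (κ (D.B i)) * X i = monom x (D.B i)) ∧
      (∀ i, D.P i = true → 0 < F.ord (X i - 1)) ∧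
      (∀ i, D.P i = true → σ (X i) = monom X (D.a i)) := by
  have hx0 : ∀ i, x i ≠ 0 := fun i => hx.1.ne_zero i
  -- the sums over the orbit vanish
  have hsum : ∀ i, D.P i = true → ∑ s ∈ Finset.range r, D.B i ᵥ* A ^ s = 0 := by
    intro i hi
    have h1 : ∀ s, D.B i ᵥ* A ^ s = (D.a ^ s) i ᵥ* D.B := by
      intro s
      rw [logB2a_row, logB2a_row, logB2a_pow_comm D.hA]
    rw [Finset.sum_congr rfl fun s _ => h1 s]
    have h2 : ∑ s ∈ Finset.range r, (D.a ^ s) i ᵥ* D.B =
        (∑ s ∈ Finset.range r, (D.a ^ s)) i ᵥ* D.B := by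
      rw [logB2a_row, Finset.sum_mul]
      have h3 : ∀ s, (D.a ^ s) i ᵥ* D.B = (D.a ^ s * D.B) i := fun s => logB2a_row _ _ _
      rw [Finset.sum_congr rfl fun s _ => h3 s]
      ext j
      rw [Finset.sum_apply, Matrix.sum_apply]
    rw [h2]
    have h3 : (∑ s ∈ Finset.range r, (D.a ^ s)) i = 0 := by
      ext j
      exact D.hN i j hi
    rw [h3, Matrix.zero_vecMul]
  have hex : ∀ i, ∃ c : k, c ≠ 0 ∧
      (D.P i = true → 0 < F.ord (monom x (D.B i) - algebraMap k L c)) := by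
    intro i
    by_cases hi : D.P i = true
    · obtain ⟨c, h1, h2⟩ := exists_residue_const hx hact F hr hζ0 hσ (D.B i) (hsum i hi)
      exact ⟨c, h1, fun _ => h2⟩
    · exact ⟨1, one_ne_zero, fun h => absurd h hi⟩
  choose κ₀ hκ₀ hκ₀' using hex
  set κ : (Fin n → ℤ) → k := fun m => ∏ i, κ₀ i ^ (m ᵥ* D.B') i with hκdef
  have hκ0 : ∀ m, κ m ≠ 0 := fun m => Finset.prod_ne_zero_iff.2 fun i _ => zpow_ne_zero _ (hκ₀ i)
  have hκ : ∀ m m', κ (m + m') = κ m * κ m' := by
    intro m m'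
    rw [hκdef]
    simp only
    rw [← Finset.prod_mul_distrib]
    exact Finset.prod_congr rfl fun i _ => by
      rw [Matrix.add_vecMul, Pi.add_apply, zpow_add₀ (hκ₀ i)]
  have hκB : ∀ i, κ (D.B i) = κ₀ i := by
    intro i
    rw [hκdef]
    simp only
    rw [logB2a_row, D.hB, Finset.prod_eq_single i]
    · rw [Matrix.one_apply_eq, zpow_one]
    · intro j _ hj
      rw [Matrix.one_apply_ne (Ne.symm hj), zpow_zero]
    · intro h
      exact absurd (Finset.mem_univ i) h
  set X : Fin n → L := fun i => algebraMap k L (κ₀ i)⁻¹ * monom x (D.B i) with hXdef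
  have halg : ∀ c : k, c ≠ 0 → algebraMap k L c * algebraMap k L c⁻¹ = 1 := by
    intro c hc
    rw [← map_mul, mul_inv_cancel₀ hc, map_one]
  have hX : ∀ i, algebraMap k L (κ (D.B i)) * X i = monom x (D.B i) := by
    intro i
    rw [hκB, hXdef]
    simp only
    rw [← mul_assoc, halg _ (hκ₀ i), one_mul]
  have hX1 : ∀ i, D.P i = true → 0 < F.ord (X i - 1) := by
    intro i hi
    have h1 : X i - 1 = algebraMap k L (κ₀ i)⁻¹ * (monom x (D.B i) - algebraMap k L (κ₀ i)) := by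
      rw [mul_sub, mul_comm (algebraMap k L (κ₀ i)⁻¹) (algebraMap k L (κ₀ i)), halg _ (hκ₀ i)]
    rw [h1, F.ord.map_mul, F.ord_algebraMap _ (inv_ne_zero (hκ₀ i)), zero_add]
    exact hκ₀' i hi
  refine ⟨X, κ, hκ0, hκ, hX, hX1, ?_⟩
  intro i hi
  have h1 : σ (X i) = algebraMap k L ((κ₀ i)⁻¹ * c (D.B i) * κ (D.a i ᵥ* D.B)) *
      monom X (D.a i) := by
    have h2 : D.B i ᵥ* A = D.a i ᵥ* D.B := by rw [logB2a_row, logB2a_row, D.hA]
    have h3 : σ (X i) = algebraMap k L (κ₀ i)⁻¹ * (algebraMap k L (c (D.B i)) *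
        monom x (D.B i ᵥ* A)) := by
      rw [hXdef]
      simp only
      rw [map_mul, sigma_const, hact.spec]
    rw [h3, h2, ← monom_new hx0 hκ0 hκ hX (D.a i), map_mul, map_mul]
    ring
  set C : k := (κ₀ i)⁻¹ * c (D.B i) * κ (D.a i ᵥ* D.B) with hC
  have hCne : C ≠ 0 := mul_ne_zero (mul_ne_zero (inv_ne_zero (hκ₀ i)) (hact.c_ne _)) (hκ0 _)
  have hm : 0 < F.ord (monom X (D.a i) - 1) := by
    apply logB2a_monom
    intro j
    by_cases hj : D.P j = true
    · exact Or.inr (hX1 j hj)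
    · left
      have hj' : D.P j = false := by simpa using hj
      rw [D.ha i j hj', if_neg]
      rintro rfl
      exact hj hi
  have hs : 0 < F.ord (σ (X i) - 1) := by
    have h2 := hσ (X i) (logB2a_ne F (hX1 i hi))
    have h3 := logB2a_ord_eq F (hX1 i hi)
    have h4 : F.val (X i) = 0 := by
      unfold DVal.val
      rw [h3]
      rfl
    rw [h4, zpow_zero, map_one, one_mul, h3] at h2
    have h5 : σ (X i) - 1 = (σ (X i) - X i) + (X i - 1) := by ring
    rw [h5]
    exact lt_of_lt_of_le (lt_min h2 (hX1 i hi)) (F.ord.map_add _ _)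
  have hC1 : C = 1 := by
    by_contra hne
    have h2 : F.ord (algebraMap k L (C - 1)) = 0 := F.ord_algebraMap _ (sub_ne_zero.2 hne)
    have h3 : algebraMap k L (C - 1) = (σ (X i) - 1) + -(algebraMap k L C * (monom X (D.a i) - 1)) := by
      rw [h1, map_sub, map_one]
      ring
    have h4 : 0 < F.ord (algebraMap k L (C - 1)) := by
      rw [h3]
      refine lt_of_lt_of_le (lt_min hs ?_) (F.ord.map_add _ _)
      rw [AddValuation.map_neg, F.ord.map_mul, F.ord_algebraMap _ hCne, zero_add]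
      exact hm
    rw [h2] at h4
    exact lt_irrefl _ h4
  rw [h1, hC1, map_one, one_mul]

end Pool.Agent.H50.TQ
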