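import Mathlib
import Pool.Agent.H50.TQ.Lat
import Pool.Agent.H50.TQ.ActL
import Pool.Agent.H26.LogForm
import Pool.Agent.H26.Basic

/-!
# Eigenfunctions in the maximal ideal of an invariant valuation

PROOF. For `P j = true` and all `s`: `(σ ^ s) (X j) = monom X ((a ^ s) j)` and `(a ^ s) j l = 0` for
`P l = false` (induction on `s`: `σ (monom X m) = monom X (m ᵥ* a)` for `m` supported on `P`; the
rows `a j` with `P j` are supported on `P` by `D.ha`). For `P i = true` put
`y i = (r : k)⁻¹ • ∑ s < r, (ζ⁻¹) ^ (s * b i) • ∑ j, v i j • ((σ ^ s) (X j) - 1)`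
(`v i j = 0` for `P j = false`, `D.hv'`); it is `(r : k)⁻¹ • ∑ s, (ζ⁻¹) ^ (s * b i) • (σ ^ s) l` with
`l = ∑ j, v i j • (X j - 1)` (because `σ ^ s` fixes constants), so `σ (y i) = ζ ^ b i • y i` by
shifting the sum (`σ ^ r = 1`, `ζ ^ r = 1`; see the proof of `exists_adapted` in
`Pool.Agent.H32.Adapted` for the same computation).
`0 < F.ord (y i)`: for `P j` the monomial `monom X ((a ^ s) j)` is congruent to `1` modulo the
maximal ideal (supported on `P`, `hX1`).
`D (monom X m) = monom X m • ∑ l, (m l : L) • dlog (X l)` (`dlog_prod`, `dlog_zpow`,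
`D_eq_smul_dlog`). So
`Q i l = (r : k)⁻¹ • ∑ s, (ζ⁻¹) ^ (s * b i) • ∑ j, v i j • ((a ^ s) j l : L) * monom X ((a ^ s) j)`
(the terms with `P j = false` vanish, write them in any way), congruent modulo the maximal ideal to
`(r : k)⁻¹ • ∑ s, (ζ⁻¹) ^ (s * b i) • ∑ j, v i j * (a ^ s) j l = v i l`, because
`v i ᵥ* a ^ s = ζ ^ (s * b i) • v i` (induction from `D.eig`). For `P i = false` put anything.
-/

open scoped BigOperators Matrix
open KaehlerDifferential

namespace Pool.Agent.H50.TQ

open Pool.Agent.H26

universe u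

/-- the units congruent to `1` modulo the maximal ideal -/
def oneUnits {L : Type*} [Field L] (v : AddValuation L (WithTop ℤ)) : Subgroup Lˣ where
  carrier := {u | 0 < v ((u : L) - 1)}
  one_mem' := by simp
  mul_mem' := by
    intro a b ha hb
    simp only [Set.mem_ofPred_eq] at ha hb ⊢
    have h1 : 0 ≤ v (a : L) := by
      have h2 : (a : L) = (a - 1) + 1 := by ring
      rw [h2]
      exact v.map_le_add ha.le (by simp)
    have h3 : ((a * b : Lˣ) : L) - 1 = a * ((b : L) - 1) + (a - 1) := by
      push_cast; ring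
    rw [h3]
    refine v.map_lt_add ?_ ha
    rw [v.map_mul]
    exact lt_of_lt_of_le hb (le_add_of_nonneg_left h1)
  inv_mem' := by
    intro a ha
    simp only [Set.mem_ofPred_eq] at ha ⊢
    have h1 : v (a : L) = 0 := by
      have h2 : v (a : L) = v 1 := v.map_eq_of_lt_sub (by simpa using ha)
      rw [h2, v.map_one]
    have h2 : v ((a : L)⁻¹) = 0 := by
      have h3 : v ((a : L) * (a : L)⁻¹) = 0 := by
        rw [mul_inv_cancel₀ a.ne_zero, v.map_one]
      rw [v.map_mul, h1, zero_add] at h3
      exact h3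
    have h3 : ((a⁻¹ : Lˣ) : L) - 1 = -((a : L)⁻¹ * ((a : L) - 1)) := by
      rw [Units.val_inv_eq_inv_val]
      have := a.ne_zero
      field_simp
      ring
    rw [h3, v.map_neg, v.map_mul, h2, zero_add]
    exact ha

/-- monomials in one-units are one-units -/
lemma monom_sub_one_pos {L : Type*} [Field L] (v : AddValuation L (WithTop ℤ)) {n : ℕ}
    {X : Fin n → L} (hX0 : ∀ i, X i ≠ 0) {P : Fin n → Bool}
    (hX1 : ∀ i, P i = true → 0 < v (X i - 1)) (m : Fin n → ℤ) (hm : ∀ i, P i = false → m i = 0) :
    0 < v (monom X m - 1) := by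
  have h1 : (∏ i, (Units.mk0 (X i) (hX0 i)) ^ m i) ∈ oneUnits v := by
    refine Subgroup.prod_mem _ fun i _ => ?_
    cases hP : P i with
    | false => rw [hm i hP, zpow_zero]; exact one_mem _
    | true =>
      refine Subgroup.zpow_mem _ ?_ _
      exact hX1 i hP
  have h2 : ((∏ i, (Units.mk0 (X i) (hX0 i)) ^ m i : Lˣ) : L) = monom X m := by
    unfold monom
    push_cast
    rfl
  have h3 : 0 < v (((∏ i, (Units.mk0 (X i) (hX0 i)) ^ m i : Lˣ) : L) - 1) := h1
  rwa [h2] at h3

/-- monomials of monomials -/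
lemma prod_monom_zpow {L : Type*} [Field L] {n : ℕ} {X : Fin n → L} (hX0 : ∀ i, X i ≠ 0)
    (M : Matrix (Fin n) (Fin n) ℤ) (m : Fin n → ℤ) :
    ∏ l, (monom X (M l)) ^ m l = monom X (m ᵥ* M) := by
  unfold monom
  have h1 : ∀ l, (∏ i, X i ^ M l i) ^ m l = ∏ i, X i ^ (m l * M l i) := by
    intro l
    rw [← Finset.prod_zpow]
    refine Finset.prod_congr rfl fun i _ => ?_
    rw [← zpow_mul, mul_comm]
  simp only [h1]
  rw [Finset.prod_comm]
  refine Finset.prod_congr rfl fun i _ => ?_
  have h2 : ∀ (s : Finset (Fin n)), ∏ l ∈ s, X i ^ (m l * M l i) = X i ^ ∑ l ∈ s, m l * M l i := by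
    classical
    intro s
    induction s using Finset.induction_on with
    | empty => simp
    | insert a s ha ih => rw [Finset.prod_insert ha, Finset.sum_insert ha, ih, zpow_add₀ (hX0 i)]
  rw [h2]
  rfl

variable {k K L : Type u} [Field k] [Field K] [Field L] [Algebra k K] [Algebra k L]
  [Algebra K L] [IsScalarTower k K L] {n : ℕ}

/-- eigenfunctions `y i` of `σ` (for `P i`) in the maximal ideal of the valuation ring of `F`,
whose logarithmic Jacobian matrix is congruent to `v` -/
theorem exists_eigenfunctions [CharZero k] {X : Fin n → L} (hX0 : ∀ i, X i ≠ 0) {σ : L ≃ₐ[K] L}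
    (F : DVal k L) {A : Matrix (Fin n) (Fin n) ℤ} {r : ℕ} (hr : 0 < r) {ζ : k}
    (hζ : IsPrimitiveRoot ζ r) (hσr : σ ^ r = 1) (D : LatData A r ζ)
    (hX1 : ∀ i, D.P i = true → 0 < F.ord (X i - 1))
    (hXa : ∀ i, D.P i = true → σ (X i) = monom X (D.a i)) :
    ∃ (y : Fin n → L) (Q : Matrix (Fin n) (Fin n) L),
      (∀ i, D.P i = true → 0 < F.ord (y i) ∧ σ (y i) = algebraMap k L (ζ ^ D.b i) * y i ∧
        KaehlerDifferential.D k L (y i) = ∑ l, Q i l • dlog k (X l) ∧
        ∀ l, 0 < F.ord (Q i l - algebraMap k L (D.v i l))) := by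
  classical
  have hζ0 : ζ ≠ 0 := hζ.ne_zero hr.ne'
  have hr0 : (r : k) ≠ 0 := by exact_mod_cast hr.ne'
  -- supports
  have hsup : ∀ s j l, D.P j = true → D.P l = false → (D.a ^ s) j l = 0 := by
    intro s
    induction s with
    | zero =>
      intro j l hj hl
      rw [pow_zero, Matrix.one_apply_ne]
      rintro rfl
      rw [hj] at hl
      exact absurd hl (by simp)
    | succ s ih =>
      intro j l hj hl
      rw [pow_succ, Matrix.mul_apply]
      have h1 : ∀ t, (D.a ^ s) j t * D.a t l = if t = l then (D.a ^ s) j t else 0 := by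
        intro t
        rw [D.ha t l hl]
        split_ifs <;> simp
      simp only [h1]
      rw [Finset.sum_ite_eq' Finset.univ l (fun t => (D.a ^ s) j t)]
      simpa using ih j l hj hl
  have hstep : ∀ s j, D.P j = true →
      σ (monom X ((D.a ^ s) j)) = monom X ((D.a ^ (s + 1)) j) := by
    intro s j hj
    have h1 : σ (monom X ((D.a ^ s) j)) = ∏ l, (monom X (D.a l)) ^ ((D.a ^ s) j l) := by
      unfold monom
      rw [map_prod]
      refine Finset.prod_congr rfl fun l _ => ?_
      rw [map_zpow₀]
      cases hl : D.P l with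
      | false => rw [hsup s j l hj hl, zpow_zero, zpow_zero]
      | true => rw [hXa l hl]; rfl
    rw [h1, prod_monom_zpow hX0]
    congr 1
  have hpow : ∀ s j, D.P j = true → (σ ^ s) (X j) = monom X ((D.a ^ s) j) := by
    intro s
    induction s with
    | zero =>
      intro j _
      rw [pow_zero, pow_zero, AlgEquiv.one_apply]
      unfold monom
      rw [Finset.prod_eq_single j]
      · simp
      · intro l _ hl
        rw [Matrix.one_apply_ne hl.symm, zpow_zero]
      · simp
    | succ s ih =>
      intro j hj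
      rw [pow_succ', AlgEquiv.mul_apply, ih j hj, hstep s j hj]
  have hone : ∀ s j, D.P j = true → 0 < F.ord (monom X ((D.a ^ s) j) - 1) := by
    intro s j hj
    exact monom_sub_one_pos F.ord hX0 hX1 _ fun l hl => hsup s j l hj hl
  have heig : ∀ i, D.P i = true → ∀ s l,
      ∑ j, D.v i j * (((D.a ^ s) j l : ℤ) : k) = ζ ^ (s * D.b i) * D.v i l := by
    intro i hi s
    induction s with
    | zero =>
      intro l
      simp [Matrix.one_apply]
    | succ s ih =>
      intro l
      have h1 : ∀ j, D.v i j * (((D.a ^ (s + 1)) j l : ℤ) : k) =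
          ∑ t, (D.v i j * (((D.a ^ s) j t : ℤ) : k)) * ((D.a t l : ℤ) : k) := by
        intro j
        rw [pow_succ, Matrix.mul_apply, Int.cast_sum, Finset.mul_sum]
        refine Finset.sum_congr rfl fun t _ => ?_
        push_cast; ring
      simp only [h1]
      rw [Finset.sum_comm]
      simp only [← Finset.sum_mul, ih]
      have h2 : ∀ t, ζ ^ (s * D.b i) * D.v i t * ((D.a t l : ℤ) : k) =
          ζ ^ (s * D.b i) * (D.v i t * ((D.a t l : ℤ) : k)) := fun t => by ring
      simp only [h2]
      rw [← Finset.mul_sum, D.eig i hi l]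
      ring
  set c : Fin n → ℕ → k := fun i s => (r : k)⁻¹ * (ζ⁻¹) ^ (s * D.b i) with hc
  set U : Fin n → ℕ → L := fun i s =>
    ∑ j, algebraMap k L (D.v i j) * (monom X ((D.a ^ s) j) - 1) with hU
  refine ⟨fun i => ∑ s ∈ Finset.range r, algebraMap k L (c i s) * U i s,
    fun i l => ∑ s ∈ Finset.range r, algebraMap k L (c i s) *
      ∑ j, algebraMap k L (D.v i j) * ((((D.a ^ s) j l : ℤ) : L) * monom X ((D.a ^ s) j)), ?_⟩
  intro i hi
  have hσU : ∀ s, σ (U i s) = U i (s + 1) := by
    intro s
    rw [hU]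
    simp only
    rw [map_sum]
    refine Finset.sum_congr rfl fun j _ => ?_
    rw [map_mul, sigma_const, map_sub, map_one]
    cases hj : D.P j with
    | false => rw [D.hv' i j hi hj]; simp
    | true => rw [hstep s j hj]
  have hUr : U i r = U i 0 := by
    rw [hU]
    simp only
    refine Finset.sum_congr rfl fun j _ => ?_
    cases hj : D.P j with
    | false => rw [D.hv' i j hi hj]; simp
    | true => rw [← hpow r j hj, ← hpow 0 j hj, hσr, pow_zero]
  have hUpos : ∀ s, 0 < F.ord (U i s) := by
    intro s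
    rw [hU]
    simp only
    refine F.ord.map_lt_sum' (WithTop.coe_lt_top 0) fun j _ => ?_
    cases hj : D.P j with
    | false => rw [D.hv' i j hi hj]; simp
    | true =>
      rw [F.ord.map_mul]
      exact lt_of_lt_of_le (hone s j hj) (le_add_of_nonneg_left (F.ord_algebraMap_nonneg _))
  refine ⟨?_, ?_, ?_, ?_⟩
  · refine F.ord.map_lt_sum' (WithTop.coe_lt_top 0) fun s _ => ?_
    rw [F.ord.map_mul]
    exact lt_of_lt_of_le (hUpos s) (le_add_of_nonneg_left (F.ord_algebraMap_nonneg _))
  · simp only
    rw [map_sum, Finset.mul_sum]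
    have h1 : ∀ s, σ (algebraMap k L (c i s) * U i s) =
        algebraMap k L (ζ ^ D.b i) * (algebraMap k L (c i (s + 1)) * U i (s + 1)) := by
      intro s
      rw [map_mul, sigma_const, hσU, ← mul_assoc, ← map_mul]
      congr 2
      rw [hc]
      simp only
      rw [Nat.succ_mul, pow_add, inv_pow ζ (D.b i)]
      field_simp
    simp only [h1]
    rw [← Finset.mul_sum, ← Finset.mul_sum]
    congr 1
    have h2 := Finset.sum_range_succ (fun s => algebraMap k L (c i s) * U i s) r
    have h3 := Finset.sum_range_succ' (fun s => algebraMap k L (c i s) * U i s) r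
    rw [h3] at h2
    have h4 : algebraMap k L (c i r) * U i r = algebraMap k L (c i 0) * U i 0 := by
      rw [hUr]
      congr 2
      rw [hc]
      simp only
      rw [pow_mul, inv_pow, hζ.pow_eq_one]
      simp
    rw [h4] at h2
    exact add_right_cancel h2
  · simp only
    have hD : ∀ (c : k) (z : L), KaehlerDifferential.D k L (algebraMap k L c * z) =
        algebraMap k L c • KaehlerDifferential.D k L z := by
      intro c z
      rw [Derivation.leibniz, Derivation.map_algebraMap, smul_zero, add_zero]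
    have hDm : ∀ m : Fin n → ℤ, KaehlerDifferential.D k L (monom X m) =
        ∑ l, (((m l : ℤ) : L) * monom X m) • dlog k (X l) := by
      intro m
      have hne : monom X m ≠ 0 := Finset.prod_ne_zero_iff.2 fun i _ => zpow_ne_zero _ (hX0 i)
      rw [D_eq_smul_dlog hne]
      have h5 : dlog k (monom X m) = ∑ l, ((m l : ℤ) : L) • dlog k (X l) := by
        unfold monom
        rw [dlog_prod _ _ fun i _ => zpow_ne_zero _ (hX0 i)]
        exact Finset.sum_congr rfl fun l _ => dlog_zpow (hX0 l) _
      rw [h5, Finset.smul_sum]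
      refine Finset.sum_congr rfl fun l _ => ?_
      rw [smul_smul, mul_comm]
    rw [map_sum]
    have h6 : ∀ s, KaehlerDifferential.D k L (algebraMap k L (c i s) * U i s) =
        ∑ l, (algebraMap k L (c i s) * ∑ j, algebraMap k L (D.v i j) *
          ((((D.a ^ s) j l : ℤ) : L) * monom X ((D.a ^ s) j))) • dlog k (X l) := by
      intro s
      rw [hD, hU]
      simp only
      rw [map_sum, Finset.smul_sum]
      have h7 : ∀ j, algebraMap k L (c i s) •
          KaehlerDifferential.D k L (algebraMap k L (D.v i j) * (monom X ((D.a ^ s) j) - 1)) =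
          ∑ l, (algebraMap k L (c i s) * (algebraMap k L (D.v i j) *
            ((((D.a ^ s) j l : ℤ) : L) * monom X ((D.a ^ s) j)))) • dlog k (X l) := by
        intro j
        rw [hD, map_sub, Derivation.map_one_eq_zero, sub_zero, hDm, Finset.smul_sum,
          Finset.smul_sum]
        refine Finset.sum_congr rfl fun l _ => ?_
        rw [smul_smul, smul_smul, mul_assoc]
      simp only [h7]
      rw [Finset.sum_comm]
      refine Finset.sum_congr rfl fun l _ => ?_
      rw [← Finset.sum_smul, Finset.mul_sum]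
    simp only [h6]
    rw [Finset.sum_comm]
    refine Finset.sum_congr rfl fun l _ => ?_
    rw [← Finset.sum_smul]
  · intro l
    simp only
    have h1 : algebraMap k L (D.v i l) = ∑ s ∈ Finset.range r, algebraMap k L (c i s) *
        ∑ j, algebraMap k L (D.v i j) * (((D.a ^ s) j l : ℤ) : L) := by
      have h2 : ∀ s, algebraMap k L (c i s) *
          ∑ j, algebraMap k L (D.v i j) * (((D.a ^ s) j l : ℤ) : L) =
          algebraMap k L ((r : k)⁻¹ * D.v i l) := by
        intro s
        have h3 : ∑ j, algebraMap k L (D.v i j) * (((D.a ^ s) j l : ℤ) : L) =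
            algebraMap k L (∑ j, D.v i j * (((D.a ^ s) j l : ℤ) : k)) := by
          rw [map_sum]
          refine Finset.sum_congr rfl fun j _ => ?_
          rw [map_mul, map_intCast]
        rw [h3, heig i hi s l, ← map_mul]
        congr 1
        rw [hc]
        simp only
        rw [inv_pow]
        have : ζ ^ (s * D.b i) ≠ 0 := pow_ne_zero _ hζ0
        field_simp
      simp only [h2]
      rw [Finset.sum_const, Finset.card_range, nsmul_eq_mul, map_mul, ← mul_assoc, ← map_natCast
        (algebraMap k L), ← map_mul, mul_inv_cancel₀ hr0, map_one, one_mul]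
    rw [h1, ← Finset.sum_sub_distrib]
    refine F.ord.map_lt_sum' (WithTop.coe_lt_top 0) fun s _ => ?_
    rw [← mul_sub, ← Finset.sum_sub_distrib, F.ord.map_mul]
    refine lt_of_lt_of_le ?_ (le_add_of_nonneg_left (F.ord_algebraMap_nonneg _))
    refine F.ord.map_lt_sum' (WithTop.coe_lt_top 0) fun j _ => ?_
    rw [← mul_sub, F.ord.map_mul]
    cases hj : D.P j with
    | false => rw [D.hv' i j hi hj]; simp
    | true =>
      refine lt_of_lt_of_le ?_ (le_add_of_nonneg_left (F.ord_algebraMap_nonneg _))
      have h8 : (((D.a ^ s) j l : ℤ) : L) * monom X ((D.a ^ s) j) - (((D.a ^ s) j l : ℤ) : L) =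
          algebraMap k L (((D.a ^ s) j l : ℤ) : k) * (monom X ((D.a ^ s) j) - 1) := by
        rw [map_intCast]; ring
      rw [h8, F.ord.map_mul]
      exact lt_of_lt_of_le (hone s j hj) (le_add_of_nonneg_left (F.ord_algebraMap_nonneg _))

end Pool.Agent.H50.TQ
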