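import Mathlib
import Pool.Agent.H50.TQ.LogB2a
import Pool.Agent.H50.TQ.LogB2b
import Pool.Agent.H32.RegVal3

/-!
# The logarithmic bound for an invariant valuation

PROOF. Take `X, κ` from `exists_normalised` and `y, Q` from `exists_eigenfunctions`. Let
`z i = y i` for `P i = true`, `z i = X i` for `P i = false`; let `Q' i l = Q i l` for `P i = true`,
`Q' i l = if i = l then 1 else 0` for `P i = false`. Then `Q' i l` is congruent to `v i l` modulo the
maximal ideal of `F` for all `i, l` (`D.hv`), so `det Q'` is congruent to `det v ≠ 0`, so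
`F.ord (det Q') = 0` (use the ring homomorphism to the residue field, or a lemma: entries congruent
imply determinants congruent, `Matrix.det_apply`). In particular the row `i` of `Q'` is nonzero for
`P i = true`; `y i ≠ 0`: if `y i = 0` then `∑ l, Q i l • dlog (X l) = 0`, and the `dlog (X l)` are
linearly independent (`exists_dlogBasis`, `isTorusCoord_new`), so the row is zero, so `det Q' = 0`.
`dlog (z i) = (e i)⁻¹ • ∑ l, Q' i l • dlog (X l)` with `e i = y i` for `P i`, `e i = 1` otherwise
(`dlog (X i)` itself in the second case). So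
`ω.det (dlog z) = (∏ i, (e i)⁻¹) * det Q' * ω.det (dlog X)` and `ω.det (dlog X) = ± ω.det (dlog x)`
(`det_dlog_new`, `B.det = ± 1` because `B * B' = 1`). The hypothesis `hN` for `z` gives
`-N ≤ - ∑_{P i} F.val (y i) + F.val (ω.det (dlog x))` (`ω.det (dlog x) ≠ 0`: it is a basis,
`det_ne_zero`). Finally `F.val (y i) ≥ b i`: `F.val (y i) > 0`, and `hσ` at `y i` with
`σ (y i) = ζ ^ b i • y i` gives `ζ ^ (F.val (y i)) = ζ ^ (b i)` (the constant
`ζ ^ b i - ζ ^ F.val (y i)` would otherwise have order `0`), so `r ∣ F.val (y i) - b i`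
(`IsPrimitiveRoot.zpow_eq_one_iff_dvd`); as `0 < b i < r` and `F.val (y i) > 0`, we get
`F.val (y i) ≥ b i` (if `F.val (y i) - b i = r * c` with `c < 0` then `F.val (y i) ≤ b i - r < 0`).
For `P i = false`, `b i = 0`.
-/

open scoped BigOperators Matrix
open KaehlerDifferential

namespace Pool.Agent.H50.TQ

open Pool.Agent.H26

universe u

/-- products of congruent integral elements are congruent -/
lemma prod_congr_pos {L ι : Type*} [Field L] (v : AddValuation L (WithTop ℤ)) (s : Finset ι)
    (f g : ι → L) (hf : ∀ i ∈ s, 0 ≤ v (f i)) (hg : ∀ i ∈ s, 0 ≤ v (g i))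
    (h : ∀ i ∈ s, 0 < v (f i - g i)) : 0 < v (∏ i ∈ s, f i - ∏ i ∈ s, g i) := by
  classical
  induction s using Finset.induction_on with
  | empty => simp
  | insert a s ha ih =>
    rw [Finset.prod_insert ha, Finset.prod_insert ha]
    have hpg : 0 ≤ v (∏ i ∈ s, g i) := by
      have : ∀ t : Finset ι, t ⊆ s → 0 ≤ v (∏ i ∈ t, g i) := by
        intro t
        induction t using Finset.induction_on with
        | empty => intro _; simp
        | insert b t hb ih2 =>
          intro hbt
          rw [Finset.prod_insert hb, v.map_mul]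
          exact add_nonneg (hg b (Finset.mem_insert_of_mem (hbt (Finset.mem_insert_self _ _))))
            (ih2 fun x hx => hbt (Finset.mem_insert_of_mem hx))
      exact this s (Finset.Subset.refl _)
    have h1 : f a * ∏ i ∈ s, f i - g a * ∏ i ∈ s, g i =
        f a * (∏ i ∈ s, f i - ∏ i ∈ s, g i) + (f a - g a) * ∏ i ∈ s, g i := by ring
    rw [h1]
    have h2 := ih (fun i hi => hf i (Finset.mem_insert_of_mem hi))
      (fun i hi => hg i (Finset.mem_insert_of_mem hi))
      (fun i hi => h i (Finset.mem_insert_of_mem hi))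
    refine lt_of_lt_of_le (lt_min ?_ ?_) (v.map_add _ _)
    · rw [v.map_mul]
      exact lt_of_lt_of_le h2 (le_add_of_nonneg_left (hf a (Finset.mem_insert_self _ _)))
    · rw [v.map_mul]
      exact lt_of_lt_of_le (h a (Finset.mem_insert_self _ _)) (le_add_of_nonneg_right hpg)

/-- determinants of congruent integral matrices are congruent -/
lemma det_congr_pos {L : Type*} [Field L] (v : AddValuation L (WithTop ℤ)) {n : ℕ}
    (M N : Matrix (Fin n) (Fin n) L) (hM : ∀ i j, 0 ≤ v (M i j)) (hN : ∀ i j, 0 ≤ v (N i j))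
    (h : ∀ i j, 0 < v (M i j - N i j)) : 0 < v (M.det - N.det) := by
  classical
  rw [Matrix.det_apply, Matrix.det_apply, ← Finset.sum_sub_distrib]
  refine v.map_lt_sum' ?_ fun s _ => ?_
  · exact WithTop.coe_lt_top 0
  · rw [← smul_sub]
    have h1 := prod_congr_pos v Finset.univ (fun i => M (s i) i) (fun i => N (s i) i)
      (fun i _ => hM _ _) (fun i _ => hN _ _) (fun i _ => h _ _)
    rcases Int.units_eq_one_or (Equiv.Perm.sign s) with hs | hs
    · rw [hs, one_smul]; exact h1
    · rw [hs, Units.neg_smul, one_smul, v.map_neg]; exact h1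

variable {k K L : Type u} [Field k] [Field K] [Field L] [Algebra k K] [Algebra k L]
  [Algebra K L] [IsScalarTower k K L] {n : ℕ}

/-- **The logarithmic bound.** If all logarithmic top forms have order at least `-N` along `F`,
then the form `dlog x_1 ∧ ⋯ ∧ dlog x_n` has order at least `-N + ∑ b i`. -/
theorem log_bound [IsAlgClosed k] [CharZero k] {x : Fin n → L} (hx : IsTorusCoord k x)
    {σ : L ≃ₐ[K] L} {A : Matrix (Fin n) (Fin n) ℤ} {c : (Fin n → ℤ) → k} (hact : Act σ x A c)
    (F : DVal k L) {r : ℕ} (hr : 0 < r) {ζ : k} (hζ : IsPrimitiveRoot ζ r) (hσr : σ ^ r = 1)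
    (hσ : ∀ y : L, y ≠ 0 → F.ord y < F.ord (σ y - algebraMap k L (ζ ^ (F.val y)) * y))
    (D : LatData A r ζ) (ω : Module.Basis (Fin n) L (Ω[L⁄k])) (N : ℤ)
    (hN : ∀ y : Fin n → L, (∀ i, y i ≠ 0) →
        ((-N : ℤ) : WithTop ℤ) ≤ F.ord (ω.det fun i => dlog k (y i))) :
    ∑ i, (D.b i : ℤ) ≤ N + F.val (ω.det fun i => dlog k (x i)) := by
  classical
  have hζ0 : ζ ≠ 0 := hζ.ne_zero hr.ne'
  have : CharZero L := charZero_of_injective_algebraMap (algebraMap k L).injective
  obtain ⟨X, κ, hκ0, hκ, hX, hX1, hXa⟩ := exists_normalised hx hact F hr hζ0 hσ D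
  have hTX : IsTorusCoord k X := isTorusCoord_new hx D.hB hκ0 hκ hX
  have hX0 : ∀ i, X i ≠ 0 := fun i => hTX.1.ne_zero i
  have hx0 : ∀ i, x i ≠ 0 := fun i => hx.1.ne_zero i
  obtain ⟨y, Q, hyQ⟩ := exists_eigenfunctions hX0 F hr hζ hσr D hX1 hXa
  obtain ⟨η, hη⟩ := exists_dlogBasis hTX ω
  -- the matrix
  set Q' : Matrix (Fin n) (Fin n) L := fun i l =>
    if D.P i = true then Q i l else if i = l then 1 else 0 with hQ'
  have hconst : ∀ c : k, 0 ≤ F.ord (algebraMap k L c) := F.ord_algebraMap_nonneg
  have hQc : ∀ i l, 0 < F.ord (Q' i l - algebraMap k L (D.v i l)) := by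
    intro i l
    by_cases hi : D.P i = true
    · rw [hQ']; simp only [hi, if_true]
      exact (hyQ i hi).2.2.2 l
    · rw [hQ']; simp only [hi, if_false]
      rw [D.hv i l (by simpa using hi)]
      by_cases hil : i = l
      · simp [hil]
      · simp [hil]
  have hQn : ∀ i l, 0 ≤ F.ord (Q' i l) := by
    intro i l
    have h1 : Q' i l = (Q' i l - algebraMap k L (D.v i l)) + algebraMap k L (D.v i l) := by ring
    rw [h1]
    exact F.ord.map_le_add (hQc i l).le (hconst _)
  have hdetc : 0 < F.ord (Q'.det - algebraMap k L D.v.det) := by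
    have h1 : algebraMap k L D.v.det = (D.v.map (algebraMap k L)).det := by
      rw [RingHom.map_det]; rfl
    rw [h1]
    refine det_congr_pos F.ord _ _ hQn (fun i j => ?_) (fun i j => ?_)
    · exact hconst _
    · exact hQc i j
  have hdv : F.ord (algebraMap k L D.v.det) = 0 := F.ord_algebraMap _ D.det_v
  have hdv0 : algebraMap k L D.v.det ≠ 0 := by
    rw [Ne, FaithfulSMul.algebraMap_eq_zero_iff]; exact D.det_v
  have hdetQ : Q'.det ≠ 0 ∧ F.val Q'.det = 0 := by
    have h1 := F.val_eq_of_lt hdv0 (by rw [hdv]; exact hdetc)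
    rw [F.val_algebraMap] at h1
    exact h1
  -- nonzero eigenfunctions
  have hy0 : ∀ i, D.P i = true → y i ≠ 0 := by
    intro i hi h0
    have h1 := (hyQ i hi).2.2.1
    rw [h0, map_zero] at h1
    have h2 : ∑ l, Q i l • η l = 0 := by rw [h1]; simp only [hη]
    have h3 := Fintype.linearIndependent_iff.1 η.linearIndependent (fun l => Q i l) h2
    apply hdetQ.1
    apply Matrix.det_eq_zero_of_row_eq_zero i
    intro l
    rw [hQ']; simp only [hi, if_true]
    exact h3 l
  set e : Fin n → L := fun i => if D.P i = true then y i else 1 with he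
  set z : Fin n → L := fun i => if D.P i = true then y i else X i with hz
  have he0 : ∀ i, e i ≠ 0 := by
    intro i
    by_cases hi : D.P i = true
    · rw [he]; simp only [hi, if_true]; exact hy0 i hi
    · rw [he]; simp only [hi]; simp
  have hz0 : ∀ i, z i ≠ 0 := by
    intro i
    by_cases hi : D.P i = true
    · rw [hz]; simp only [hi, if_true]; exact hy0 i hi
    · rw [hz]; simp only [hi]; simpa using hX0 i
  have hdl : (fun i => dlog k (z i)) = fun i => (e i)⁻¹ • ∑ l, Q' i l • η l := by
    funext i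
    by_cases hi : D.P i = true
    · rw [hz, he, hQ']; simp only [hi, if_true]
      rw [dlog, (hyQ i hi).2.2.1]
      simp only [hη]
    · rw [hz, he, hQ']; simp only [hi]
      simp [hη]
  have hdet : (ω.det fun i => dlog k (z i)) =
      (∏ i, (e i)⁻¹) * (ω.det η * Q'.det) := by
    rw [hdl]
    have hsm : ω.det (fun i => (e i)⁻¹ • ∑ l, Q' i l • η l) =
        (∏ i, (e i)⁻¹) • ω.det (fun i => ∑ l, Q' i l • η l) :=
      (ω.det : AlternatingMap L (Ω[L⁄k]) L (Fin n)).toMultilinearMap.map_smul_univ
        (fun i => (e i)⁻¹) (fun i => ∑ l, Q' i l • η l)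
    rw [hsm, smul_eq_mul, det_change ω η]
    congr 2
    rw [Module.Basis.det_apply, ← Matrix.det_transpose]
    congr 1
    ext i j
    rw [Matrix.transpose_apply, Module.Basis.toMatrix_apply]
    simp only [map_sum, map_smul, Module.Basis.repr_self]
    rw [Finsupp.finsetSum_apply]
    simp [Finsupp.single_apply]
  have hηx : ω.det η = (D.B.det : L) * ω.det fun i => dlog k (x i) := by
    rw [← det_dlog_new hx0 hX0 hκ0 hX ω]
    congr 1
    funext i
    exact hη i
  have hB0 : (D.B.det : L) ≠ 0 := by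
    have h1 : D.B.det * D.B'.det = 1 := by rw [← Matrix.det_mul, D.hB, Matrix.det_one]
    have h2 : D.B.det ≠ 0 := left_ne_zero_of_mul_eq_one h1
    exact_mod_cast h2
  have hωη : ω.det η ≠ 0 := det_ne_zero ω η
  have hωx : (ω.det fun i => dlog k (x i)) ≠ 0 := by
    intro h0
    rw [h0, mul_zero] at hηx
    exact hωη hηx
  have hBval : F.val (D.B.det : L) = 0 := by
    have h1 : (D.B.det : L) = algebraMap k L (D.B.det : k) := by simp
    rw [h1]; exact F.val_algebraMap _
  have hval : F.val (ω.det fun i => dlog k (z i)) =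
      - ∑ i, F.val (e i) + F.val (ω.det fun i => dlog k (x i)) := by
    rw [hdet, F.val_mul (Finset.prod_ne_zero_iff.2 fun i _ => inv_ne_zero (he0 i))
      (mul_ne_zero hωη hdetQ.1), F.val_mul hωη hdetQ.1, hdetQ.2, hηx, F.val_mul hB0 hωx, hBval,
      F.val_prod _ _ (fun i _ => inv_ne_zero (he0 i))]
    simp only [F.val_inv (he0 _)]
    rw [Finset.sum_neg_distrib]
    ring
  have hdz0 : (ω.det fun i => dlog k (z i)) ≠ 0 := by
    rw [hdet]
    exact mul_ne_zero (Finset.prod_ne_zero_iff.2 fun i _ => inv_ne_zero (he0 i))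
      (mul_ne_zero hωη hdetQ.1)
  have hmain := hN z hz0
  rw [F.ord_eq_val hdz0, hval] at hmain
  have hmain' : -N ≤ - ∑ i, F.val (e i) + F.val (ω.det fun i => dlog k (x i)) := by
    exact_mod_cast hmain
  have hbe : ∀ i, (D.b i : ℤ) ≤ F.val (e i) := by
    intro i
    by_cases hi : D.P i = true
    · rw [he]; simp only [hi, if_true]
      obtain ⟨hb0, hbr⟩ := D.hb i hi
      have hpos : 0 < F.val (y i) := by
        rcases F.pos_ord_iff.1 (hyQ i hi).1 with h | h
        · exact absurd h (hy0 i hi)
        · exact h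
      have h1 := hσ (y i) (hy0 i hi)
      rw [(hyQ i hi).2.1, ← sub_mul, ← map_sub, F.ord.map_mul] at h1
      have h2 : ζ ^ (D.b i) = ζ ^ (F.val (y i)) := by
        by_contra hne
        rw [F.ord_algebraMap _ (sub_ne_zero.2 hne), zero_add] at h1
        exact lt_irrefl _ h1
      have h3 : ζ ^ (F.val (y i) - (D.b i : ℤ)) = 1 := by
        rw [zpow_sub₀ hζ0, zpow_natCast, ← h2, div_self (pow_ne_zero _ hζ0)]
      have h4 := (hζ.zpow_eq_one_iff_dvd _).1 h3
      obtain ⟨q, hq⟩ := h4
      by_contra hlt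
      push Not at hlt
      have hq0 : q < 0 := by
        by_contra hq0
        push Not at hq0
        have : 0 ≤ (r : ℤ) * q := mul_nonneg (by positivity) hq0
        omega
      have hr' : (0 : ℤ) < r := by exact_mod_cast hr
      have hq1 : (r : ℤ) * q ≤ -r := by nlinarith
      have hbr' : (D.b i : ℤ) < r := by exact_mod_cast hbr
      omega
    · rw [he]; simp only [hi]
      rw [D.hb' i (by simpa using hi)]
      simp
  have hsum : ∑ i, (D.b i : ℤ) ≤ ∑ i, F.val (e i) := Finset.sum_le_sum fun i _ => hbe i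
  linarith

end Pool.Agent.H50.TQ
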