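import Mathlib
import Pool.Agent.H50.TQ.Lat

/-!
# Making an invariant weight positive on the basis

PROOFS. `weight_eq_zero`: `D.a ^ s * D.B = D.B * A ^ s` (induction from `D.hA`), so
`(∑ s, a ^ s) * B *ᵥ w = ∑ s, B *ᵥ (A ^ s *ᵥ w) = r • (B *ᵥ w)` (as `A *ᵥ w = w`); the row `i` of
`∑ a ^ s` is zero, so `r * (B *ᵥ w) i = 0`.

`exists_pos`: `y = B *ᵥ w ≠ 0` (apply `B'`: `B' * B = 1` by `mul_eq_one_comm`), `y i = 0` if
`P i = true`, so there is `i₀` with `P i₀ = false`, `y i₀ ≠ 0`. Let `ε = sign (y i₀) = ±1` and let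
`g : Matrix (Fin n) (Fin n) ℤ` be: `g i i = 1` for `i ≠ i₀`, `g i₀ i₀ = ε`, `g i i₀ = k i` for
`i ≠ i₀`, `P i = false`, where `k i` is an integer with `y i + k i * y i₀ > 0` (e.g.
`k i = ε * (|y i| + 1)`), all other entries `0`. Its inverse `g'`: `g' i i = 1` (`i ≠ i₀`),
`g' i₀ i₀ = ε`, `g' i i₀ = - ε * k i` (`i ≠ i₀`, `P i = false`). Put `D'.B = g * B`,
`D'.B' = B' * g'`, `D'.a = g * a * g'`, `D'.P = D.P`, `D'.v = D.v`, `D'.b = D.b`. Checks: rows `i`
with `P i = true` of `g`, `g'` are unit vectors, and columns `j` with `P j = true` too (`g i j = 0`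
for `i ≠ j`, `P j = true`). Hence for `P i = true`: `a' i j = ∑ l, a i l * g' l j`, and `a i l = 0` for
`P l = false`, so `a' i j = a i j` (`l` runs over `P l = true`, where the row `g' l` is a unit
vector). For `P j = false` and `P i = false`: modulo the columns of `P` the matrix `a` is the
identity, so `(g a g') i j = (g g') i j`. `hN`: `∑ s, a' ^ s = g * (∑ s, a ^ s) * g'` and the row
`i` of `g` is a unit vector for `P i = true`. `eig`: `v i l = 0` unless `P l = true`, and for those
`a' l j = a l j`. (An alternative which may be shorter: choose `i₀`, and do two steps: first flip the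
sign, then add.)

`dvd_b`: if `P i = false` then `b i = 0`. If `P i = true` then `v i ≠ 0` (else `v.det = 0`,
`Matrix.det_eq_zero_of_row_eq_zero`), `v i ᵥ* (a ^ h) = ζ ^ (b i * h) • v i` by induction from `eig`,
and `a ^ h = 1` because `a ^ h * B = B * A ^ h = B` and `B * B' = 1`. So `ζ ^ (h * b i) = 1` and
`hζ.dvd_of_pow_eq_one`.
-/

open scoped BigOperators Matrix

namespace Pool.Agent.H50.TQ

open Pool.Agent.H26

universe u

namespace LatData

variable {k : Type u} [Field k] {n : ℕ} {A : Matrix (Fin n) (Fin n) ℤ} {r : ℕ} {ζ : k}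

theorem latC_pow_mul (D : LatData A r ζ) (s : ℕ) : D.a ^ s * D.B = D.B * A ^ s := by
  induction s with
  | zero => rw [pow_zero, pow_zero, one_mul, mul_one]
  | succ s ih => rw [pow_succ, mul_assoc, ← D.hA, ← mul_assoc, ih, mul_assoc, ← pow_succ]

theorem latC_B'B (D : LatData A r ζ) : D.B' * D.B = 1 := mul_eq_one_comm.1 D.hB

/-- an invariant cocharacter vanishes on the rows `B i` with `P i` -/
theorem weight_eq_zero (D : LatData A r ζ) (hr : 0 < r) {w : Fin n → ℤ} (hw : A *ᵥ w = w) (i : Fin n)
    (hi : D.P i = true) : (D.B *ᵥ w) i = 0 := by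
  have h1 : ∀ s : ℕ, A ^ s *ᵥ w = w := by
    intro s
    induction s with
    | zero => rw [pow_zero, Matrix.one_mulVec]
    | succ s ih => rw [pow_succ, ← Matrix.mulVec_mulVec, hw, ih]
  have h2 : ∀ s : ℕ, D.a ^ s *ᵥ (D.B *ᵥ w) = D.B *ᵥ w := by
    intro s
    rw [Matrix.mulVec_mulVec, D.latC_pow_mul, ← Matrix.mulVec_mulVec, h1]
  have h3 : (∑ s ∈ Finset.range r, D.a ^ s) *ᵥ (D.B *ᵥ w) = (r : ℤ) • (D.B *ᵥ w) := by
    rw [Matrix.sum_mulVec, Finset.sum_congr rfl fun s _ => h2 s, Finset.sum_const,
      Finset.card_range, natCast_zsmul]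
  have h4 := congrFun h3 i
  have h5 : ((∑ s ∈ Finset.range r, D.a ^ s) *ᵥ (D.B *ᵥ w)) i = 0 := by
    rw [Matrix.mulVec, dotProduct]
    exact Finset.sum_eq_zero fun j _ => by rw [D.hN i j hi, zero_mul]
  rw [h5, Pi.smul_apply, smul_eq_mul] at h4
  rcases mul_eq_zero.1 h4.symm with h6 | h6
  · have : r = 0 := by exact_mod_cast h6
    omega
  · exact h6

/-- change of the basis by a matrix whose rows `i` with `P i` are unit vectors -/
theorem latC_conj (D : LatData A r ζ) (g g' : Matrix (Fin n) (Fin n) ℤ) (hg : g * g' = 1)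
    (h1 : ∀ i, D.P i = true → ∀ j, g i j = if i = j then 1 else 0)
    (h2 : ∀ i, D.P i = true → ∀ j, g' i j = if i = j then 1 else 0) :
    ∃ D' : LatData A r ζ, D'.b = D.b ∧ D'.P = D.P ∧ D'.B = g * D.B := by
  have hg' : g' * g = 1 := mul_eq_one_comm.1 hg
  have hrow : ∀ (X : Matrix (Fin n) (Fin n) ℤ) (i : Fin n), D.P i = true → ∀ j,
      (g * X) i j = X i j := by
    intro X i hi j
    rw [Matrix.mul_apply, Finset.sum_eq_single i]
    · rw [h1 i hi, if_pos rfl, one_mul]
    · intro l _ hl
      rw [h1 i hi, if_neg (Ne.symm hl), zero_mul]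
    · intro h; exact absurd (Finset.mem_univ i) h
  have hpow : ∀ s : ℕ, (g * D.a * g') ^ s = g * D.a ^ s * g' := by
    intro s
    induction s with
    | zero => rw [pow_zero, pow_zero, mul_one, hg]
    | succ s ih =>
      rw [pow_succ, ih, pow_succ]
      have : g * D.a ^ s * g' * (g * D.a * g') = g * D.a ^ s * (g' * g) * D.a * g' := by
        simp only [mul_assoc]
      rw [this, hg', mul_one]
      simp only [mul_assoc]
  refine ⟨{ B := g * D.B
            B' := D.B' * g'
            hB := ?_
            a := g * D.a * g'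
            hA := ?_
            P := D.P
            ha := ?_
            hN := ?_
            v := D.v
            hv := D.hv
            hv' := D.hv'
            det_v := D.det_v
            b := D.b
            hb := D.hb
            hb' := D.hb'
            eig := ?_ }, rfl, rfl, rfl⟩
  · have : g * D.B * (D.B' * g') = g * (D.B * D.B') * g' := by simp only [mul_assoc]
    rw [this, D.hB, mul_one, hg]
  · have : g * D.a * g' * (g * D.B) = g * D.a * (g' * g) * D.B := by simp only [mul_assoc]
    rw [this, hg', mul_one, mul_assoc, D.hA, mul_assoc]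
  · intro i j hj
    have e : g * D.a * g' = 1 + g * ((D.a - 1) * g') := by
      rw [sub_mul, one_mul, mul_sub, hg, ← mul_assoc]
      abel
    have h0 : ∀ l, ((D.a - 1) * g') l j = 0 := by
      intro l
      rw [Matrix.mul_apply]
      refine Finset.sum_eq_zero fun m _ => ?_
      by_cases hm : D.P m = true
      · rw [h2 m hm, if_neg, mul_zero]
        rintro rfl
        rw [hj] at hm
        exact Bool.false_ne_true hm
      · rw [Matrix.sub_apply, D.ha l m (by simpa using hm), Matrix.one_apply, sub_self, zero_mul]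
    rw [e, Matrix.add_apply, Matrix.mul_apply (M := g), Matrix.one_apply]
    rw [Finset.sum_eq_zero fun l _ => by rw [h0 l, mul_zero], add_zero]
  · intro i j hi
    have e : ∑ s ∈ Finset.range r, (g * D.a * g') ^ s =
        g * ((∑ s ∈ Finset.range r, D.a ^ s) * g') := by
      rw [Finset.sum_congr rfl fun s _ => hpow s, Finset.sum_mul, Finset.mul_sum]
      exact Finset.sum_congr rfl fun s _ => mul_assoc _ _ _
    rw [e, hrow _ i hi, Matrix.mul_apply]
    exact Finset.sum_eq_zero fun l _ => by rw [D.hN i l hi, zero_mul]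
  · intro i hi j
    rw [← D.eig i hi j]
    refine Finset.sum_congr rfl fun l _ => ?_
    by_cases hl : D.P l = true
    · have e : (g * D.a * g') l j = D.a l j := by
        rw [mul_assoc, hrow _ l hl, Matrix.mul_apply]
        by_cases hj : D.P j = true
        · rw [Finset.sum_eq_single j]
          · rw [h2 j hj, if_pos rfl, mul_one]
          · intro m _ hm
            by_cases hm' : D.P m = true
            · rw [h2 m hm', if_neg hm, mul_zero]
            · rw [D.ha l m (by simpa using hm'), if_neg, zero_mul]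
              rintro rfl
              exact hm' hl
          · intro h; exact absurd (Finset.mem_univ j) h
        · have hj' : D.P j = false := by simpa using hj
          rw [D.ha l j hj', if_neg (by rintro rfl; exact hj hl)]
          refine Finset.sum_eq_zero fun m _ => ?_
          by_cases hm' : D.P m = true
          · rw [h2 m hm', if_neg, mul_zero]
            rintro rfl
            exact hj hm'
          · rw [D.ha l m (by simpa using hm'), if_neg, zero_mul]
            rintro rfl
            exact hm' hl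
      rw [e]
    · rw [D.hv' i l hi (by simpa using hl), zero_mul, zero_mul]

/-- change the basis such that an invariant cocharacter `w ≠ 0` becomes positive on all `B i` with
`P i = false` -/
theorem exists_pos (D : LatData A r ζ) (hr : 0 < r) {w : Fin n → ℤ} (hw : A *ᵥ w = w)
    (hw0 : w ≠ 0) :
    ∃ D' : LatData A r ζ, D'.b = D.b ∧ ∀ i, D'.P i = false → 0 < (D'.B *ᵥ w) i := by
  set y := D.B *ᵥ w with hy
  have hy0 : y ≠ 0 := by
    intro h
    apply hw0
    have : D.B' *ᵥ y = w := by rw [hy, Matrix.mulVec_mulVec, D.latC_B'B, Matrix.one_mulVec]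
    rw [← this, h, Matrix.mulVec_zero]
  obtain ⟨i₀, hi₀⟩ : ∃ i₀, y i₀ ≠ 0 := by
    by_contra h
    push Not at h
    exact hy0 (funext h)
  have hP₀ : D.P i₀ = false := by
    by_contra h
    exact hi₀ (D.weight_eq_zero hr hw i₀ (by simpa using h))
  obtain ⟨e, he, hey⟩ : ∃ e : ℤ, e * e = 1 ∧ 0 < e * y i₀ := by
    rcases lt_or_gt_of_ne hi₀ with h | h
    · exact ⟨-1, by norm_num, by linarith⟩
    · exact ⟨1, by norm_num, by linarith⟩
  let u : Fin n → ℤ := fun i => if D.P i = true then 0 else
    if i = i₀ then e - 1 else e * (|y i| + 1)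
  have hu0 : ∀ i, D.P i = true → u i = 0 := fun i hi => by simp only [u]; rw [if_pos hi]
  have hui : u i₀ = e - 1 := by
    show (if D.P i₀ = true then 0 else if i₀ = i₀ then e - 1 else e * (|y i₀| + 1)) = e - 1
    rw [if_neg (by simp [hP₀]), if_pos rfl]
  have aux : ∀ (p q : Prop) [Decidable p] [Decidable q] (x X : ℤ),
      ((if p then 1 else 0) + x * (if q then 1 else 0)) * X =
        (if p then X else 0) + (if q then x * X else 0) := by
    intro p q _ _ x X
    split_ifs <;> ring
  let g : Matrix (Fin n) (Fin n) ℤ := fun i j => (if i = j then 1 else 0) + u i * (if j = i₀ then 1 else 0)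
  let g' : Matrix (Fin n) (Fin n) ℤ := fun i j =>
    (if i = j then 1 else 0) + (-e * u i) * (if j = i₀ then 1 else 0)
  have hg : g * g' = 1 := by
    ext i j
    rw [Matrix.mul_apply, Matrix.one_apply]
    simp only [g, g']
    rw [Finset.sum_congr rfl fun l _ => aux (i = l) (l = i₀) (u i) _, Finset.sum_add_distrib, Finset.sum_ite_eq,
      Finset.sum_ite_eq', if_pos (Finset.mem_univ _), if_pos (Finset.mem_univ _), hui]
    by_cases h3 : j = i₀
    · subst h3
      have e3 : (if j = j then (1 : ℤ) else 0) = 1 := if_pos rfl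
      rw [e3]
      linear_combination (-(u i)) * he
    · rw [if_neg h3, if_neg (Ne.symm h3)]
      ring
  obtain ⟨D', h1, h2, h3⟩ := D.latC_conj g g' hg
    (fun i hi j => by simp only [g]; rw [hu0 i hi, zero_mul, add_zero])
    (fun i hi j => by simp only [g']; rw [hu0 i hi, mul_zero, zero_mul, add_zero])
  refine ⟨D', h1, ?_⟩
  intro i hi
  rw [h2] at hi
  rw [h3, ← Matrix.mulVec_mulVec, ← hy]
  have e2 : (g *ᵥ y) i = y i + u i * y i₀ := by
    rw [Matrix.mulVec, dotProduct]
    simp only [g, add_mul, Finset.sum_add_distrib]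
    congr 1
    · simp
    · rw [Finset.sum_eq_single i₀]
      · rw [if_pos rfl, mul_one]
      · intro l _ hl
        rw [if_neg hl, mul_zero, zero_mul]
      · intro h; exact absurd (Finset.mem_univ i₀) h
  rw [e2]
  by_cases h : i = i₀
  · rw [h, hui]
    linarith
  · have hu : u i = e * (|y i| + 1) := by
      simp only [u]; rw [if_neg (by simp [hi]), if_neg h]
    rw [hu]
    have h4 : 1 ≤ e * y i₀ := hey
    have h5 := neg_abs_le (y i)
    have h6 := abs_nonneg (y i)
    nlinarith

/-- the eigenvalue exponents have denominators dividing the order of `A` -/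
theorem dvd_b (D : LatData A r ζ) (hζ : IsPrimitiveRoot ζ r) {h : ℕ} (hh : A ^ h = 1) (i : Fin n) :
    r ∣ h * D.b i := by
  by_cases hi : D.P i = true
  · have ha : D.a ^ h = 1 := by
      have h1 := D.latC_pow_mul h
      rw [hh, mul_one] at h1
      calc D.a ^ h = D.a ^ h * (D.B * D.B') := by rw [D.hB, mul_one]
        _ = (D.a ^ h * D.B) * D.B' := by rw [mul_assoc]
        _ = 1 := by rw [h1, D.hB]
    obtain ⟨j, hj⟩ : ∃ j, D.v i j ≠ 0 := by
      by_contra hcon
      push Not at hcon
      exact D.det_v (Matrix.det_eq_zero_of_row_eq_zero i hcon)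
    set M : Matrix (Fin n) (Fin n) k := D.a.map (Int.castRingHom k) with hM
    have h1 : D.v i ᵥ* M = ζ ^ D.b i • D.v i := by
      ext l
      have := D.eig i hi l
      simpa [Matrix.vecMul, dotProduct, hM] using this
    have h2 : ∀ s : ℕ, D.v i ᵥ* (M ^ s) = (ζ ^ D.b i) ^ s • D.v i := by
      intro s
      induction s with
      | zero => rw [pow_zero, pow_zero, Matrix.vecMul_one, one_smul]
      | succ s ih => rw [pow_succ, ← Matrix.vecMul_vecMul, ih, Matrix.smul_vecMul, h1, smul_smul,
          ← pow_succ]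
    have h3 : M ^ h = 1 := by
      have := congrArg (fun X : Matrix (Fin n) (Fin n) ℤ => (Int.castRingHom k).mapMatrix X) ha
      simp only [map_pow, map_one] at this
      exact this
    have h4 := h2 h
    rw [h3, Matrix.vecMul_one] at h4
    have h5 := congrFun h4 j
    rw [Pi.smul_apply, smul_eq_mul] at h5
    have h6 : (ζ ^ D.b i) ^ h = 1 := by
      have h7 : ((ζ ^ D.b i) ^ h - 1) * D.v i j = 0 := by
        rw [sub_mul, ← h5, one_mul, sub_self]
      rcases mul_eq_zero.1 h7 with h8 | h8
      · exact sub_eq_zero.1 h8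
      · exact absurd h8 hj
    rw [← pow_mul] at h6
    rw [mul_comm]
    exact hζ.dvd_of_pow_eq_one _ h6
  · rw [D.hb' i (by simpa using hi), mul_zero]
    exact dvd_zero r

end LatData

end Pool.Agent.H50.TQ
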