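import Mathlib
import Pool.Agent.H50.TQ.Defs
import Pool.Agent.H32.Blowup

/-!
# Values of invariant functions at a monomial valuation in eigen-parameters

PROOF. Let `C = regCoord hfg ht ω`, `v = C.mv w hw`. Step 1: `τ` maps `C.B = locAt B 𝔪` into itself
(copy `sigma_pt`, `sigma_Fil` in `Pool.Agent.H32.Blowup`: if `s ∉ 𝔪` then `τ s ∉ 𝔪`) and
`C.Fil w c` into itself (`τ` maps the monomial `C.mono d` to `ζ ^ (weight w d) • C.mono d`).
Step 2: let `f ∈ C.B`, `f ≠ 0`, `τ f = f`, `v f = c` (`exists_ord`/`mv_apply`/`le_mv_iff`: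
`f ∈ Fil w c`, `f ∉ Fil w (c+1)`). `exists_lead`: there is a weighted homogeneous polynomial `P` of
weight `c` with `f - aeval C.t P ∈ Fil w (c+1)`. `τ (aeval C.t P) = ζ ^ c • aeval C.t P`. Applying `τ`:
`f - ζ ^ c • aeval C.t P ∈ Fil w (c+1)`, so `(1 - ζ ^ c) • aeval C.t P ∈ Fil w (c+1)`. If
`ζ ^ c ≠ 1` then `aeval C.t P ∈ Fil w (c+1)` and `f ∈ Fil w (c+1)`, contradiction. So `r ∣ c`.
(Alternatively copy `supp_invariant` of `Pool.Agent.H32.Blowup`, which proves the divisibility of the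
weights of all exponents by `r`, and use `C.exists_mv_eq`.)
Step 3: for general `f` write `f = a / b` with `a, b ∈ B`, `b ≠ 0`
(`IsFractionRing.div_surjective`), `N = ∏ s < r, (τ ^ s) b ∈ B` is `τ`-invariant (`τ ^ r = 1`),
nonzero, and `f * N = a * ∏_{1 ≤ s < r} (τ ^ s) b ∈ B` is `τ`-invariant; so `r` divides
`iv v (f * N)` and `iv v N`, hence `iv v f` (`iv_mul`).
-/

open scoped BigOperators Matrix

namespace Pool.Agent.H50.TQ

open Pool.Agent.H26 Pool.H32

universe u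

variable {k K L : Type u} [Field k] [Field K] [Field L] [Algebra k K] [Algebra k L]
  [Algebra K L] [IsScalarTower k K L] {n : ℕ}

section aux

variable [IsAlgClosed k] {B : Subalgebra k L} [IsFractionRing B L] {𝔪 : Ideal B} [𝔪.IsMaximal]

omit [IsFractionRing B L] in
theorem mval_pt (hfg : B.FG) (τ : L ≃ₐ[K] L)
    (hτB : ∀ b : B, ∃ b' : B, (b' : L) = τ b ∧ (b ∈ 𝔪 → b' ∈ 𝔪)) (s : B)
    (hs : s ∉ 𝔪) {s' : B} (hs' : (s' : L) = τ s) : s' ∉ 𝔪 := by
  intro h
  obtain ⟨c, hc⟩ := exists_residue_B (𝔪 := 𝔪) hfg s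
  obtain ⟨m', hm', hmpt⟩ := hτB (s - algebraMap k B c)
  have h1 := hmpt hc
  have h2 : (m' : L) = s' - algebraMap k L c := by
    rw [hm', hs']
    have h3 : ((s - algebraMap k B c : B) : L) = s - algebraMap k L c := rfl
    rw [h3, map_sub, IsScalarTower.algebraMap_apply k K L, τ.commutes]
  have h3 : m' = s' - algebraMap k B c := Subtype.ext h2
  have h4 : algebraMap k B c ∈ 𝔪 := by
    have h5 : algebraMap k B c = s' - m' := by rw [h3]; ring
    rw [h5]
    exact 𝔪.sub_mem h h1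
  have h6 : s ∈ 𝔪 := by
    have h7 : s = (s - algebraMap k B c) + algebraMap k B c := by ring
    rw [h7]
    exact 𝔪.add_mem hc h4
  exact hs h6

theorem mval_Fil (hfg : B.FG) {t : Fin n → B} (ht : IsParam B 𝔪 t)
    (ω : Module.Basis (Fin n) L (Ω[L⁄k])) (τ : L ≃ₐ[K] L)
    (hτB : ∀ b : B, ∃ b' : B, (b' : L) = τ b ∧ (b ∈ 𝔪 → b' ∈ 𝔪)) {x : L}
    (hx : x ∈ (regCoord hfg ht ω).Fil (fun _ => 1) 1) :
    τ x ∈ (regCoord hfg ht ω).Fil (fun _ => 1) 1 := by
  rw [(regCoord hfg ht ω).mem_Fil_one_iff (fun _ => one_pos)] at hx ⊢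
  obtain ⟨hx1, hx2⟩ := hx
  obtain ⟨a, s, hs, ha, e⟩ := (mem_maximalIdeal_locAt_iff (B := B) (𝔪 := 𝔪) hx1).1 hx2
  obtain ⟨a', ha', ha2⟩ := hτB a
  obtain ⟨s', hs', _⟩ := hτB s
  have hs'' := mval_pt hfg τ hτB s hs hs'
  have h1 : τ x * (s' : L) = a' := by
    rw [hs', ha', ← e, map_mul]
  have h2 : τ x ∈ locAt B 𝔪 := mem_locAt_iff.2 ⟨a', s', hs'', h1⟩
  exact ⟨h2, (mem_maximalIdeal_locAt_iff (B := B) (𝔪 := 𝔪) h2).2 ⟨a', s', hs'', ha2 ha, h1⟩⟩

theorem mval_supp (hfg : B.FG) {t : Fin n → B} (ht : IsParam B 𝔪 t)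
    (ω : Module.Basis (Fin n) L (Ω[L⁄k])) {r : ℕ} {ζ : k} (hr0 : 0 < r)
    (hζ : IsPrimitiveRoot ζ r) (τ : L ≃ₐ[K] L) {w : Fin n → ℕ}
    (hτB : ∀ b : B, ∃ b' : B, (b' : L) = τ b ∧ (b ∈ 𝔪 → b' ∈ 𝔪))
    (hτt : ∀ l, τ (t l : L) = algebraMap k L (ζ ^ w l) * t l) {f : L} (hfB : f ∈ B)
    (hf : τ f = f) {d : Fin n →₀ ℕ} (hd : d ∈ (regCoord hfg ht ω).supp f) :
    r ∣ Finsupp.weight w d := by
  classical
  set C := regCoord hfg ht ω with hC
  have hζ0 : ζ ≠ 0 := hζ.ne_zero hr0.ne'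
  let σk : L ≃ₐ[k] L := τ.restrictScalars k
  have hσc : ∀ c : k, τ (algebraMap k L c) = algebraMap k L c := fun c => σk.commutes c
  have hconj : ∀ (l : Fin n) (x : L), τ (C.D l x) =
      algebraMap k L (ζ ^ w l)⁻¹ * C.D l (τ x) := by
    intro l x
    have h1 : conjDer σk (C.D l) = algebraMap k L (ζ ^ w l)⁻¹ • C.D l := by
      apply derivation_eq hfg ht
      intro i
      have h2 : σk.symm (t i : L) = algebraMap k L (ζ ^ w i)⁻¹ * t i := by
        rw [AlgEquiv.symm_apply_eq, map_mul, AlgEquiv.commutes]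
        change _ = _ * τ (t i : L)
        rw [hτt, ← mul_assoc, ← map_mul, inv_mul_cancel₀ (pow_ne_zero _ hζ0), map_one, one_mul]
      rw [conjDer_apply, h2, Derivation.leibniz, Derivation.map_algebraMap, smul_zero, add_zero,
        smul_eq_mul, Derivation.smul_apply, smul_eq_mul]
      have h3 : C.D l (t i : L) = if i = l then 1 else 0 := C.D_t i l
      rw [h3]
      by_cases hil : i = l
      · subst hil
        rw [if_pos rfl, mul_one, AlgEquiv.commutes]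
      · rw [if_neg hil, mul_zero, mul_zero, map_zero]
    have h2 := congrArg (fun D' : Derivation k L L => D' (τ x)) h1
    simp only [Derivation.smul_apply, smul_eq_mul] at h2
    rw [conjDer_apply] at h2
    have h3 : σk.symm (τ x) = x := σk.symm_apply_apply x
    rw [h3] at h2
    exact h2
  have hDl : ∀ (l : List (Fin n)) (x : L), τ (C.Dl l x) =
      algebraMap k L (ζ ^ (Finsupp.weight w (RegCoord.cnt l)))⁻¹ * C.Dl l (τ x) := by
    intro l
    induction l with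
    | nil => intro x; simp [RegCoord.Dl, RegCoord.cnt]
    | cons j l ih =>
      intro x
      rw [RegCoord.Dl_cons, hconj, ih, Derivation.leibniz, Derivation.map_algebraMap, smul_zero,
        add_zero, smul_eq_mul, RegCoord.Dl_cons, RegCoord.cnt_cons, map_add,
        Finsupp.weight_single, one_smul, ← mul_assoc, ← map_mul, pow_add, mul_inv]
  obtain ⟨l, hl⟩ := RegCoord.exists_cnt d
  have h1 := hDl l f
  rw [hf, hl] at h1
  set y := C.Dl l f with hy
  have hyF : y ∉ C.Fil (fun _ => 1) 1 := hd l hl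
  have hyB : y ∈ C.B := C.Dl_mem_B l (le_locAt hfB)
  obtain ⟨c, hc⟩ := C.exists_const (w := fun _ => 1) (fun _ => one_pos) hyB
  have hc0 : c ≠ 0 := by
    rintro rfl
    rw [map_zero, sub_zero] at hc
    exact hyF hc
  have h2 := mval_Fil hfg ht ω τ hτB hc
  rw [map_sub, hσc, h1] at h2
  set q : k := (ζ ^ (Finsupp.weight w d))⁻¹ with hq
  have h3 : algebraMap k L ((1 - q) * c) ∈ C.Fil (fun _ => 1) 1 := by
    have e : algebraMap k L ((1 - q) * c) = algebraMap k L q * (y - algebraMap k L c) -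
        (algebraMap k L q * y - algebraMap k L c) := by
      rw [map_mul, map_sub, map_one]; ring
    rw [e]
    exact Submodule.sub_mem _ (C.mul_mem_Fil_left (Subalgebra.algebraMap_mem _ _) hc) h2
  have h4 := C.algebraMap_mem_Fil_one (fun _ => one_pos) h3
  have h5 : q = 1 := by
    have h6 := (mul_eq_zero.1 h4).resolve_right hc0
    exact (sub_eq_zero.1 h6).symm
  have h7 : ζ ^ (Finsupp.weight w d) = 1 := by
    rw [hq, inv_eq_one] at h5
    exact h5
  exact hζ.dvd_of_pow_eq_one _ h7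

end aux

/-- the values of the `τ`-invariant functions are divisible by `r` -/
theorem dvd_of_fixed [IsAlgClosed k] [CharZero k] {B : Subalgebra k L} [IsFractionRing B L]
    {𝔪 : Ideal B} [𝔪.IsMaximal] (hfg : B.FG) {t : Fin n → B} (ht : IsParam B 𝔪 t)
    (ω : Module.Basis (Fin n) L (Ω[L⁄k])) {w : Fin n → ℕ} (hw : ∀ l, 0 < w l) {r : ℕ} (hr : 0 < r)
    {ζ : k} (hζ : IsPrimitiveRoot ζ r) (τ : L ≃ₐ[K] L) (hτr : τ ^ r = 1)
    (hτB : ∀ b : B, ∃ b' : B, (b' : L) = τ b ∧ (b ∈ 𝔪 → b' ∈ 𝔪))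
    (hτt : ∀ l, τ (t l : L) = algebraMap k L (ζ ^ w l) * t l) (f : L) (hf : f ≠ 0)
    (hτf : τ f = f) : (r : ℤ) ∣ iv ((regCoord hfg ht ω).mv w hw) f := by
  classical
  have hB : ∀ g : L, g ∈ B → g ≠ 0 → τ g = g → (r : ℤ) ∣ iv ((regCoord hfg ht ω).mv w hw) g := by
    intro g hg hg0 hτg
    obtain ⟨d, hd, hv⟩ := (regCoord hfg ht ω).exists_mv_eq hw (le_locAt hg) hg0
    rw [iv_eq_of _ hv]
    exact_mod_cast mval_supp hfg ht ω hr hζ τ hτB hτt hg hτg hd
  obtain ⟨a, b, hb, hab⟩ := IsFractionRing.div_surjective B f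
  have hb0 : b ≠ 0 := nonZeroDivisors.ne_zero hb
  have hbL : (b : L) ≠ 0 := fun h => hb0 (Subtype.ext h)
  have hab' : f * (b : L) = (a : L) := by
    have h1 : f = (a : L) / (b : L) := hab.symm
    rw [h1]
    field_simp
  have hpow : ∀ s : ℕ, (τ ^ s) (b : L) ∈ B := by
    intro s
    induction s with
    | zero => exact b.2
    | succ s ih =>
      obtain ⟨b', hb', -⟩ := hτB ⟨(τ ^ s) (b : L), ih⟩
      rw [pow_succ', AlgEquiv.mul_apply]
      have h1 : τ ((τ ^ s) (b : L)) = (b' : L) := hb'.symm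
      rw [h1]
      exact b'.2
  have hne : ∀ s : ℕ, (τ ^ s) (b : L) ≠ 0 := fun s h => hbL ((map_eq_zero_iff _ (τ ^ s).injective).1 h)
  obtain ⟨r', rfl⟩ : ∃ r', r = r' + 1 := ⟨r - 1, by omega⟩
  set N : L := ∏ s ∈ Finset.range (r' + 1), (τ ^ s) (b : L) with hN
  have hN1 : N = (∏ s ∈ Finset.range r', (τ ^ (s + 1)) (b : L)) * (b : L) := by
    rw [hN, Finset.prod_range_succ']
    simp
  have hN0 : N ≠ 0 := Finset.prod_ne_zero_iff.2 fun s _ => hne s
  have hNB : N ∈ B := Subalgebra.prod_mem _ fun s _ => hpow s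
  have hτN : τ N = N := by
    rw [hN, map_prod]
    have h1 : ∀ s, τ ((τ ^ s) (b : L)) = (τ ^ (s + 1)) (b : L) := by
      intro s
      rw [pow_succ', AlgEquiv.mul_apply]
    simp only [h1]
    rw [Finset.prod_range_succ, Finset.prod_range_succ' (fun s => (τ ^ s) (b : L)), hτr]
    simp
  have hfN : f * N = (∏ s ∈ Finset.range r', (τ ^ (s + 1)) (b : L)) * (a : L) := by
    rw [hN1, ← hab']
    ring
  have hfNB : f * N ∈ B := by
    rw [hfN]
    exact B.mul_mem (Subalgebra.prod_mem _ fun s _ => hpow (s + 1)) a.2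
  have h1 := hB N hNB hN0 hτN
  have h2 := hB (f * N) hfNB (mul_ne_zero hf hN0) (by rw [map_mul, hτf, hτN])
  rw [iv_mul _ hf hN0] at h2
  exact (dvd_add_left h1).1 h2

end Pool.Agent.H50.TQ
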