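import Mathlib
import Pool.Agent.H50.TQ.Chart
import Pool.Agent.H32.Blowup

/-!
# Monomial valuations in the chart: values of monomials and of the logarithmic form

PROOFS. `C = regCoord (chartAlg_fg X P) ht ω`, `v = C.mv g hg`; `C.B = locAt (chartAlg) (chartPt)`.
`iv_mv_X`: `v` is nonnegative on `C.B` (`mv_nonneg`). For `P i = true`, `X i` and `(X i)⁻¹` are in the
chart (`X_mem`, and `(X i)⁻¹` is a generator), so `iv v (X i) = 0`. For `P i = false`:
`t i = X i * u` with `u ∉ chartPt`, so `u` and `u⁻¹` are in `C.B` (`inv_mem_locAt`), `v u = 0` and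
`v (t i) = g i` (`mv_t`).
`iv_mv_det`: `dlog (X i) = (X i)⁻¹ • D (X i)` by definition, so the determinant is
`(∏ i, (X i)⁻¹) * dtBasis.det (fun i => D (X i))`, and the value of the first factor is the right
side. The second factor `δ` has value `0`: `D (X i) = D (X i - eps i)`; let `dt = dtBasis .. ht ω`,
`dt' = dtBasis .. (isParam_chart ..) ω` be the bases of the differentials of the two systems of
parameters `t` and `chartParam`. `δ = dt.det dt'` and `δ' = dt'.det dt` satisfy `δ * δ' = 1`
(`det_change`, `Module.Basis.det_self`). By `det_dt`, `δ` is the determinant of the matrix of the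
`C.D j (X i)`, which are in `C.B` (`C.D_mem`), so `v δ ≥ 0`; in the same way `δ'` is a determinant of
elements of the same local ring (`D_mem` of the `regCoord` of the second system of parameters, whose
`B` is the same `locAt`), so `v δ' ≥ 0`. Hence `v δ = 0`.
-/

open scoped BigOperators Matrix
open KaehlerDifferential

namespace Pool.Agent.H50.TQ

open Pool.Agent.H26 Pool.H32

universe u

variable {k L : Type u} [Field k] [Field L] [Algebra k L] {n : ℕ}

/-- units of the local ring have value zero -/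
theorem iv_unit_zero [CharZero k] (C : RegCoord k L n) {g : Fin n → ℕ} (hg : ∀ l, 0 < g l) {u : L}
    (hu0 : u ≠ 0) (hu : u ∈ C.B) (hu' : u⁻¹ ∈ C.B) : iv (C.mv g hg) u = 0 := by
  have h1 := (nonneg_iff (C.mv g hg) hu0).1 (C.mv_nonneg hg hu)
  have h2 := (nonneg_iff (C.mv g hg) (inv_ne_zero hu0)).1 (C.mv_nonneg hg hu')
  rw [iv_inv _ hu0] at h2
  omega

/-- values of the coordinates -/
theorem iv_mv_X [IsAlgClosed k] [CharZero k] {X : Fin n → L} (hX : IsTorusCoord k X)
    (P : Fin n → Bool) [IsFractionRing (chartAlg k X P) L] [(chartPt k X P).IsMaximal]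
    {t : Fin n → chartAlg k X P} (ht : IsParam (chartAlg k X P) (chartPt k X P) t)
    (htX : ∀ i, P i = false → ∃ u : chartAlg k X P, u ∉ chartPt k X P ∧ (t i : L) = X i * u)
    (ω : Module.Basis (Fin n) L (Ω[L⁄k])) {g : Fin n → ℕ} (hg : ∀ l, 0 < g l) (i : Fin n) :
    iv ((regCoord (chartAlg_fg X P) ht ω).mv g hg) (X i) = if P i = true then 0 else (g i : ℤ) := by
  have hX0 : X i ≠ 0 := hX.1.ne_zero i
  cases hP : P i with
  | true =>
    rw [if_pos rfl]
    refine iv_unit_zero _ hg hX0 ?_ ?_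
    · exact le_locAt (𝔪 := chartPt k X P) (X_mem X P i)
    · exact le_locAt (𝔪 := chartPt k X P) (Algebra.subset_adjoin (Or.inr ⟨i, hP, rfl⟩))
  | false =>
    rw [if_neg (by decide)]
    obtain ⟨u, hu, htu⟩ := htX i hP
    have ht0 : ((t i : chartAlg k X P) : L) ≠ 0 := (regCoord (chartAlg_fg X P) ht ω).t_ne_zero i
    have hu0 : (u : L) ≠ 0 := by
      intro h
      rw [htu, h, mul_zero] at ht0
      exact ht0 rfl
    have h1 : iv ((regCoord (chartAlg_fg X P) ht ω).mv g hg) (t i : L) = g i :=
      iv_eq_of _ ((regCoord (chartAlg_fg X P) ht ω).mv_t hg i)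
    have h2 : iv ((regCoord (chartAlg_fg X P) ht ω).mv g hg) (u : L) = 0 :=
      iv_unit_zero _ hg hu0 (le_locAt (𝔪 := chartPt k X P) u.2) (inv_mem_locAt hu)
    rw [htu, iv_mul _ hX0 hu0, h2, add_zero] at h1
    exact h1

/-- the determinant of the differentials of elements of the local ring is in the local ring -/
theorem det_mem_locAt [IsAlgClosed k] {B : Subalgebra k L} [IsFractionRing B L] {𝔪 : Ideal B}
    [𝔪.IsMaximal] (hfg : B.FG) {t : Fin n → B} (ht : IsParam B 𝔪 t)
    (ω : Module.Basis (Fin n) L (Ω[L⁄k])) {y : Fin n → L} (hy : ∀ i, y i ∈ B) :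
    (dtBasis hfg ht ω).det (fun i => D k L (y i)) ∈ locAt B 𝔪 := by
  rw [det_dt, Matrix.det_apply']
  refine Subalgebra.sum_mem _ fun σ _ => ?_
  refine Subalgebra.mul_mem _ (Subalgebra.intCast_mem _ _) (Subalgebra.prod_mem _ fun i _ => ?_)
  exact (regCoord hfg ht ω).D_mem _ _ (le_locAt (hy _))

/-- the value of the form `dlog X_1 ∧ ⋯ ∧ dlog X_n` -/
theorem iv_mv_det [IsAlgClosed k] [CharZero k] {X : Fin n → L} (hX : IsTorusCoord k X)
    (P : Fin n → Bool) [IsFractionRing (chartAlg k X P) L] [(chartPt k X P).IsMaximal]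
    {t : Fin n → chartAlg k X P} (ht : IsParam (chartAlg k X P) (chartPt k X P) t)
    (htX : ∀ i, P i = false → ∃ u : chartAlg k X P, u ∉ chartPt k X P ∧ (t i : L) = X i * u)
    (ω : Module.Basis (Fin n) L (Ω[L⁄k])) {g : Fin n → ℕ} (hg : ∀ l, 0 < g l) :
    iv ((regCoord (chartAlg_fg X P) ht ω).mv g hg)
      ((dtBasis (chartAlg_fg X P) ht ω).det fun i => dlog k (X i)) =
      -∑ i, if P i = true then 0 else (g i : ℤ) := by
  classical
  have hX0 : ∀ i, X i ≠ 0 := fun i => hX.1.ne_zero i
  have hpt : chartPt k X P ≠ ⊤ := Ideal.IsPrime.ne_top inferInstance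
  have ht' := isParam_chart X P hpt
  -- the second basis
  have hD : (fun i => D k L (X i)) = ⇑(dtBasis (chartAlg_fg X P) ht' ω) := by
    funext i
    rw [dtBasis_apply]
    have h1 : ((chartParam k X P i : chartAlg k X P) : L) = X i - ((eps P i : ℤ) : L) := by
      unfold chartParam
      simp
    rw [h1, map_sub]
    have h2 : D k L ((eps P i : ℤ) : L) = 0 := by
      rw [← map_intCast (algebraMap k L) (eps P i), Derivation.map_algebraMap]
    rw [h2, sub_zero]
  have hdt : ∀ {t' : Fin n → chartAlg k X P} (h' : IsParam (chartAlg k X P) (chartPt k X P) t'),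
      (fun i => D k L ((t' i : chartAlg k X P) : L)) = ⇑(dtBasis (chartAlg_fg X P) h' ω) := by
    intro t' h'
    funext i
    rw [dtBasis_apply]
  have hδ : (dtBasis (chartAlg_fg X P) ht ω).det (fun i => D k L (X i)) ∈
      locAt (chartAlg k X P) (chartPt k X P) :=
    det_mem_locAt _ ht ω (fun i => X_mem X P i)
  have hδ' : (dtBasis (chartAlg_fg X P) ht' ω).det
      (fun i => D k L ((t i : chartAlg k X P) : L)) ∈ locAt (chartAlg k X P) (chartPt k X P) :=
    det_mem_locAt _ ht' ω (fun i => (t i).2)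
  have hmul : (dtBasis (chartAlg_fg X P) ht ω).det (fun i => D k L (X i)) *
      (dtBasis (chartAlg_fg X P) ht' ω).det (fun i => D k L ((t i : chartAlg k X P) : L)) = 1 := by
    rw [hD, hdt ht, ← det_change]
    exact Module.Basis.det_self _
  have hδ0 : (dtBasis (chartAlg_fg X P) ht ω).det (fun i => D k L (X i)) ≠ 0 :=
    left_ne_zero_of_mul_eq_one hmul
  have hinv : ((dtBasis (chartAlg_fg X P) ht ω).det (fun i => D k L (X i)))⁻¹ =
      (dtBasis (chartAlg_fg X P) ht' ω).det (fun i => D k L ((t i : chartAlg k X P) : L)) :=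
    inv_eq_of_mul_eq_one_right hmul
  have hv : iv ((regCoord (chartAlg_fg X P) ht ω).mv g hg)
      ((dtBasis (chartAlg_fg X P) ht ω).det (fun i => D k L (X i))) = 0 :=
    iv_unit_zero _ hg hδ0 hδ (by rw [hinv]; exact hδ')
  have hsplit : ((dtBasis (chartAlg_fg X P) ht ω).det fun i => dlog k (X i)) =
      (∏ i, (X i)⁻¹) * (dtBasis (chartAlg_fg X P) ht ω).det (fun i => D k L (X i)) := by
    unfold dlog
    have h3 := (dtBasis (chartAlg_fg X P) ht ω).det.map_smul_univ (fun i => (X i)⁻¹)
      (fun i => D k L (X i))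
    rw [smul_eq_mul] at h3
    exact h3
  have hprod : iv ((regCoord (chartAlg_fg X P) ht ω).mv g hg) (∏ i, (X i)⁻¹) =
      -∑ i, if P i = true then 0 else (g i : ℤ) := by
    have key : ∀ s : Finset (Fin n), iv ((regCoord (chartAlg_fg X P) ht ω).mv g hg)
        (∏ i ∈ s, (X i)⁻¹) = -∑ i ∈ s, if P i = true then 0 else (g i : ℤ) := by
      intro s
      induction s using Finset.induction_on with
      | empty => simp
      | insert a s ha ih =>
        rw [Finset.prod_insert ha, Finset.sum_insert ha, iv_mul _ (inv_ne_zero (hX0 a))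
          (Finset.prod_ne_zero_iff.2 fun i _ => inv_ne_zero (hX0 i)), ih, iv_inv _ (hX0 a),
          iv_mv_X hX P ht htX ω hg a]
        ring
    exact key Finset.univ
  rw [hsplit, iv_mul _ (Finset.prod_ne_zero_iff.2 fun i _ => inv_ne_zero (hX0 i)) hδ0, hv,
    add_zero, hprod]

end Pool.Agent.H50.TQ
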