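import Mathlib
import Pool.Agent.H50.TQ.Chart

/-!
# The automorphism in the chart

PROOFS. `tau_monom`: `τ (monom X m) = ∏ i, (ζ ^ (w' i) • monom X (a i)) ^ (m i)`.
`tau_pow_X`: induction on `s`. First `(D.a ^ s) i j = if i = j then 1 else 0` for `P j = false`
(from `D.ha`: `(a ^ (s+1)) i j = ∑ l, (a ^ s) i l * a l j`). Then `(a ^ s) i ⬝ᵥ w' = w' i`: only the
`j` with `P j = false` contribute (`hw'`), and there the row is the unit row. So
`τ (ζ ^ (s * w' i) • monom X ((a ^ s) i)) = ζ ^ (s * w' i + w' i) • monom X ((a ^ (s+1)) i)`.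
`chart_stable`: `τ` maps the generators of the chart into the chart: `τ (X i) = ζ ^ (w' i) • X ^ (a i)`
and `a i j ≥ 0` for `P j = false` (`D.ha`); for `P i = true`, `τ ((X i)⁻¹) = X ^ (- a i)` (up to a
constant), and `a i j = 0` for `P j = false`: use `monom_mem`. So `τ` maps the chart into itself
(`Algebra.adjoin_induction`; or `Subalgebra.map`/`adjoin_le` for the comap). The point: it is
generated by the `chartParam i`, `τ (X i) - 1 = X ^ (a i) - 1 ∈ chartPt` for `P i = true` (a monomial
supported on `P`; it is enough to show that `X ^ m - 1 ∈ chartPt` for `m` supported on `P`, by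
induction; or cite `exists_expansion` of Chart2 after importing it), and for `P i = false`,
`τ (X i) = ζ ^ (w' i) • X i * X ^ (a i - Pi.single i 1)` with `a i - Pi.single i 1` supported on `P`,
so it is a multiple of `X i = chartParam i`.
-/

open scoped BigOperators Matrix

namespace Pool.Agent.H50.TQ

open Pool.Agent.H26 Pool.H32

universe u

variable {k K L : Type u} [Field k] [Field K] [Field L] [Algebra k K] [Algebra k L]
  [Algebra K L] [IsScalarTower k K L] {n : ℕ}

theorem Param_monom_vecMul {X : Fin n → L} (hX0 : ∀ i, X i ≠ 0) (a : Matrix (Fin n) (Fin n) ℤ)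
    (m : Fin n → ℤ) : ∏ i, (monom X (a i)) ^ (m i) = monom X (m ᵥ* a) := by
  unfold monom
  have h1 : ∀ i, (∏ j, X j ^ a i j) ^ m i = ∏ j, X j ^ (m i * a i j) := by
    intro i
    rw [← Finset.prod_zpow]
    refine Finset.prod_congr rfl fun j _ => ?_
    rw [← zpow_mul, mul_comm]
  simp_rw [h1]
  rw [Finset.prod_comm]
  refine Finset.prod_congr rfl fun j _ => ?_
  have h2 : ∀ s : Finset (Fin n), ∏ i ∈ s, X j ^ (m i * a i j) = X j ^ (∑ i ∈ s, m i * a i j) := by
    intro s
    classical
    induction s using Finset.induction_on with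
    | empty => simp
    | insert x s hx ih => rw [Finset.prod_insert hx, Finset.sum_insert hx, ih, zpow_add₀ (hX0 j)]
  rw [h2]
  rfl

theorem Param_const_prod {ζ : k} (hζ0 : ζ ≠ 0) (w' m : Fin n → ℤ) :
    ∏ i, (algebraMap k L (ζ ^ (w' i))) ^ (m i) = algebraMap k L (ζ ^ (m ⬝ᵥ w')) := by
  have h1 : ∀ i, (algebraMap k L (ζ ^ (w' i))) ^ (m i) = algebraMap k L (ζ ^ (m i * w' i)) := by
    intro i
    rw [← map_zpow₀, ← zpow_mul, mul_comm]
  simp_rw [h1]
  rw [← map_prod]
  congr 1
  have h2 : ∀ s : Finset (Fin n), ∏ i ∈ s, ζ ^ (m i * w' i) = ζ ^ (∑ i ∈ s, m i * w' i) := by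
    intro s
    classical
    induction s using Finset.induction_on with
    | empty => simp
    | insert x s hx ih => rw [Finset.prod_insert hx, Finset.sum_insert hx, ih, zpow_add₀ hζ0]
  rw [h2]
  rfl

theorem tau_monom {X : Fin n → L} (hX0 : ∀ i, X i ≠ 0) {τ : L ≃ₐ[K] L}
    {a : Matrix (Fin n) (Fin n) ℤ} {ζ : k} (hζ0 : ζ ≠ 0) (w' : Fin n → ℤ)
    (hact : ∀ i, τ (X i) = algebraMap k L (ζ ^ (w' i)) * monom X (a i)) (m : Fin n → ℤ) :
    τ (monom X m) = algebraMap k L (ζ ^ (m ⬝ᵥ w')) * monom X (m ᵥ* a) := by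
  rw [← Param_monom_vecMul hX0 a m, ← Param_const_prod (L := L) hζ0 w' m,
    ← Finset.prod_mul_distrib]
  conv_lhs => unfold monom
  rw [map_prod]
  refine Finset.prod_congr rfl fun i _ => ?_
  rw [map_zpow₀, hact i, mul_zpow]

/-- the powers of `τ` on the coordinates -/
theorem tau_pow_X {X : Fin n → L} (hX0 : ∀ i, X i ≠ 0) {τ : L ≃ₐ[K] L}
    {A : Matrix (Fin n) (Fin n) ℤ} {r : ℕ} {ζ : k} (hζ0 : ζ ≠ 0) (D : LatData A r ζ)
    (w' : Fin n → ℤ) (hw' : ∀ i, D.P i = true → w' i = 0)
    (hact : ∀ i, τ (X i) = algebraMap k L (ζ ^ (w' i)) * monom X (D.a i)) (s : ℕ) (i : Fin n) :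
    (τ ^ s) (X i) = algebraMap k L (ζ ^ ((s : ℤ) * w' i)) * monom X ((D.a ^ s) i) ∧
      ∀ j, D.P j = false → (D.a ^ s) i j = if i = j then 1 else 0 := by
  induction s with
  | zero =>
    refine ⟨?_, fun j _ => ?_⟩
    · rw [pow_zero, pow_zero, Nat.cast_zero, zero_mul, zpow_zero, map_one, one_mul]
      change X i = _
      unfold monom
      rw [Finset.prod_eq_single i]
      · rw [Matrix.one_apply_eq, zpow_one]
      · intro j _ hj
        rw [Matrix.one_apply_ne (Ne.symm hj), zpow_zero]
      · intro h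
        exact absurd (Finset.mem_univ i) h
    · rw [pow_zero, Matrix.one_apply]
  | succ s ih =>
    obtain ⟨ih1, ih2⟩ := ih
    have hdot : (D.a ^ s) i ⬝ᵥ w' = w' i := by
      change ∑ l, (D.a ^ s) i l * w' l = w' i
      have h1 : ∀ l, (D.a ^ s) i l * w' l = if i = l then w' l else 0 := by
        intro l
        by_cases hl : D.P l = true
        · rw [hw' l hl, mul_zero]
          simp
        · rw [ih2 l (by simpa using hl)]
          split_ifs <;> simp
      simp_rw [h1]
      rw [Finset.sum_ite_eq Finset.univ i, if_pos (Finset.mem_univ _)]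
    refine ⟨?_, fun j hj => ?_⟩
    · rw [pow_succ' τ s]
      change τ ((τ ^ s) (X i)) = _
      rw [ih1, map_mul, sigma_const, tau_monom hX0 hζ0 w' hact, hdot, ← mul_assoc, ← map_mul,
        ← zpow_add₀ hζ0, pow_succ D.a s, Matrix.mul_apply_eq_vecMul]
      congr 3
      push_cast
      ring
    · rw [pow_succ, Matrix.mul_apply]
      have h1 : ∀ l, (D.a ^ s) i l * D.a l j = if l = j then (D.a ^ s) i l else 0 := by
        intro l
        rw [D.ha l j hj]
        split_ifs <;> simp
      simp_rw [h1]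
      rw [Finset.sum_ite_eq' Finset.univ j, if_pos (Finset.mem_univ _)]
      exact ih2 j hj

/-- functions of the chart with value `1` at the point -/
def ParamUnit (k : Type u) [Field k] {L : Type u} [Field L] [Algebra k L] {n : ℕ} (X : Fin n → L)
    (P : Fin n → Bool) (y : L) : Prop :=
  ∃ b : chartAlg k X P, (b : L) = y ∧ b - 1 ∈ chartPt k X P

theorem ParamUnit_one (X : Fin n → L) (P : Fin n → Bool) : ParamUnit k X P 1 :=
  ⟨1, rfl, by rw [sub_self]; exact zero_mem _⟩

theorem ParamUnit_mul {X : Fin n → L} {P : Fin n → Bool} {y z : L} (hy : ParamUnit k X P y)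
    (hz : ParamUnit k X P z) : ParamUnit k X P (y * z) := by
  obtain ⟨b, rfl, hb⟩ := hy
  obtain ⟨c, rfl, hc⟩ := hz
  refine ⟨b * c, rfl, ?_⟩
  have h : b * c - 1 = c * (b - 1) + (c - 1) := by ring
  rw [h]
  exact add_mem (Ideal.mul_mem_left _ _ hb) hc

theorem ParamUnit_pow {X : Fin n → L} {P : Fin n → Bool} {y : L} (hy : ParamUnit k X P y)
    (s : ℕ) : ParamUnit k X P (y ^ s) := by
  induction s with
  | zero => rw [pow_zero]; exact ParamUnit_one X P
  | succ s ih => rw [pow_succ]; exact ParamUnit_mul ih hy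

theorem ParamUnit_X {X : Fin n → L} {P : Fin n → Bool} {i : Fin n} (hi : P i = true) :
    ParamUnit k X P (X i) := by
  refine ⟨⟨X i, X_mem X P i⟩, rfl, ?_⟩
  have h : chartParam k X P i = ⟨X i, X_mem X P i⟩ - 1 := by
    unfold chartParam eps
    rw [if_pos hi, Int.cast_one]
  rw [← h]
  exact Ideal.subset_span ⟨i, rfl⟩

theorem ParamUnit_X_inv {X : Fin n → L} (hX0 : ∀ i, X i ≠ 0) {P : Fin n → Bool} {i : Fin n}
    (hi : P i = true) : ParamUnit k X P (X i)⁻¹ := by
  obtain ⟨b, hb, hb'⟩ := ParamUnit_X (k := k) (X := X) hi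
  refine ⟨⟨(X i)⁻¹, X_inv_mem X P hi⟩, rfl, ?_⟩
  have h : (⟨(X i)⁻¹, X_inv_mem X P hi⟩ : chartAlg k X P) - 1 =
      -⟨(X i)⁻¹, X_inv_mem X P hi⟩ * (b - 1) := by
    apply Subtype.ext
    change (X i)⁻¹ - 1 = -(X i)⁻¹ * ((b : L) - 1)
    rw [hb, mul_sub, neg_mul, inv_mul_cancel₀ (hX0 i)]
    ring
  rw [h]
  exact Ideal.mul_mem_left _ _ hb'

theorem ParamUnit_monom {X : Fin n → L} (hX0 : ∀ i, X i ≠ 0) {P : Fin n → Bool}
    {m : Fin n → ℤ} (hm : ∀ i, P i = false → m i = 0) : ParamUnit k X P (monom X m) := by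
  unfold monom
  refine Finset.prod_induction _ (ParamUnit k X P) (fun _ _ h1 h2 => ParamUnit_mul h1 h2)
    (ParamUnit_one X P) fun i _ => ?_
  by_cases hi : P i = true
  · rcases le_or_gt 0 (m i) with h | h
    · obtain ⟨a, ha⟩ := Int.eq_ofNat_of_zero_le h
      rw [ha, zpow_natCast]
      exact ParamUnit_pow (ParamUnit_X hi) a
    · obtain ⟨a, ha⟩ := Int.eq_ofNat_of_zero_le (by omega : 0 ≤ -(m i))
      have ha' : m i = -((a : ℕ) : ℤ) := by
        have : (Int.ofNat a : ℤ) = ((a : ℕ) : ℤ) := rfl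
        omega
      rw [ha', zpow_neg, zpow_natCast, ← inv_pow]
      exact ParamUnit_pow (ParamUnit_X_inv hX0 hi) a
  · rw [hm i (by simpa using hi), zpow_zero]
    exact ParamUnit_one X P

theorem Param_chart_mem {X : Fin n → L} (hX0 : ∀ i, X i ≠ 0) {τ : L ≃ₐ[K] L}
    {A : Matrix (Fin n) (Fin n) ℤ} {r : ℕ} {ζ : k} (D : LatData A r ζ)
    (w' : Fin n → ℤ)
    (hact : ∀ i, τ (X i) = algebraMap k L (ζ ^ (w' i)) * monom X (D.a i)) {y : L}
    (hy : y ∈ chartAlg k X D.P) : τ y ∈ chartAlg k X D.P := by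
  unfold chartAlg at hy
  induction hy using Algebra.adjoin_induction with
  | mem x hx =>
    rcases hx with ⟨i, rfl⟩ | ⟨i, hi, rfl⟩
    · rw [hact i]
      refine Subalgebra.mul_mem _ (Subalgebra.algebraMap_mem _ _) (monom_mem fun j hj => ?_)
      rw [D.ha i j hj]
      split_ifs <;> norm_num
    · rw [map_inv₀, hact i, mul_inv, ← map_inv₀]
      refine Subalgebra.mul_mem _ (Subalgebra.algebraMap_mem _ _) ?_
      have h1 : (monom X (D.a i))⁻¹ = monom X (-(D.a i)) := by
        have h2 : monom X (D.a i) * monom X (-(D.a i)) = 1 := by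
          rw [← monom_add hX0, add_neg_cancel, monom_zero]
        exact inv_eq_of_mul_eq_one_right h2
      rw [h1]
      refine monom_mem fun j hj => ?_
      have hij : i ≠ j := by
        rintro rfl
        rw [hi] at hj
        exact absurd hj (by simp)
      rw [Pi.neg_apply, D.ha i j hj, if_neg hij, neg_zero]
  | algebraMap c =>
    rw [sigma_const]
    exact Subalgebra.algebraMap_mem _ _
  | add x y hx hy h1 h2 =>
    rw [map_add]
    exact Subalgebra.add_mem _ h1 h2
  | mul x y hx hy h1 h2 =>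
    rw [map_mul]
    exact Subalgebra.mul_mem _ h1 h2

/-- the chart and its point are stable under `τ` -/
theorem chart_stable {X : Fin n → L} (hX0 : ∀ i, X i ≠ 0) {τ : L ≃ₐ[K] L}
    {A : Matrix (Fin n) (Fin n) ℤ} {r : ℕ} {ζ : k} (hζ0 : ζ ≠ 0) (D : LatData A r ζ)
    (w' : Fin n → ℤ) (hw' : ∀ i, D.P i = true → w' i = 0)
    (hact : ∀ i, τ (X i) = algebraMap k L (ζ ^ (w' i)) * monom X (D.a i))
    (b : chartAlg k X D.P) :
    ∃ b' : chartAlg k X D.P, (b' : L) = τ b ∧ (b ∈ chartPt k X D.P → b' ∈ chartPt k X D.P) := by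
  refine ⟨⟨τ b, Param_chart_mem hX0 D w' hact b.2⟩, rfl, fun hb => ?_⟩
  have key : ∃ b' : chartAlg k X D.P, b' ∈ chartPt k X D.P ∧ (b' : L) = τ b := by
    unfold chartPt at hb
    induction hb using Submodule.span_induction with
    | mem x h =>
      obtain ⟨i, rfl⟩ := h
      by_cases hi : D.P i = true
      · obtain ⟨c, hc, hc'⟩ := ParamUnit_monom (k := k) hX0 (P := D.P) (m := D.a i) (fun j hj => by
          have hij : i ≠ j := by
            rintro rfl
            rw [hi] at hj
            exact absurd hj (by simp)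
          rw [D.ha i j hj, if_neg hij])
        refine ⟨c - 1, hc', ?_⟩
        have h1 : (chartParam k X D.P i : L) = X i - 1 := by
          unfold chartParam eps
          rw [if_pos hi, Int.cast_one]
          rfl
        rw [h1, map_sub, map_one, hact i, hw' i hi, zpow_zero, map_one, one_mul, ← hc]
        rfl
      · have hi' : D.P i = false := by simpa using hi
        have hmem : monom X (D.a i - Pi.single i 1) ∈ chartAlg k X D.P := by
          refine monom_mem fun j hj => ?_
          rw [Pi.sub_apply, D.ha i j hj]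
          by_cases hij : i = j
          · subst hij
            simp
          · rw [if_neg hij, Pi.single_eq_of_ne (Ne.symm hij)]
            simp
        refine ⟨(algebraMap k (chartAlg k X D.P) (ζ ^ (w' i)) *
          ⟨monom X (D.a i - Pi.single i 1), hmem⟩) * chartParam k X D.P i,
          Ideal.mul_mem_left _ _ (Ideal.subset_span ⟨i, rfl⟩), ?_⟩
        have h1 : (chartParam k X D.P i : L) = X i := by
          unfold chartParam eps
          rw [if_neg hi, Int.cast_zero, sub_zero]
        have h2 : monom X (D.a i) = monom X (D.a i - Pi.single i 1) * X i := by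
          have h3 : monom X (Pi.single i 1 : Fin n → ℤ) = X i := by
            unfold monom
            rw [Finset.prod_eq_single i]
            · rw [Pi.single_eq_same, zpow_one]
            · intro j _ hj
              rw [Pi.single_eq_of_ne hj, zpow_zero]
            · intro h
              exact absurd (Finset.mem_univ i) h
          conv_rhs => rw [← h3]
          rw [h3]
          conv_rhs => rw [← h3]
          rw [← monom_add hX0]
          rw [sub_add_cancel]
        change (algebraMap k L (ζ ^ (w' i)) * monom X (D.a i - Pi.single i 1)) *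
          (chartParam k X D.P i : L) = _
        rw [h1, hact i, h2]
        ring
    | zero => exact ⟨0, zero_mem _, by simp⟩
    | add x y _ _ h1 h2 =>
      obtain ⟨x', hx1, hx2⟩ := h1
      obtain ⟨y', hy1, hy2⟩ := h2
      refine ⟨x' + y', add_mem hx1 hy1, ?_⟩
      change (x' : L) + (y' : L) = τ ((x : L) + (y : L))
      rw [map_add, hx2, hy2]
    | smul c x _ h =>
      obtain ⟨x', hx1, hx2⟩ := h
      refine ⟨⟨τ c, Param_chart_mem hX0 D w' hact c.2⟩ * x', Ideal.mul_mem_left _ _ hx1, ?_⟩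
      change τ (c : L) * (x' : L) = τ ((c : L) * (x : L))
      rw [map_mul, hx2]
  obtain ⟨b', h1, h2⟩ := key
  have h3 : (⟨τ b, Param_chart_mem hX0 D w' hact b.2⟩ : chartAlg k X D.P) = b' :=
    Subtype.ext h2.symm
  rw [h3]
  exact h1

end Pool.Agent.H50.TQ
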