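import Mathlib
import Pool.Agent.H50.TQ.Param
import Pool.Agent.H50.TQ.Chart2

/-!
# Eigenfunctions as parameters

PROOF. Let `ρ = (r : k)⁻¹`. For `P i = true` put
`t i = ρ • ∑ s < r, (ζ⁻¹) ^ (s * b i) • ∑ j, v i j • (monom X ((a ^ s) j) - 1)` (`v i j = 0` for
`P j = false`). For `P j = true` we have `(τ ^ s) (X j) = monom X ((a ^ s) j)` (`tau_pow_X`,
`w' j = 0`), so `t i = ρ • ∑ s, (ζ⁻¹) ^ (s * b i) • (τ ^ s) l` with `l = ∑ j, v i j • (X j - 1)` and
`τ (t i) = ζ ^ b i • t i` by shifting the sum (`τ ^ r = 1`, `ζ ^ r = 1`; the same computation is in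
the proof of `exists_adapted` in `Pool.Agent.H32.Adapted`). For `P i = false` put
`u i = ρ • ∑ s < r, monom X ((a ^ s) i - Pi.single i 1)` (the exponents are supported on `P` by
`tau_pow_X`) and `t i = X i * u i = ρ • ∑ s, (ζ⁻¹) ^ (s * w' i) • (τ ^ s) (X i)` (zpow), so
`τ (t i) = ζ ^ (w' i) • t i` in the same way (`ζ ^ (r * w' i) = 1`).
Parameters: `isParam_of_matrix`. For `P l = true` let `h s l` be the expansion
(`exists_expansion`) of `monom X ((a ^ s) l) - 1`. For `P i = true` let
`M i j = ρ • ∑ s, (ζ⁻¹) ^ (s * b i) • ∑ l, v i l • h s l j` (sum over all `l`, put `h s l = 0` if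
`P l = false`), which is congruent modulo `chartPt` to
`ρ • ∑ s, (ζ⁻¹) ^ (s * b i) • ∑ l, v i l * (a ^ s) l j = v i j` (for `P j = true`; for `P j = false`
both sides are `0`), because `v i ᵥ* a ^ s = ζ ^ (s * b i) • v i` (induction from `D.eig`). For
`P i = false` let `M i j = if i = j then u i else 0`; `u i` is congruent to `1`, and
`chartParam i = X i`. So `M.det` is congruent to `v.det ≠ 0` (apply the ring homomorphism
`Ideal.Quotient.mk (chartPt)` and `RingHom.map_det`; a nonzero constant is not in `chartPt` by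
`chartPt_ne_top`).
-/

open scoped BigOperators Matrix

namespace Pool.Agent.H50.TQ

open Pool.Agent.H26 Pool.H32

universe u

variable {k K L : Type u} [Field k] [Field K] [Field L] [Algebra k K] [Algebra k L]
  [Algebra K L] [IsScalarTower k K L] {n : ℕ}

/-- the projection to the eigenspace with eigenvalue `ζ ^ e` -/
noncomputable def avg (τ : L ≃ₐ[K] L) (r : ℕ) (ζ : k) (e : ℤ) (y : L) : L :=
  algebraMap k L (r : k)⁻¹ *
    ∑ s ∈ Finset.range r, algebraMap k L (ζ ^ (-((s : ℤ) * e))) * (τ ^ s) y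

theorem tau_avg {τ : L ≃ₐ[K] L} {r : ℕ} {ζ : k} (hζ0 : ζ ≠ 0) (hζ : ζ ^ r = 1) (hτ : τ ^ r = 1)
    (e : ℤ) (y : L) : τ (avg τ r ζ e y) = algebraMap k L (ζ ^ e) * avg τ r ζ e y := by
  unfold avg
  rw [map_mul, sigma_const, map_sum]
  have h1 : ∀ m : ℕ, τ (algebraMap k L (ζ ^ (-((m : ℤ) * e))) * (τ ^ m) y) =
      algebraMap k L (ζ ^ e) *
        (algebraMap k L (ζ ^ (-(((m + 1 : ℕ) : ℤ) * e))) * (τ ^ (m + 1)) y) := by
    intro m
    rw [map_mul, sigma_const, pow_succ', ← mul_assoc, ← map_mul, ← zpow_add₀ hζ0]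
    congr 3
    push_cast; ring
  simp_rw [h1]
  rw [← Finset.mul_sum]
  have h2 : ∑ m ∈ Finset.range r, algebraMap k L (ζ ^ (-(((m + 1 : ℕ) : ℤ) * e))) *
      (τ ^ (m + 1)) y =
      ∑ m ∈ Finset.range r, algebraMap k L (ζ ^ (-((m : ℤ) * e))) * (τ ^ m) y := by
    have h3 := Finset.sum_range_succ'
      (fun m : ℕ => algebraMap k L (ζ ^ (-((m : ℤ) * e))) * (τ ^ m) y) r
    have h4 := Finset.sum_range_succ
      (fun m : ℕ => algebraMap k L (ζ ^ (-((m : ℤ) * e))) * (τ ^ m) y) r
    rw [h4] at h3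
    have h5 : ζ ^ (-((r : ℤ) * e)) = 1 := by
      rw [zpow_neg, zpow_mul, zpow_natCast, hζ, one_zpow, inv_one]
    rw [h5, hτ] at h3
    simp only [map_one, one_mul, Nat.cast_zero, zero_mul, neg_zero, zpow_zero, pow_zero] at h3
    exact (add_right_cancel h3).symm
  rw [h2]
  ring

/-- eigenvectors of `a` are eigenvectors of its powers -/
theorem eig_pow {A : Matrix (Fin n) (Fin n) ℤ} {r : ℕ} {ζ : k} (D : LatData A r ζ) {i : Fin n}
    (hi : D.P i = true) (s : ℕ) (j : Fin n) :
    ∑ l, D.v i l * (((D.a ^ s) l j : ℤ) : k) = ζ ^ (s * D.b i) * D.v i j := by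
  induction s generalizing j with
  | zero =>
    have h0 : ∀ l, D.v i l * (((D.a ^ 0) l j : ℤ) : k) = if l = j then D.v i l else 0 := by
      intro l
      simp only [pow_zero, Matrix.one_apply]
      split_ifs <;> simp
    rw [Finset.sum_congr rfl fun l _ => h0 l, Finset.sum_ite_eq' Finset.univ j,
      if_pos (Finset.mem_univ j), Nat.zero_mul, pow_zero, one_mul]
  | succ s ih =>
    have h1 : ∀ l, (((D.a ^ (s + 1)) l j : ℤ) : k) =
        ∑ l', (((D.a ^ s) l l' : ℤ) : k) * ((D.a l' j : ℤ) : k) := by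
      intro l
      rw [pow_succ, Matrix.mul_apply]
      push_cast
      rfl
    simp_rw [h1, Finset.mul_sum, ← mul_assoc]
    rw [Finset.sum_comm]
    simp_rw [← Finset.sum_mul, ih]
    simp_rw [mul_assoc]
    rw [← Finset.mul_sum, D.eig i hi j, ← mul_assoc, ← pow_add]
    congr 2
    ring

/-- there is a system of parameters at the point consisting of eigenfunctions of `τ` -/
theorem exists_eigenparam [CharZero k] {X : Fin n → L} (hX : IsTorusCoord k X) {τ : L ≃ₐ[K] L}
    {A : Matrix (Fin n) (Fin n) ℤ} {r : ℕ} (hr : 0 < r) {ζ : k} (hζ : IsPrimitiveRoot ζ r)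
    (hτ : τ ^ r = 1) (D : LatData A r ζ)
    (w' : Fin n → ℤ) (hw' : ∀ i, D.P i = true → w' i = 0)
    (hact : ∀ i, τ (X i) = algebraMap k L (ζ ^ (w' i)) * monom X (D.a i)) :
    ∃ t : Fin n → chartAlg k X D.P, IsParam (chartAlg k X D.P) (chartPt k X D.P) t ∧
      (∀ i, D.P i = true → τ (t i : L) = algebraMap k L (ζ ^ D.b i) * t i) ∧
      (∀ i, D.P i = false → τ (t i : L) = algebraMap k L (ζ ^ (w' i)) * t i) ∧
      ∀ i, D.P i = false → ∃ u : chartAlg k X D.P, u ∉ chartPt k X D.P ∧ (t i : L) = X i * u := by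
  classical
  have hX0 : ∀ i, X i ≠ 0 := fun i => hX.1.ne_zero i
  have hζ0 : ζ ≠ 0 := hζ.ne_zero hr.ne'
  have hr0 : (r : k) ≠ 0 := by exact_mod_cast hr.ne'
  have hζr : ζ ^ r = 1 := hζ.pow_eq_one
  have hpow := fun s i => tau_pow_X hX0 hζ0 D w' hw' hact s i
  have hne : ∀ {i l}, D.P i = true → D.P l = false → i ≠ l := by
    rintro i l hi hl rfl
    rw [hi] at hl
    exact absurd hl (by simp)
  -- constants
  let C : k →+* chartAlg k X D.P := algebraMap k (chartAlg k X D.P)
  have hC : ∀ c, ((C c : chartAlg k X D.P) : L) = algebraMap k L c := fun c => rfl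
  have hCpt : ∀ c : k, c ≠ 0 → C c ∉ chartPt k X D.P := by
    intro c hc h
    refine chartPt_ne_top hX D.P ((Ideal.eq_top_iff_one _).2 ?_)
    have h3 := (chartPt k X D.P).mul_mem_left (C c⁻¹) h
    rwa [← map_mul, inv_mul_cancel₀ hc, map_one] at h3
  -- monomials
  have hYm : ∀ (s : ℕ) (j : Fin n), monom X ((D.a ^ s) j) ∈ chartAlg k X D.P := by
    intro s j
    refine monom_mem fun l hl => ?_
    rw [(hpow s j).2 l hl]
    split_ifs <;> simp
  let Y : ℕ → Fin n → chartAlg k X D.P := fun s j => ⟨monom X ((D.a ^ s) j), hYm s j⟩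
  let ex : ℕ → Fin n → Fin n → ℤ := fun s i l => (D.a ^ s) i l - if i = l then 1 else 0
  have hsupp : ∀ (s : ℕ) (i l : Fin n), D.P l = false → ex s i l = 0 := by
    intro s i l hl
    change (D.a ^ s) i l - (if i = l then 1 else 0) = 0
    rw [(hpow s i).2 l hl, sub_self]
  have hZm : ∀ (s : ℕ) (i : Fin n), monom X (ex s i) ∈ chartAlg k X D.P :=
    fun s i => monom_mem fun l hl => (hsupp s i l hl).ge
  let Z : ℕ → Fin n → chartAlg k X D.P := fun s i => ⟨monom X (ex s i), hZm s i⟩
  have hYZ : ∀ s i, monom X ((D.a ^ s) i) = X i * (Z s i : L) := by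
    intro s i
    have h1 : X i = monom X (Pi.single i 1) := by
      unfold monom
      rw [Finset.prod_eq_single i]
      · simp
      · intro j _ hj
        rw [Pi.single_eq_of_ne hj, zpow_zero]
      · simp
    have h2 : (D.a ^ s) i = Pi.single i 1 + ex s i := by
      funext l
      change (D.a ^ s) i l = (Pi.single i 1 : Fin n → ℤ) l +
        ((D.a ^ s) i l - if i = l then 1 else 0)
      by_cases hil : i = l
      · subst hil; simp
      · rw [if_neg hil, Pi.single_eq_of_ne (Ne.symm hil)]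
        simp
    rw [h2, monom_add hX0, ← h1]
  have hZ1 : ∀ s i, Z s i - 1 ∈ chartPt k X D.P := by
    intro s i
    obtain ⟨h, -, h2, -⟩ := exists_expansion (k := k) hX0 D.P _ (hsupp s i)
    have h3 : Z s i - 1 = ∑ j, h j * chartParam k X D.P j := by
      apply Subtype.ext
      rw [AddSubmonoidClass.coe_finsetSum]
      exact h2
    rw [h3]
    exact Ideal.sum_mem _ fun j _ => (chartPt k X D.P).mul_mem_left _ (Ideal.subset_span ⟨j, rfl⟩)
  -- expansions
  have hex : ∀ (s : ℕ) (l : Fin n), ∃ h : Fin n → chartAlg k X D.P, D.P l = true →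
      (Y s l - 1 = ∑ j, h j * chartParam k X D.P j) ∧
      ∀ j, h j - (((D.a ^ s) l j : ℤ) : chartAlg k X D.P) ∈ chartPt k X D.P := by
    intro s l
    by_cases hl : D.P l = true
    · obtain ⟨h, -, h2, h3⟩ := exists_expansion (k := k) hX0 D.P ((D.a ^ s) l) (by
        intro j hj
        rw [(hpow s l).2 j hj, if_neg (hne hl hj)])
      refine ⟨h, fun _ => ⟨?_, h3⟩⟩
      apply Subtype.ext
      rw [AddSubmonoidClass.coe_finsetSum]
      exact h2
    · exact ⟨0, fun h => absurd h hl⟩
  choose h hh using hex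
  let ρ : k := (r : k)⁻¹
  let u : Fin n → chartAlg k X D.P := fun i => C ρ * ∑ s ∈ Finset.range r, Z s i
  let t : Fin n → chartAlg k X D.P := fun i => if D.P i = true then
    C ρ * ∑ s ∈ Finset.range r, C (ζ ^ (-((s : ℤ) * (D.b i : ℤ)))) *
      ∑ j, C (D.v i j) * (Y s j - 1) else ⟨X i, X_mem X D.P i⟩ * u i
  let M : Matrix (Fin n) (Fin n) (chartAlg k X D.P) := fun i j => if D.P i = true then
    C ρ * ∑ s ∈ Finset.range r, C (ζ ^ (-((s : ℤ) * (D.b i : ℤ)))) *
      ∑ l, C (D.v i l) * h s l j else if i = j then u i else 0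
  have htt : ∀ i, D.P i = true → t i =
      C ρ * ∑ s ∈ Finset.range r, C (ζ ^ (-((s : ℤ) * (D.b i : ℤ)))) *
      ∑ j, C (D.v i j) * (Y s j - 1) := fun i hi => if_pos hi
  have htf : ∀ i, D.P i = false → t i = ⟨X i, X_mem X D.P i⟩ * u i := fun i hi =>
    if_neg (by rw [hi]; simp)
  have hMt : ∀ i j, D.P i = true → M i j =
      C ρ * ∑ s ∈ Finset.range r, C (ζ ^ (-((s : ℤ) * (D.b i : ℤ)))) *
      ∑ l, C (D.v i l) * h s l j := fun i j hi => if_pos hi
  have hMf : ∀ i j, D.P i = false → M i j = if i = j then u i else 0 := fun i j hi =>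
    if_neg (by rw [hi]; simp)
  have hvl : ∀ {i l}, D.P i = true → ¬ D.P l = true → D.v i l = 0 := fun {i l} hi hl =>
    D.hv' i l hi (by simpa using hl)
  have ht : ∀ i, t i = ∑ j, M i j * chartParam k X D.P j := by
    intro i
    by_cases hi : D.P i = true
    · rw [htt i hi]
      simp_rw [hMt i _ hi]
      have h1 : ∀ s : ℕ, ∑ j, C (D.v i j) * (Y s j - 1) =
          ∑ j, (∑ l, C (D.v i l) * h s l j) * chartParam k X D.P j := by
        intro s
        simp_rw [Finset.sum_mul]
        rw [Finset.sum_comm]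
        refine Finset.sum_congr rfl fun l _ => ?_
        by_cases hl : D.P l = true
        · rw [(hh s l hl).1, Finset.mul_sum]
          exact Finset.sum_congr rfl fun j _ => (mul_assoc _ _ _).symm
        · rw [hvl hi hl, map_zero, zero_mul]
          symm
          exact Finset.sum_eq_zero fun j _ => by rw [zero_mul, zero_mul]
      simp_rw [h1]
      simp_rw [mul_assoc (C ρ), ← Finset.mul_sum]
      congr 1
      simp_rw [Finset.sum_mul (Finset.range r)]
      rw [Finset.sum_comm]
      refine Finset.sum_congr rfl fun s _ => ?_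
      rw [Finset.mul_sum]
      exact Finset.sum_congr rfl fun j _ => (mul_assoc _ _ _).symm
    · have hi' : D.P i = false := by simpa using hi
      rw [htf i hi', Finset.sum_eq_single i]
      · rw [hMf i i hi', if_pos rfl, mul_comm]
        congr 1
        apply Subtype.ext
        change X i = X i - ((eps D.P i : ℤ) : L)
        unfold eps
        rw [if_neg hi]
        simp
      · intro j _ hj
        rw [hMf i j hi', if_neg (Ne.symm hj), zero_mul]
      · simp
  -- the determinant
  let φ := Ideal.Quotient.mk (chartPt k X D.P)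
  have hu1 : ∀ i, φ (u i) = 1 := by
    intro i
    have h1 : ∀ s, φ (Z s i) = 1 := by
      intro s
      have := Ideal.Quotient.eq.2 (hZ1 s i)
      change Ideal.Quotient.mk _ _ = 1
      rw [this, map_one]
    simp only [u]
    rw [map_mul, map_sum, Finset.sum_congr rfl fun s _ => h1 s]
    rw [Finset.sum_const, Finset.card_range, nsmul_eq_mul, mul_one]
    have h2 : ((r : ℕ) : chartAlg k X D.P ⧸ chartPt k X D.P) = φ (C (r : k)) := by
      rw [map_natCast, map_natCast]
    rw [h2, ← map_mul, ← map_mul, inv_mul_cancel₀ hr0, map_one, map_one]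
  have hMv : ∀ i j, φ (M i j) = φ (C (D.v i j)) := by
    intro i j
    by_cases hi : D.P i = true
    · rw [hMt i j hi]
      have h1 : ∀ s : ℕ, φ (∑ l, C (D.v i l) * h s l j) =
          φ (C (ζ ^ (s * D.b i) * D.v i j)) := by
        intro s
        rw [← eig_pow D hi s j, map_sum, map_sum, map_sum]
        refine Finset.sum_congr rfl fun l _ => ?_
        by_cases hl : D.P l = true
        · rw [map_mul, map_mul, map_mul]
          congr 1
          rw [map_intCast C]
          exact Ideal.Quotient.eq.2 ((hh s l hl).2 j)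
        · rw [hvl hi hl, map_zero C, zero_mul, zero_mul, map_zero C]
      rw [map_mul, map_sum]
      simp_rw [map_mul φ, h1]
      have h2 : ∀ s : ℕ, φ (C (ζ ^ (-((s : ℤ) * (D.b i : ℤ))))) *
          φ (C (ζ ^ (s * D.b i) * D.v i j)) = φ (C (D.v i j)) := by
        intro s
        rw [← map_mul, ← map_mul, ← mul_assoc]
        have h3 : ζ ^ (-((s : ℤ) * (D.b i : ℤ))) * ζ ^ (s * D.b i) = 1 := by
          rw [← zpow_natCast, ← zpow_add₀ hζ0]
          push_cast
          rw [neg_add_cancel, zpow_zero]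
        rw [h3, one_mul]
      simp_rw [h2]
      rw [Finset.sum_const, Finset.card_range, nsmul_eq_mul]
      have h4 : ((r : ℕ) : chartAlg k X D.P ⧸ chartPt k X D.P) = φ (C (r : k)) := by
        rw [map_natCast, map_natCast]
      have h5 : φ (C ρ) * φ (C (r : k)) = 1 := by
        rw [← map_mul, ← map_mul, inv_mul_cancel₀ hr0, map_one, map_one]
      rw [h4, ← mul_assoc, h5, one_mul]
    · have hi' : D.P i = false := by simpa using hi
      rw [hMf i j hi', D.hv i j hi']
      by_cases hij : i = j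
      · rw [if_pos hij, if_pos hij, hu1, map_one, map_one]
      · rw [if_neg hij, if_neg hij, map_zero, map_zero, map_zero]
  have hM : M.det ∉ chartPt k X D.P := by
    intro hcon
    have h1 : φ M.det = φ (C D.v.det) := by
      rw [RingHom.map_det, RingHom.map_det, RingHom.map_det]
      congr 1
      ext i j
      exact hMv i j
    have h2 : φ M.det = 0 := Ideal.Quotient.eq_zero_iff_mem.2 hcon
    rw [h1] at h2
    exact hCpt _ D.det_v (Ideal.Quotient.eq_zero_iff_mem.1 h2)
  refine ⟨t, isParam_of_matrix X D.P t M ht hM, ?_, ?_, ?_⟩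
  · intro i hi
    have h1 : (t i : L) = avg τ r ζ (D.b i : ℤ) (∑ j, algebraMap k L (D.v i j) * (X j - 1)) := by
      rw [htt i hi]
      unfold avg
      change algebraMap k L (r : k)⁻¹ * ((∑ s ∈ Finset.range r,
        C (ζ ^ (-((s : ℤ) * (D.b i : ℤ)))) * ∑ j, C (D.v i j) * (Y s j - 1) :
        chartAlg k X D.P) : L) = _
      congr 1
      rw [AddSubmonoidClass.coe_finsetSum]
      refine Finset.sum_congr rfl fun s _ => ?_
      change algebraMap k L (ζ ^ (-((s : ℤ) * (D.b i : ℤ)))) *
        ((∑ j, C (D.v i j) * (Y s j - 1) : chartAlg k X D.P) : L) = _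
      congr 1
      rw [AddSubmonoidClass.coe_finsetSum, map_sum]
      refine Finset.sum_congr rfl fun j _ => ?_
      change algebraMap k L (D.v i j) * (monom X ((D.a ^ s) j) - 1) = _
      rw [map_mul, sigma_const, map_sub, map_one]
      by_cases hj : D.P j = true
      · rw [(hpow s j).1, hw' j hj, mul_zero, zpow_zero, map_one, one_mul]
      · rw [hvl hi hj, map_zero, zero_mul, zero_mul]
    rw [h1, tau_avg hζ0 hζr hτ, zpow_natCast]
  · intro i hi
    have h1 : (t i : L) = avg τ r ζ (w' i) (X i) := by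
      rw [htf i hi]
      unfold avg
      change X i * (algebraMap k L (r : k)⁻¹ * ((∑ s ∈ Finset.range r, Z s i :
        chartAlg k X D.P) : L)) = _
      rw [mul_left_comm]
      congr 1
      rw [AddSubmonoidClass.coe_finsetSum, Finset.mul_sum]
      refine Finset.sum_congr rfl fun s _ => ?_
      rw [(hpow s i).1, hYZ s i, ← mul_assoc, ← map_mul, ← zpow_add₀ hζ0, neg_add_cancel,
        zpow_zero, map_one, one_mul]
    rw [h1, tau_avg hζ0 hζr hτ]
  · intro i hi
    refine ⟨u i, ?_, by rw [htf i hi]; rfl⟩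
    intro hcon
    have h2 : φ (u i) = 0 := Ideal.Quotient.eq_zero_iff_mem.2 hcon
    rw [hu1] at h2
    have h3 : (1 : chartAlg k X D.P) ∈ chartPt k X D.P := by
      rw [← map_one φ] at h2
      exact Ideal.Quotient.eq_zero_iff_mem.1 h2
    exact chartPt_ne_top hX D.P ((Ideal.eq_top_iff_one _).2 h3)

end Pool.Agent.H50.TQ
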