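import Mathlib

/-!
# Extension of characters: rescaling the coordinates of the torus

PROOF. Let `f : (Fin n → ℤ) →ₗ[ℤ] (Fin n → ℤ)`, `f m = m ᵥ* A - m`, and let
`X : (Fin n → ℤ) →+ Additive kˣ` be the homomorphism given by `χ`. `X` vanishes on the kernel of `f`
(`h1`), so it factors through the range `R` of `f`: there is `g : R →ₗ[ℤ] Additive kˣ` with
`g (f m) = X m`. `kˣ` is divisible because `k` is algebraically closed
(`IsAlgClosed.exists_pow_nat_eq`), so `Additive kˣ` is an injective `ℤ`-module and `g` extends to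
`G : (Fin n → ℤ) →ₗ[ℤ] Additive kˣ` (search Mathlib for `Module.Baer`, `Module.Baer.of_divisible`,
`Module.Baer.extension_property`, `AddCommGrpCat.injective_of_divisible`,
`Module.Injective`; or use the Smith normal form of the submodule `R` of the free module:
`Submodule.smithNormalForm`, choose roots on the adapted basis). Put `ψ m = G m` (coerced to `k`);
then `ψ (m ᵥ* A) / ψ m = G (f m) = g (f m) = χ m`.
-/

open scoped BigOperators Matrix

namespace Pool.Agent.H50.TQ

universe u

theorem resc_surj {k : Type u} [Field k] [IsAlgClosed k] {n : ℕ} (hn : n ≠ 0) :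
    Function.Surjective fun a : Additive kˣ => n • a := by
  intro a
  obtain ⟨z, hz⟩ := IsAlgClosed.exists_pow_nat_eq ((Additive.toMul a : kˣ) : k) (Nat.pos_of_ne_zero hn)
  have hz0 : z ≠ 0 := by
    rintro rfl
    rw [zero_pow hn] at hz
    exact (Additive.toMul a).ne_zero hz.symm
  refine ⟨Additive.ofMul (Units.mk0 z hz0), ?_⟩
  apply Additive.toMul.injective
  apply Units.ext
  show ((Units.mk0 z hz0 ^ n : kˣ) : k) = _
  rw [Units.val_pow_eq_pow_val, Units.val_mk0, hz]

/-- A character `χ` of `ℤ ^ n` which is trivial on the vectors fixed by `A` is a coboundary. -/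
theorem exists_rescale {k : Type u} [Field k] [IsAlgClosed k] [CharZero k] {n : ℕ}
    (A : Matrix (Fin n) (Fin n) ℤ) (χ : (Fin n → ℤ) → k) (hχ0 : ∀ m, χ m ≠ 0)
    (hχ : ∀ m m', χ (m + m') = χ m * χ m') (h1 : ∀ m, m ᵥ* A = m → χ m = 1) :
    ∃ ψ : (Fin n → ℤ) → k, (∀ m, ψ m ≠ 0) ∧ (∀ m m', ψ (m + m') = ψ m * ψ m') ∧
      ∀ m, ψ (m ᵥ* A) = χ m * ψ m := by
  classical
  let X : (Fin n → ℤ) →+ Additive kˣ := AddMonoidHom.mk' (fun m => Additive.ofMul (Units.mk0 (χ m) (hχ0 m)))
    (by
      intro a b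
      apply Additive.toMul.injective
      apply Units.ext
      exact hχ a b)
  have hX : ∀ m, ((Additive.toMul (X m) : kˣ) : k) = χ m := fun m => rfl
  let f : (Fin n → ℤ) →ₗ[ℤ] (Fin n → ℤ) := Matrix.vecMulLinear A - LinearMap.id
  have hf : ∀ m, f m = m ᵥ* A - m := fun m => rfl
  let D1 : DivisibleBy (Additive kˣ) ℕ :=
    divisibleByOfSMulRightSurj (Additive kˣ) ℕ fun hn => resc_surj hn
  let D2 : DivisibleBy (Additive kˣ) ℤ := AddGroup.divisibleByIntOfDivisibleByNat (Additive kˣ)
  have hker : LinearMap.ker f ≤ LinearMap.ker X.toIntLinearMap := by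
    intro m hm
    rw [LinearMap.mem_ker, hf, sub_eq_zero] at hm
    rw [LinearMap.mem_ker]
    show X m = 0
    apply Additive.toMul.injective
    apply Units.ext
    rw [hX, h1 m hm]
    rfl
  have hinj : Function.Injective ((LinearMap.ker f).liftQ f le_rfl) := by
    rw [← LinearMap.ker_eq_bot]
    exact Submodule.ker_liftQ_eq_bot _ _ _ le_rfl
  obtain ⟨G, hG⟩ := (Module.Baer.of_divisible (Additive kˣ)).extension_property
    ((LinearMap.ker f).liftQ f le_rfl) hinj ((LinearMap.ker f).liftQ X.toIntLinearMap hker)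
  have hG' : ∀ m, G (f m) = X m := fun m => LinearMap.congr_fun hG ((LinearMap.ker f).mkQ m)
  refine ⟨fun m => ((Additive.toMul (G m) : kˣ) : k), fun m => Units.ne_zero _, ?_, ?_⟩
  · intro m m'
    beta_reduce
    rw [map_add, toMul_add, Units.val_mul]
  · intro m
    have e : m ᵥ* A = f m + m := by rw [hf]; abel
    beta_reduce
    rw [e, map_add, toMul_add, Units.val_mul, hG', hX]

end Pool.Agent.H50.TQ
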