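import Mathlib
import Pool.Agent.H50.TQ.ActL
import Pool.Agent.H50.TQ.Coord
import Pool.Agent.H50.TQ.Resc

/-!
# Coordinates in which an automorphism is a root of unity times a matrix

PROOF. Apply `exists_rescale A χ` with `χ m = ζ ^ (m ⬝ᵥ w) * (c m)⁻¹` (`zpow`; a character because
`hact.c_add`; `χ m = 1` if `m ᵥ* A = m` by `hwc`). It gives `ψ` with
`ψ (m ᵥ* A) = ζ ^ (m ⬝ᵥ w) * (c m)⁻¹ * ψ m`. Put `κ = ψ` and `X i = (κ (B i))⁻¹ • monom x (B i)`.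
`τ (X i) = (κ (B i))⁻¹ c (B i) • monom x (B i ᵥ* A)`, `B i ᵥ* A = a i ᵥ* B` (`D.hA`), and by
`monom_new`, `monom x (a i ᵥ* B) = κ (a i ᵥ* B) • monom X (a i) = κ (B i ᵥ* A) • monom X (a i)`. The
constant is `(κ (B i))⁻¹ * c (B i) * ζ ^ (B i ⬝ᵥ w) * (c (B i))⁻¹ * κ (B i) = ζ ^ (B i ⬝ᵥ w)`, and
`B i ⬝ᵥ w = (B *ᵥ w) i`.
-/

open scoped BigOperators Matrix

namespace Pool.Agent.H50.TQ

open Pool.Agent.H26

universe u

variable {k K L : Type u} [Field k] [Field K] [Field L] [Algebra k K] [Algebra k L]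
  [Algebra K L] [IsScalarTower k K L] {n : ℕ}

/-- coordinates in which `τ` is `ζ ^ (B w)` times the matrix `a` -/
theorem exists_tau_coord [IsAlgClosed k] [CharZero k] {x : Fin n → L} (hx : IsTorusCoord k x)
    {τ : L ≃ₐ[K] L} {A : Matrix (Fin n) (Fin n) ℤ} {c : (Fin n → ℤ) → k} (hact : Act τ x A c)
    {r : ℕ} {ζ : k} (hζ0 : ζ ≠ 0) (D : LatData A r ζ) (w : Fin n → ℤ)
    (hwc : ∀ m, m ᵥ* A = m → c m = ζ ^ (m ⬝ᵥ w)) :
    ∃ (X : Fin n → L) (κ : (Fin n → ℤ) → k), (∀ m, κ m ≠ 0) ∧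
      (∀ m m', κ (m + m') = κ m * κ m') ∧
      (∀ i, algebraMap k L (κ (D.B i)) * X i = monom x (D.B i)) ∧
      ∀ i, τ (X i) = algebraMap k L (ζ ^ ((D.B *ᵥ w) i)) * monom X (D.a i) := by
  classical
  have hx0 : ∀ i, x i ≠ 0 := fun i => hx.1.ne_zero i
  obtain ⟨ψ, hψ0, hψ, hψA⟩ := exists_rescale A (fun m => ζ ^ (m ⬝ᵥ w) * (c m)⁻¹)
    (fun m => mul_ne_zero (zpow_ne_zero _ hζ0) (inv_ne_zero (hact.c_ne m)))
    (fun m m' => by
      rw [add_dotProduct, zpow_add₀ hζ0, hact.c_add, mul_inv]; ring)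
    (fun m hm => by rw [hwc m hm]; exact mul_inv_cancel₀ (zpow_ne_zero _ hζ0))
  have hκL : ∀ m, algebraMap k L (ψ m) ≠ 0 := fun m h =>
    hψ0 m ((algebraMap k L).injective (h.trans (map_zero _).symm))
  have hX : ∀ i, algebraMap k L (ψ (D.B i)) * (algebraMap k L (ψ (D.B i)) )⁻¹ *
      monom x (D.B i) = monom x (D.B i) := fun i => by rw [mul_inv_cancel₀ (hκL _), one_mul]
  refine ⟨fun i => (algebraMap k L (ψ (D.B i)))⁻¹ * monom x (D.B i), ψ, hψ0, hψ,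
    fun i => by rw [← mul_assoc]; exact hX i, fun i => ?_⟩
  have hnew := monom_new hx0 hψ0 hψ
    (X := fun i => (algebraMap k L (ψ (D.B i)))⁻¹ * monom x (D.B i))
    (fun i => by rw [← mul_assoc]; exact hX i) (D.a i)
  have hrow : D.B i ᵥ* A = D.a i ᵥ* D.B := by
    have h1 := congrFun D.hA i
    rw [Matrix.mul_apply_eq_vecMul, Matrix.mul_apply_eq_vecMul] at h1
    exact h1
  have hτ : τ ((algebraMap k L (ψ (D.B i)))⁻¹ * monom x (D.B i)) =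
      (algebraMap k L (ψ (D.B i)))⁻¹ * (algebraMap k L (c (D.B i)) * monom x (D.B i ᵥ* A)) := by
    rw [map_mul, map_inv₀, sigma_const, hact.spec]
  rw [hτ, hrow, ← hnew, ← hrow, hψA]
  have hcL : algebraMap k L (c (D.B i)) ≠ 0 := fun h =>
    hact.c_ne (D.B i) ((algebraMap k L).injective (h.trans (map_zero _).symm))
  have hBw : (D.B *ᵥ w) i = D.B i ⬝ᵥ w := rfl
  rw [hBw, map_mul, map_mul, map_inv₀]
  have hκi := hκL (D.B i)
  generalize monom (fun i => (algebraMap k L (ψ (D.B i)))⁻¹ * monom x (D.B i)) (D.a i) = M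
  generalize algebraMap k L (ψ (D.B i)) = p at hκi ⊢
  generalize algebraMap k L (c (D.B i)) = q at hcL ⊢
  generalize algebraMap k L (ζ ^ (D.B i ⬝ᵥ w)) = z
  calc p⁻¹ * (q * (z * q⁻¹ * p * M)) = (p⁻¹ * p) * (q * q⁻¹) * (z * M) := by ring
    _ = z * M := by rw [inv_mul_cancel₀ hκi, mul_inv_cancel₀ hcL, one_mul, one_mul]

end Pool.Agent.H50.TQ
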