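import Mathlib
import Pool.Agent.H50.TQ.UpperA
import Pool.Agent.H50.TQ.LatC
import Pool.Agent.H50.TQ.Param2
import Pool.Agent.H50.TQ.MVal
import Pool.Agent.H50.TQ.MVal2

/-!
# Existence of the valuation attached to an invariant cocharacter

PROOF. Let `X, κ` be given by `exists_tau_coord`, `w' = D.B *ᵥ w` (`w' i = 0` for `P i = true` by
`LatData.weight_eq_zero`, `w' i > 0` for `P i = false` by `hwD`). `hX : IsTorusCoord k X` by
`isTorusCoord_new`. `t` by `exists_eigenparam`, weights `g i = b i` for `P i = true`,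
`g i = (w' i).toNat` for `P i = false`, all positive (`D.hb`, `hwD`). Install the instances
`isFractionRing_chart`, `isMaximal_chartPt`. `C = regCoord (chartAlg_fg X D.P) ht Y.ω`,
`v = C.mv g hg`. By `iv_mv_X`, `iv v (X i) = w' i` for all `i`, so `iv v (monom X m) = m ⬝ᵥ w'`; with
`monom x m = monom x ((m ᵥ* B') ᵥ* B) = const • monom X (m ᵥ* B')` (`monom_new`,
`B' * B = 1`) we get `iv v (monom x m) = (m ᵥ* B') ⬝ᵥ (B *ᵥ w) = m ⬝ᵥ w`.
`V, q`: `exists_restrict` (`Pool.Agent.H32.Restrict`) with `K := L` gives `q > 0`, `V : DVal k L`,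
`iv v y = q * V.val y` (a positive element: `t i₀`, `mv_t`; `n > 0`).
`E, e`: `exists_restrict` for `V.ord` and `K` (a positive element of value: e.g. `exists_ord_eq_one`)
gives `V.val (algebraMap K L g) = e * E.val g`, `e > 0` (`Algebra.IsAlgebraic K L` since finite
dimensional). So `iv v (algebraMap K L g) = (q * e) * E.val g`.
`r ∣ q * e`: take `g : K` with `E.val g = 1` (`exists_ord_eq_one`), and `dvd_of_fixed` for
`f = algebraMap K L g` (`τ` fixes it), with `hτB` from `chart_stable` and `hτt` from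
`exists_eigenparam` (for `P i = false`, `ζ ^ (w' i) = ζ ^ (g i)` because `w' i = g i` as integers).
`E.IsDivisorial n`: `exists_resInd_mv C hg` (write `n = m + 1`) and `exists_resInd_restrict` with
`r := q * e` (see `isDivisorial_restrict` in `Pool.Agent.H32.Chart`).
`f`: `formOrd_restrict` (`Pool.Agent.H32.LogDisc`) with `ω = G.ω`, `ωL = Y.ω`, `hq.form`,
`r := q * e`: `E.FormOrd G.ω f` and `(q * e) * (f + 1) = ∑ g l + iv v (dt.det Y.ω)`, where
`dt = dtBasis ..`. Now `dt.det (dlog X) = dt.det Y.ω * Y.ω.det (dlog X)` (`det_change`), its value is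
`-∑_{P i = false} g i` (`iv_mv_det`), and `Y.ω.det (dlog X) = ± Y.ω.det (dlog x)` (`det_dlog_new`,
`D.B.det = ± 1` from `D.hB`). All are nonzero (`exists_dlogBasis`, `det_ne_zero`). So
`(q * e) * (f + 1) = ∑ g - ∑_{P = false} g - iv v (Y.ω.det (dlog x))
  = ∑ b i - q * V.val (Y.ω.det (dlog x))` (`D.hb'`).
-/

open scoped BigOperators Matrix
open KaehlerDifferential

namespace Pool.Agent.H50.TQ

open Pool.Agent.H26 Pool.H32

universe u

variable {k K L : Type u} [Field k] [Field K] [Field L] [Algebra k K] [Algebra k L]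
  [Algebra K L] [IsScalarTower k K L] {n : ℕ}

omit [Algebra K L] [IsScalarTower k K L] [Field K] [Algebra k K] in
/-- the value of a constant -/
lemma iv_mv_const [CharZero k] (C : RegCoord k L n) {g : Fin n → ℕ} (hg : ∀ l, 0 < g l) {c : k}
    (hc : c ≠ 0) : iv (C.mv g hg) (algebraMap k L c) = 0 :=
  iv_eq_of _ (z := 0) (C.mv_const hg hc)

/-- monomial valuations restrict to divisorial valuations -/
lemma isDivisorial_of_restrict [CharZero k] [Algebra.IsAlgebraic K L] (C : RegCoord k L n)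
    {g : Fin n → ℕ} (hg : ∀ l, 0 < g l) (hn : 0 < n) {r : ℕ} (hr0 : 0 < r) (E : DVal k K)
    (hr : ∀ f : K, f ≠ 0 → iv (C.mv g hg) (algebraMap K L f) = r * E.val f) :
    E.IsDivisorial n := by
  obtain ⟨m, rfl⟩ : ∃ m, n = m + 1 := ⟨n - 1, by omega⟩
  obtain ⟨u, hu⟩ := exists_resInd_mv C hg
  obtain ⟨y, hy⟩ := exists_resInd_restrict (C.mv g hg) (fun c hc => C.mv_const hg hc) hr0 E hr hu
  exact ⟨m, y, rfl, hy.1, hy.2⟩

/-- the divisorial valuation of `L` given by an invariant cocharacter `w` and the exponents `b`,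
for adapted coordinates on which `w` is positive -/
theorem exists_valuation [IsAlgClosed k] [CharZero k] {G : LogGerm k K n} {Y : LogGerm k L n}
    (hq : IsFiniteQuotient G Y) (hn : 0 < n) {x : Fin n → L} (hx : IsTorusCoord k x)
    {τ : L ≃ₐ[K] L} {A : Matrix (Fin n) (Fin n) ℤ} {c : (Fin n → ℤ) → k} (hact : Act τ x A c)
    {r : ℕ} (hr : 0 < r) {ζ : k} (hζ : IsPrimitiveRoot ζ r) (hτ : τ ^ r = 1)
    (D : LatData A r ζ) (w : Fin n → ℤ) (hwA : A *ᵥ w = w)
    (hwD : ∀ i, D.P i = false → 0 < (D.B *ᵥ w) i)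
    (hwc : ∀ m, m ᵥ* A = m → c m = ζ ^ (m ⬝ᵥ w)) :
    ∃ (V : DVal k L) (q : ℕ) (E : DVal k K) (e : ℕ) (f : ℤ), 0 < q ∧ 0 < e ∧ r ∣ q * e ∧
      (∀ g : K, g ≠ 0 → V.val (algebraMap K L g) = e * E.val g) ∧
      (∀ m, q * V.val (monom x m) = m ⬝ᵥ w) ∧ E.IsDivisorial n ∧ E.FormOrd G.ω f ∧
      q * (e * (f + 1)) = ∑ i, (D.b i : ℤ) - q * V.val (Y.ω.det fun i => dlog k (x i)) := by
  classical
  have hζ0 : ζ ≠ 0 := hζ.ne_zero hr.ne'
  obtain ⟨X, κ, hκ0, hκ, hX, hτX⟩ := exists_tau_coord hx hact hζ0 D w hwc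
  set w' : Fin n → ℤ := D.B *ᵥ w with hw'
  have hw'0 : ∀ i, D.P i = true → w' i = 0 := fun i hi => D.weight_eq_zero hr hwA i hi
  have hXc : IsTorusCoord k X := isTorusCoord_new hx D.hB hκ0 hκ hX
  have hx0 : ∀ i, x i ≠ 0 := fun i => hx.1.ne_zero i
  have hX0 : ∀ i, X i ≠ 0 := fun i => hXc.1.ne_zero i
  have := isFractionRing_chart hXc D.P
  have := isMaximal_chartPt hXc D.P
  have := hq.finiteDimensional
  obtain ⟨t, ht, ht1, ht2, htX⟩ := exists_eigenparam hXc hr hζ hτ D w' hw'0 hτX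
  set g : Fin n → ℕ := fun i => if D.P i = true then D.b i else (w' i).toNat with hgdef
  have hg1 : ∀ i, D.P i = true → g i = D.b i := fun i hi => if_pos hi
  have hg2 : ∀ i, D.P i = false → (g i : ℤ) = w' i := by
    intro i hi
    have h1 : g i = (w' i).toNat := if_neg (by rw [hi]; decide)
    rw [h1, Int.toNat_of_nonneg (hwD i hi).le]
  have hg : ∀ l, 0 < g l := by
    intro l
    cases h : D.P l with
    | false =>
      have h1 := hg2 l h
      have h2 := hwD l h
      omega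
    | true =>
      rw [hg1 l h]
      exact (D.hb l h).1
  set C := regCoord (chartAlg_fg X D.P) ht Y.ω with hC
  set v := C.mv g hg with hv
  have hvX : ∀ i, iv v (X i) = w' i := by
    intro i
    have h1 := iv_mv_X hXc D.P ht htX Y.ω hg i
    rw [← hC, ← hv] at h1
    rw [h1]
    cases h : D.P i with
    | false => simpa using hg2 i h
    | true => simpa using (hw'0 i h).symm
  have hvm : ∀ m : Fin n → ℤ, iv v (monom X m) = m ⬝ᵥ w' := by
    intro m
    rw [monom, iv_prod v _ _ fun i _ => zpow_ne_zero _ (hX0 i), dotProduct]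
    refine Finset.sum_congr rfl fun i _ => ?_
    rw [iv_zpow v (hX0 i), hvX]
  have hB' : D.B' * D.B = 1 := mul_eq_one_comm.1 D.hB
  have hvx : ∀ m : Fin n → ℤ, iv v (monom x m) = m ⬝ᵥ w := by
    intro m
    have h1 := monom_new hx0 hκ0 hκ hX (m ᵥ* D.B')
    have h2 : (m ᵥ* D.B') ᵥ* D.B = m := by rw [Matrix.vecMul_vecMul, hB', Matrix.vecMul_one]
    rw [h2] at h1
    have hc : algebraMap k L (κ m) ≠ 0 := by
      rw [Ne, map_eq_zero]
      exact hκ0 m
    rw [← h1, iv_mul v hc (monom_ne_zero hX0 _), iv_mv_const C hg (hκ0 m), hvm, zero_add, hw',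
      Matrix.dotProduct_mulVec, h2]
  -- the normalised valuation of `L`
  obtain ⟨q, V, hq0, hV⟩ := exists_restrict (K := L) v (fun c hc => C.mv_const hg hc)
    (C.t ⟨0, hn⟩) (C.t_ne_zero _) (by
      rw [hv, C.mv_t hg]
      exact_mod_cast hg ⟨0, hn⟩)
  have hV' : ∀ y : L, y ≠ 0 → iv v y = q * V.val y := fun y hy => hV y hy
  -- its restriction to `K`
  obtain ⟨s, hs⟩ := V.exists_ord_eq_one
  have hs0 : s ≠ 0 := by
    rintro rfl
    rw [AddValuation.map_zero] at hs
    exact absurd hs (by decide)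
  obtain ⟨e, E, he0, hE⟩ := exists_restrict (K := K) V.ord V.ord_algebraMap s hs0 (by
    rw [hs]; exact zero_lt_one)
  have hE' : ∀ f : K, f ≠ 0 → V.val (algebraMap K L f) = e * E.val f := fun f hf => hE f hf
  have hinj : ∀ f : K, f ≠ 0 → algebraMap K L f ≠ 0 := fun f hf h =>
    hf ((algebraMap K L).injective (h.trans (map_zero _).symm))
  have hvE : ∀ f : K, f ≠ 0 → iv v (algebraMap K L f) = ((q * e : ℕ) : ℤ) * E.val f := by
    intro f hf
    rw [hV' _ (hinj f hf), hE' f hf]
    push_cast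
    ring
  have hqe : 0 < q * e := Nat.mul_pos hq0 he0
  have hEd : E.IsDivisorial n := isDivisorial_of_restrict C hg hn hqe E hvE
  obtain ⟨f, hf, hre⟩ := formOrd_restrict (chartAlg_fg X D.P) ht G.ω Y.ω hq.form hg hqe E hvE hEd
  refine ⟨V, q, E, e, f, hq0, he0, ?_, hE', ?_, hEd, hf, ?_⟩
  · -- divisibility
    obtain ⟨s', hs'⟩ := E.exists_ord_eq_one
    have h1 : s' ≠ 0 := by
      rintro rfl
      rw [AddValuation.map_zero] at hs'
      exact absurd hs' (by decide)
    have h2 : E.val s' = 1 := iv_eq_of E.ord (z := 1) hs'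
    have h3 := dvd_of_fixed (chartAlg_fg X D.P) ht Y.ω hg hr hζ τ hτ
      (fun b => chart_stable hX0 hζ0 D w' hw'0 hτX b) (by
        intro l
        cases h : D.P l with
        | false =>
          rw [ht2 l h, ← hg2 l h, zpow_natCast]
        | true =>
          rw [ht1 l h, hg1 l h]) (algebraMap K L s') (hinj s' h1) (AlgEquiv.commutes τ s')
    rw [← hC, ← hv, hvE s' h1, h2, mul_one] at h3
    exact_mod_cast h3
  · intro m
    rw [← hV' _ (monom_ne_zero hx0 m), hvx]
  · -- the form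
    set dt := dtBasis (chartAlg_fg X D.P) ht Y.ω with hdt
    have h1 : iv v (dt.det fun i => dlog k (X i)) = -∑ i, if D.P i = true then 0 else (g i : ℤ) :=
      iv_mv_det hXc D.P ht htX Y.ω hg
    have h2 : (dt.det fun i => dlog k (X i)) =
        dt.det Y.ω * Y.ω.det fun i => dlog k (X i) := det_change dt Y.ω _
    have h3 : (Y.ω.det fun i => dlog k (X i)) = (D.B.det : L) * Y.ω.det fun i => dlog k (x i) :=
      det_dlog_new hx0 hX0 hκ0 hX Y.ω
    have h4 : (Y.ω.det fun i => dlog k (X i)) ≠ 0 := by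
      obtain ⟨η, hη⟩ := exists_dlogBasis hXc Y.ω
      have h5 := det_ne_zero Y.ω η
      have h6 : (η : Fin n → Ω[L⁄k]) = fun i => dlog k (X i) := funext hη
      rwa [h6] at h5
    have h5 : (Y.ω.det fun i => dlog k (x i)) ≠ 0 := by
      intro h
      rw [h, mul_zero] at h3
      exact h4 h3
    have hdetB : D.B.det ≠ 0 := by
      intro h
      have h6 := congrArg Matrix.det D.hB
      rw [Matrix.det_mul, h, zero_mul, Matrix.det_one] at h6
      exact zero_ne_one h6
    have : CharZero L := charZero_of_injective_algebraMap (algebraMap k L).injective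
    have h6 : iv v ((D.B.det : ℤ) : L) = 0 := iv_eq_of v (z := 0) (C.mv_int_ne_zero hg hdetB)
    have h7 : ((D.B.det : ℤ) : L) ≠ 0 := by exact_mod_cast hdetB
    rw [h2, iv_mul v (det_ne_zero dt Y.ω) h4, h3, iv_mul v h7 h5, h6, zero_add, hV' _ h5] at h1
    rw [← hC, ← hv] at hre
    have h8 : ∑ i, (D.b i : ℤ) = ∑ l, (g l : ℤ) - ∑ i, if D.P i = true then 0 else (g i : ℤ) := by
      rw [← Finset.sum_sub_distrib]
      refine Finset.sum_congr rfl fun i _ => ?_
      cases h : D.P i with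
      | false => simp [D.hb' i h]
      | true => simp [hg1 i h]
    rw [h8]
    push_cast at hre
    linarith

end Pool.Agent.H50.TQ
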