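import Mathlib
import Pool.Agent.H50.TQ.Base
import Pool.Agent.H50.TQ.Base2
import Pool.Agent.H50.TQ.UpperB

/-!
# Upper bounds for the minimal log discrepancy

PROOF. `n > 0` because `w ≠ 0`. `D'` from `LatData.exists_pos` (same `b`), and `V, q, E, e, f` from
`exists_valuation` for `D'`. `V` has centre `Y.pt` by `T.center` (`q * V.val (x ^ m) = m ⬝ᵥ w > 0`), so
`E` has centre `G.pt` by `hasCenter_down`. The log discrepancy of `E` is
`a = 1 + f - ∑ r i * E.val (s i)`, and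
`q e a = q e (f + 1) - q ∑ r i * V.val (s i)
  = ∑ b i - q * V.val (det) - q ∑ r i V.val (s i) = ∑ b i + q ∑ u i * V.val (x i)` (`T.crep`)
`= ∑ b i + ∑ u i * w i` (`q * V.val (x i) = w i`: `m = Pi.single i 1`). This number is `≥ 0` by
`hnn`, and `r ≤ q e`, so `a ≤ (∑ u i * w i + ∑ b i) / r`. `G.mld ≤ a` by `sInf_le`.
-/

open scoped BigOperators Matrix
open KaehlerDifferential

namespace Pool.Agent.H50.TQ

open Pool.Agent.H26 Pool.H32

universe u

variable {k K L : Type u} [Field k] [Field K] [Field L] [Algebra k K] [Algebra k L]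
  [Algebra K L] [IsScalarTower k K L] {n : ℕ}

/-- **Upper bound.** -/
theorem upper_bound [IsAlgClosed k] [CharZero k] {G : LogGerm k K n} {Y : LogGerm k L n}
    (hq : IsFiniteQuotient G Y) {x : Fin n → L} (hx : IsTorusCoord k x)
    {S : AddSubmonoid (Fin n → ℤ)} {Γ : Set ℝ} (T : BaseData G Y x S Γ)
    {τ : L ≃ₐ[K] L} {A : Matrix (Fin n) (Fin n) ℤ} {c : (Fin n → ℤ) → k} (hact : Act τ x A c)
    {r : ℕ} (hr : 0 < r) {ζ : k} (hζ : IsPrimitiveRoot ζ r) (hτ : τ ^ r = 1)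
    (D : LatData A r ζ) (w : Fin n → ℤ) (hwS : ∀ m ∈ S, m ≠ 0 → 0 < m ⬝ᵥ w) (hw0 : w ≠ 0)
    (hwA : A *ᵥ w = w) (hwc : ∀ m, m ᵥ* A = m → c m = ζ ^ (m ⬝ᵥ w))
    (hnn : 0 ≤ ∑ i, T.u i * (w i : ℝ)) :
    G.mld ≤ (((∑ i, T.u i * (w i : ℝ) + ∑ i, (D.b i : ℝ)) / r : ℝ) : EReal) := by
  classical
  have hn : 0 < n := by
    rcases Nat.eq_zero_or_pos n with h0 | h0
    · subst h0
      exact absurd (Subsingleton.elim w 0) hw0
    · exact h0
  have hx0 : ∀ i, x i ≠ 0 := fun i => hx.1.ne_zero i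
  obtain ⟨D', hD'b, hD'⟩ := D.exists_pos hr hwA hw0
  obtain ⟨V, q, E, e, f, hq0, he0, hdvd, hVE, hVm, hE, hf, hlog⟩ :=
    exists_valuation hq hn hx hact hr hζ hτ D' w hwA hD' hwc
  have hqR : (0 : ℝ) < q := by exact_mod_cast hq0
  have heR : (0 : ℝ) < e := by exact_mod_cast he0
  have hrR : (0 : ℝ) < r := by exact_mod_cast hr
  have hVc : V.HasCenter Y.A Y.pt := by
    refine T.center V fun m hm hm0 => ?_
    have h1 := hwS m hm hm0
    rw [← hVm m] at h1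
    have h2 : (0 : ℤ) < q := by exact_mod_cast hq0
    exact (pos_iff_pos_of_mul_pos h1).1 h2
  have hEc : E.HasCenter G.A G.pt := hasCenter_down hq V hVc E he0 hVE
  set a : ℝ := 1 + (f : ℝ) - ∑ i, G.r i * (E.val (G.s i) : ℝ) with ha
  have hla : G.IsLogDiscrepancy E a := ⟨f, hf, rfl⟩
  have hmld : G.mld ≤ ((a : ℝ) : EReal) := sInf_le ⟨E, a, hE, hEc, hla, rfl⟩
  have hcrep := T.crep V hVc
  have h1 : ∑ i, G.r i * (V.val (algebraMap K L (G.s i)) : ℝ) =
      e * ∑ i, G.r i * (E.val (G.s i) : ℝ) := by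
    rw [Finset.mul_sum]
    refine Finset.sum_congr rfl fun i _ => ?_
    rw [hVE _ (G.s_ne_zero i)]
    push_cast
    ring
  have h2 : ((q * (e * (f + 1)) : ℤ) : ℝ) =
      ((∑ i, (D'.b i : ℤ) - q * V.val (Y.ω.det fun i => dlog k (x i)) : ℤ) : ℝ) := by
    rw [hlog]
  push_cast at h2
  have h3 : ∀ i, (q : ℝ) * (V.val (x i) : ℝ) = w i := by
    intro i
    have h4 := hVm (Pi.single i 1)
    have h5 : monom x (Pi.single i 1) = x i := by
      unfold monom
      rw [Finset.prod_eq_single i]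
      · simp
      · intro j _ hj
        rw [Pi.single_eq_of_ne hj, zpow_zero]
      · simp
    rw [h5, single_one_dotProduct] at h4
    exact_mod_cast h4
  have h4 : (q : ℝ) * ∑ i, T.u i * (V.val (x i) : ℝ) = ∑ i, T.u i * (w i : ℝ) := by
    rw [Finset.mul_sum]
    refine Finset.sum_congr rfl fun i _ => ?_
    rw [← h3 i]; ring
  have hkey : (q : ℝ) * e * a = ∑ i, T.u i * (w i : ℝ) + ∑ i, (D.b i : ℝ) := by
    rw [hD'b] at h2
    rw [h1] at hcrep
    rw [← h4, ha]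
    linear_combination h2 + (-(q : ℝ)) * hcrep
  have hnum : 0 ≤ ∑ i, T.u i * (w i : ℝ) + ∑ i, (D.b i : ℝ) :=
    add_nonneg hnn (Finset.sum_nonneg fun i _ => Nat.cast_nonneg _)
  have hle : (r : ℝ) ≤ q * e := by
    have := Nat.le_of_dvd (Nat.mul_pos hq0 he0) hdvd
    exact_mod_cast this
  refine hmld.trans ?_
  rw [EReal.coe_le_coe_iff, le_div_iff₀ hrR]
  rw [← hkey] at hnum ⊢
  have ha0 : 0 ≤ a := nonneg_of_mul_nonneg_right hnum (mul_pos hqR heR)
  nlinarith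

end Pool.Agent.H50.TQ
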