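import Mathlib
import Pool.Agent.H50.TQ.CombA
import Pool.Agent.H50.TQ.Base1
import Pool.Agent.H50.TQ.UpperC
import Pool.Agent.H50.TQ.LogB3
import Pool.Agent.H50.TQ.Inert2
import Pool.Agent.H50.TQ.LatE
import Pool.Agent.H26.Farkas

/-!
# The combinatorial content of a toric quotient germ

PROOF. `G.mld = t < t'`: by definition of `sInf` (`sInf_lt_iff`) there are a divisor `E` over `X`,
divisorial with centre `x`, and its log discrepancy `a < t'`. `exists_inertia` gives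
`σ, r, ζ, F, N`. `hQ.torus σ` gives `x, S`; `T` from `exists_baseData`; `A, c` from `exists_act`
(`hact : Act σ x A c`); `A ^ r = 1` (`Act.matrix_pow_eq_one`); `D` from `exists_latData`; `h` from `hH`
(so `h ∣ r`). Let `w i = F.val (x i)`: `A *ᵥ w = w` (`weight_invariant`), `c m = ζ ^ (m ⬝ᵥ w)` if
`m ᵥ* A = m` (`character_eq`), `m ⬝ᵥ w > 0` for `m ∈ S`, `m ≠ 0` (`T.pos`, `val_monom`), there is
such an `m` (`T.exists_ne`), so `w ≠ 0`. `log_bound` (with `hN` from `exists_inertia`) and `T.crep`: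
`r a = N - ∑ r_i F (s_i) ≥ ∑ b i - F.val (det) - ∑ r_i F (s_i) = ∑ b i + ∑ u i * w i`. (1)
`exists_positive_combination T.R w` (use `T.mem` and positivity) gives `ρ_l ∈ T.R` and rationals
`x_l > 0` with `w = ∑ l, x_l ρ_l` (`l : Fin n`). Put `ν l = x_l / r`,
`y_l` from `average_eq` for `ρ_l` and `h`, `u l = y_l / h`, `j = h * (∑ b i) / r`: an integer because
`r ∣ h * b i` (`LatData.dvd_b`), so `(j : ℝ) / h = (∑ b i) / r`, and `j ≤ n * h` because `b i ≤ r`
(`D.hb`, `D.hb'`). `u l ≤ 1` since `y_l ≤ h`. Rationality of `ν`: clear.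
Write `lin w = ∑ i, T.u i * w i` (linear), `Π ρ = ∑ s < h, A ^ s *ᵥ ρ` (integral), so
`lin (Π ρ_l) = h - y_l = h (1 - u l)`, `A *ᵥ Π ρ = Π ρ` (because `A ^ h = 1`), `m ⬝ᵥ Π ρ_l ≥ 0` for
`m ∈ S` (`nonneg_orbit`), and `m ⬝ᵥ Π ρ = h (m ⬝ᵥ ρ)` if `m ᵥ* A = m`. As `w` is invariant,
`h w = ∑ s < h, A ^ s *ᵥ w = ∑ l, x_l Π ρ_l` (in `ℚ` or `ℝ`). (2) So `lin w = ∑ l, x_l (1 - u l)`.
Last claim: by (1), `∑ l, (1 - u l) ν l + j / h = (lin w + ∑ b i) / r ≤ a < t'`.
Main claim: let `h ∣ q - 1` and `y_l := q * ν l + z l > 0` for all `l`. Let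
`w'' = q • w + ((r / h : ℕ) : ℤ) • ∑ l, z l • Π ρ_l` (integral, invariant). By (2),
`w'' = (r / h) ∑ l, (q ν l + z l) Π ρ_l` (over `ℝ`). So `m ⬝ᵥ w'' > 0` for `m ∈ S`, `m ≠ 0`: all
terms are `≥ 0`, and they cannot all be zero because then `m ⬝ᵥ w = 0` by (2). `w'' ≠ 0`.
Let `τ = σ ^ q`: `A ^ q = A` (if `q = 0` then `h = 1` and `A = 1`; else `q = 1 + h * d`), so
`Act.pow` gives `Act τ x A c_q`, `c_q m = ∏ s < q, c (m ᵥ* A ^ s) = c m ^ q` if `m ᵥ* A = m`, and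
then `c_q m = ζ ^ (q (m ⬝ᵥ w)) = ζ ^ (m ⬝ᵥ w'')` because `m ⬝ᵥ w'' = q (m ⬝ᵥ w) + r ∑ z_l (m ⬝ᵥ ρ_l)`
and `ζ ^ r = 1`. `τ ^ r = 1`. `lin w'' = r ∑ l, (1 - u l) (q ν l + z l) ≥ 0`. `upper_bound` gives
`t = G.mld ≤ (lin w'' + ∑ b i) / r = ∑ l, (1 - u l) (q ν l + z l) + j / h`.
-/

open scoped BigOperators Matrix
open KaehlerDifferential

namespace Pool.Agent.H50.TQ

open Pool.Agent.H26 Pool.H32

universe u

variable {k K L : Type u} [Field k] [Field K] [Field L] [Algebra k K] [Algebra k L]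
  [Algebra K L] [IsScalarTower k K L] {n : ℕ}

/-- the sum over the orbit -/
def orb (A : Matrix (Fin n) (Fin n) ℤ) (h : ℕ) (ρ : Fin n → ℤ) : Fin n → ℤ :=
  ∑ s ∈ Finset.range h, A ^ s *ᵥ ρ

theorem mulVec_orb {A : Matrix (Fin n) (Fin n) ℤ} {h : ℕ} (hA : A ^ h = 1) (ρ : Fin n → ℤ) :
    A *ᵥ orb A h ρ = orb A h ρ := by
  unfold orb
  rw [Matrix.mulVec_sum]
  have h1 : ∀ s : ℕ, A *ᵥ (A ^ s *ᵥ ρ) = A ^ (s + 1) *ᵥ ρ := by
    intro s
    rw [Matrix.mulVec_mulVec, ← pow_succ']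
  simp_rw [h1]
  have h2 := Finset.sum_range_succ (fun s => A ^ s *ᵥ ρ) h
  have h3 := Finset.sum_range_succ' (fun s => A ^ s *ᵥ ρ) h
  rw [h2] at h3
  simp only [pow_zero] at h3
  rw [hA] at h3
  exact (add_right_cancel h3).symm

theorem vecMul_pow_eq {A : Matrix (Fin n) (Fin n) ℤ} {m : Fin n → ℤ} (hm : m ᵥ* A = m) (s : ℕ) :
    m ᵥ* A ^ s = m := by
  induction s with
  | zero => simp
  | succ s ih => rw [pow_succ, ← Matrix.vecMul_vecMul, ih, hm]

theorem mulVec_pow_eq {A : Matrix (Fin n) (Fin n) ℤ} {w : Fin n → ℤ} (hw : A *ᵥ w = w) (s : ℕ) :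
    A ^ s *ᵥ w = w := by
  induction s with
  | zero => simp
  | succ s ih => rw [pow_succ, ← Matrix.mulVec_mulVec, hw, ih]

theorem dot_orb {A : Matrix (Fin n) (Fin n) ℤ} {m : Fin n → ℤ} (hm : m ᵥ* A = m) (h : ℕ)
    (ρ : Fin n → ℤ) : m ⬝ᵥ orb A h ρ = h * (m ⬝ᵥ ρ) := by
  unfold orb
  rw [dotProduct_sum]
  have h1 : ∀ s ∈ Finset.range h, m ⬝ᵥ A ^ s *ᵥ ρ = m ⬝ᵥ ρ := by
    intro s _
    rw [Matrix.dotProduct_mulVec, vecMul_pow_eq hm]
  rw [Finset.sum_congr rfl h1]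
  simp

/-- an invariant vector is the combination of the orbit sums -/
theorem real_orb {A : Matrix (Fin n) (Fin n) ℤ} {w : Fin n → ℤ} (hw : A *ᵥ w = w)
    {ρ : Fin n → (Fin n → ℤ)} {X : Fin n → ℚ} (hX : ∀ i, (w i : ℚ) = ∑ l, X l * (ρ l i : ℚ))
    (h : ℕ) (i : Fin n) : (h : ℝ) * (w i : ℝ) = ∑ l, (X l : ℝ) * (orb A h (ρ l) i : ℝ) := by
  have hXR : ∀ i, (w i : ℝ) = ∑ l, (X l : ℝ) * (ρ l i : ℝ) := by
    intro i
    have h1 : ((w i : ℚ) : ℝ) = ((∑ l, X l * (ρ l i : ℚ) : ℚ) : ℝ) := by rw [hX i]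
    push_cast at h1
    exact h1
  have h1 : (h : ℤ) * w i = ∑ s ∈ Finset.range h, (A ^ s *ᵥ w) i := by
    have h2 : ∀ s ∈ Finset.range h, (A ^ s *ᵥ w) i = w i := by
      intro s _
      rw [mulVec_pow_eq hw]
    rw [Finset.sum_congr rfl h2]
    simp
  have h2 : (h : ℝ) * (w i : ℝ) = ∑ s ∈ Finset.range h, ((A ^ s *ᵥ w) i : ℝ) := by
    have := congrArg (fun z : ℤ => (z : ℝ)) h1
    push_cast at this
    exact this
  rw [h2]
  have h3 : ∀ s, ((A ^ s *ᵥ w) i : ℝ) = ∑ l, (X l : ℝ) * ((A ^ s *ᵥ ρ l) i : ℝ) := by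
    intro s
    simp only [Matrix.mulVec, dotProduct]
    push_cast
    simp_rw [hXR, Finset.mul_sum]
    rw [Finset.sum_comm]
    refine Finset.sum_congr rfl fun l _ => Finset.sum_congr rfl fun j _ => ?_
    ring
  simp_rw [h3]
  rw [Finset.sum_comm]
  refine Finset.sum_congr rfl fun l _ => ?_
  rw [← Finset.mul_sum]
  congr 1
  unfold orb
  rw [Finset.sum_apply]
  push_cast
  rfl

/-- the combinatorial content of a toric quotient germ with real minimal log discrepancy `t < t'` -/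
theorem quotient_output [IsAlgClosed k] [CharZero k] {G : LogGerm k K n} {Y : LogGerm k L n}
    {Γ : Set ℝ} (hΓ : Γ ⊆ Set.Icc 0 1) (hQ : IsToricQuotient G Y Γ) {H : ℕ}
    (hH : ∀ (A : Matrix (Fin n) (Fin n) ℤ) (r : ℕ), 0 < r → A ^ r = 1 →
      ∃ h : ℕ, 0 < h ∧ h ≤ H ∧ A ^ h = 1 ∧ ∀ j : ℕ, A ^ j = 1 → h ∣ j)
    {t t' : ℝ} (ht : G.mld = (t : EReal)) (htt' : t < t') :
    ∃ (h : ℕ) (j : ℕ) (u ν : Fin n → ℝ), 0 < h ∧ h ≤ H ∧ j ≤ n * h ∧
      (∀ l, ∃ y ∈ AddSubmonoid.closure Γ, u l = y / h) ∧ (∀ l, u l ≤ 1) ∧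
      (∃ Q : ℕ, 0 < Q ∧ ∀ l, ∃ z : ℤ, Q * ν l = z) ∧ (∀ l, 0 < ν l) ∧
      (∀ (q : ℕ) (z : Fin n → ℤ), (h : ℤ) ∣ (q : ℤ) - 1 → (∀ l, 0 < q * ν l + z l) →
        t ≤ ∑ l, (1 - u l) * (q * ν l + z l) + (j : ℝ) / h) ∧
      ∑ l, (1 - u l) * ν l + (j : ℝ) / h < t' := by
  classical
  have hq := hQ.toIsFiniteQuotient
  have hlt : G.mld < ((t' : ℝ) : EReal) := by rw [ht]; exact_mod_cast htt'
  obtain ⟨_, ⟨E, a, hE, hcE, haE, rfl⟩, hlt2⟩ := sInf_lt_iff.1 hlt
  have hat' : a < t' := by exact_mod_cast hlt2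
  obtain ⟨σ, r, ζ, F, N, hr, hζ, hσr, hFc, hσ, hN, hra⟩ := exists_inertia hq E hE hcE haE
  have hζ0 : ζ ≠ 0 := hζ.ne_zero hr.ne'
  obtain ⟨x, S, hTor⟩ := hQ.torus σ
  obtain ⟨T⟩ := exists_baseData hq hTor
  have hx := hTor.toric.coordinates
  have hx0 : ∀ i, x i ≠ 0 := fun i => hx.1.ne_zero i
  obtain ⟨A, c, hact⟩ := exists_act hx σ hTor.normalises
  have hAr : A ^ r = 1 := Act.matrix_pow_eq_one hx hact hσr
  obtain ⟨D⟩ := exists_latData A hr hAr hζ
  obtain ⟨h, hh0, hhH, hAh, hdvd⟩ := hH A r hr hAr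
  have hhr : h ∣ r := hdvd r hAr
  obtain ⟨d, hd⟩ := hhr
  have hd0 : 0 < d := by
    rcases Nat.eq_zero_or_pos d with h0 | h0
    · rw [h0, mul_zero] at hd; omega
    · exact h0
  have hhR : (0 : ℝ) < h := by exact_mod_cast hh0
  have hdR : (0 : ℝ) < d := by exact_mod_cast hd0
  have hrR : (0 : ℝ) < r := by exact_mod_cast hr
  have hrhd : (r : ℝ) = h * d := by rw [hd]; push_cast; ring
  set w : Fin n → ℤ := fun i => F.val (x i) with hw
  have hwA : A *ᵥ w = w := weight_invariant hx hact F hζ0 hσ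
  have hwc : ∀ m, m ᵥ* A = m → c m = ζ ^ (m ⬝ᵥ w) := fun m hm =>
    character_eq hx hact F hζ0 hσ m hm
  have hwS : ∀ m ∈ S, m ≠ 0 → 0 < m ⬝ᵥ w := by
    intro m hm hm0
    have h1 := T.pos F hFc m hm hm0
    rwa [val_monom hx0] at h1
  obtain ⟨m₁, hm₁S, hm₁0⟩ := T.exists_ne F hFc
  have hw0 : w ≠ 0 := by
    intro h0
    have h1 := hwS m₁ hm₁S hm₁0
    rw [h0, dotProduct_zero] at h1
    exact lt_irrefl _ h1
  -- the inequality (1)
  have hbd := log_bound hx hact F hr hζ hσr hσ D Y.ω N hN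
  have hcrep := T.crep F hFc
  have hone : ∑ i, T.u i * (w i : ℝ) + ∑ i, (D.b i : ℝ) ≤ r * a := by
    have h1 : (((∑ i, (D.b i : ℤ)) : ℤ) : ℝ) ≤
        ((N + F.val (Y.ω.det fun i => dlog k (x i)) : ℤ) : ℝ) := by exact_mod_cast hbd
    push_cast at h1
    rw [hra]
    simp only [hw]
    linarith
  -- the positive combination
  obtain ⟨ρ, X, hρ, hX0, hwX⟩ := exists_positive_combination T.R w hw0 (by
    intro m hm
    by_cases h0 : m = 0
    · rw [h0, zero_dotProduct]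
    · exact (hwS m (T.mem m hm) h0).le)
  have hav := fun l => average_eq hq hx hΓ T hact (ρ l) (hρ l) h
  choose y hyΓ hyh hyeq using hav
  have hXR0 : ∀ l, (0 : ℝ) < X l := fun l => by exact_mod_cast hX0 l
  have hreal := real_orb hwA hwX h
  have hlinorb : ∀ l, ∑ i, T.u i * (orb A h (ρ l) i : ℝ) = h - y l := by
    intro l
    rw [← hyeq l, Finset.sum_comm]
    refine Finset.sum_congr rfl fun i _ => ?_
    unfold orb
    rw [Finset.sum_apply]
    push_cast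
    rw [Finset.mul_sum]
  have horb_nn : ∀ l, ∀ m ∈ S, 0 ≤ m ⬝ᵥ orb A h (ρ l) := by
    intro l m hm
    unfold orb
    rw [dotProduct_sum]
    exact Finset.sum_nonneg fun s _ => nonneg_orbit hq hx hTor.toric T hact (ρ l) (hρ l) s m hm
  have hlinw : (h : ℝ) * ∑ i, T.u i * (w i : ℝ) = ∑ l, (X l : ℝ) * (h - y l) := by
    rw [Finset.mul_sum]
    have h1 : ∀ i, (h : ℝ) * (T.u i * (w i : ℝ)) =
        ∑ l, (X l : ℝ) * (T.u i * (orb A h (ρ l) i : ℝ)) := by
      intro i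
      have h2 : (h : ℝ) * (T.u i * (w i : ℝ)) = T.u i * ((h : ℝ) * w i) := by ring
      rw [h2, hreal i, Finset.mul_sum]
      refine Finset.sum_congr rfl fun l _ => ?_
      ring
    simp_rw [h1]
    rw [Finset.sum_comm]
    refine Finset.sum_congr rfl fun l _ => ?_
    rw [← Finset.mul_sum, hlinorb]
  -- the age
  have hdb : ∀ i, r ∣ h * D.b i := fun i => D.dvd_b hζ hAh i
  have hbr : ∀ i, D.b i ≤ r := by
    intro i
    by_cases hP : D.P i = true
    · exact (D.hb i hP).2.le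
    · rw [D.hb' i (by simpa using hP)]; exact Nat.zero_le _
  choose jj hjj using hdb
  have hjj' : ∀ i, D.b i = d * jj i := by
    intro i
    have h1 : h * D.b i = h * (d * jj i) := by rw [hjj i, hd]; ring
    exact Nat.eq_of_mul_eq_mul_left hh0 h1
  set j : ℕ := ∑ i, jj i with hj
  have hjb : (j : ℝ) / h = (∑ i, (D.b i : ℝ)) / r := by
    rw [div_eq_div_iff hhR.ne' hrR.ne', hrhd]
    have h1 : ∀ i, (D.b i : ℝ) = d * jj i := fun i => by rw [hjj' i]; push_cast; ring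
    simp_rw [h1]
    rw [← Finset.mul_sum, hj]
    push_cast
    ring
  have hjn : j ≤ n * h := by
    have h1 : ∀ i, jj i ≤ h := by
      intro i
      have h2 := hbr i
      rw [hjj' i, hd, mul_comm h d] at h2
      exact Nat.le_of_mul_le_mul_left h2 hd0
    calc j ≤ ∑ _i : Fin n, h := Finset.sum_le_sum fun i _ => h1 i
      _ = n * h := by simp
  refine ⟨h, j, fun l => y l / h, fun l => (X l : ℝ) / r, hh0, hhH, hjn,
    fun l => ⟨y l, hyΓ l, rfl⟩, fun l => ?_, ?_, fun l => div_pos (hXR0 l) hrR, ?_, ?_⟩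
  · rw [div_le_one hhR]; exact hyh l
  · -- rationality
    refine ⟨r * ∏ l, (X l).den, ?_, fun l => ?_⟩
    · exact Nat.mul_pos hr (Finset.prod_pos fun l _ => (X l).pos)
    · refine ⟨(∏ l' ∈ Finset.univ.erase l, ((X l').den : ℤ)) * (X l).num, ?_⟩
      have h1 : ((∏ l, (X l).den : ℕ) : ℝ) = ((X l).den : ℝ) *
          ∏ l' ∈ Finset.univ.erase l, ((X l').den : ℝ) := by
        push_cast
        exact (Finset.mul_prod_erase _ _ (Finset.mem_univ l)).symm
      have h2 : ((X l : ℚ) : ℝ) * ((X l).den : ℝ) = ((X l).num : ℝ) := by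
        have := Rat.mul_den_eq_num (X l)
        exact_mod_cast this
      rw [Nat.cast_mul, h1]
      push_cast
      rw [← h2]
      field_simp
  · -- the main claim
    intro q z hhq hpos
    have hAq : A ^ q = A := by
      obtain ⟨e, he⟩ := hhq
      rcases Nat.eq_zero_or_pos q with h0 | h0
      · subst h0
        have h1 : (h : ℤ) ∣ 1 := ⟨-e, by push_cast at he; linarith⟩
        have h2 : h = 1 := by
          have := Int.eq_one_of_dvd_one (by omega) h1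
          exact_mod_cast this
        rw [h2, pow_one] at hAh
        rw [hAh, pow_zero]
      · have h1 : h ∣ q - 1 := by
          have h2 : ((q - 1 : ℕ) : ℤ) = (q : ℤ) - 1 := by omega
          have h3 : (h : ℤ) ∣ ((q - 1 : ℕ) : ℤ) := by rw [h2]; exact ⟨e, he⟩
          exact_mod_cast h3
        obtain ⟨e', he'⟩ := h1
        have h2 : q = 1 + h * e' := by omega
        rw [h2, pow_add, pow_mul, hAh, one_pow, mul_one, pow_one]
    set w' : Fin n → ℤ := fun i => (q : ℤ) * w i + (d : ℤ) * ∑ l, z l * orb A h (ρ l) i with hw'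
    have hw'vec : w' = (q : ℤ) • w + (d : ℤ) • ∑ l, z l • orb A h (ρ l) := by
      funext i
      simp [hw', Finset.sum_apply]
    have hw'A : A *ᵥ w' = w' := by
      rw [hw'vec, Matrix.mulVec_add, Matrix.mulVec_smul, hwA, Matrix.mulVec_smul, Matrix.mulVec_sum]
      congr 2
      refine Finset.sum_congr rfl fun l _ => ?_
      rw [Matrix.mulVec_smul, mulVec_orb hAh]
    have hreal' : ∀ i, (w' i : ℝ) = (d : ℝ) * ∑ l, (q * ((X l : ℝ) / r) + z l) *
        (orb A h (ρ l) i : ℝ) := by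
      intro i
      have h1 : (w i : ℝ) = (d : ℝ) * ∑ l, (X l : ℝ) / r * (orb A h (ρ l) i : ℝ) := by
        have h2 := hreal i
        have h3 : (d : ℝ) * ∑ l, (X l : ℝ) / r * (orb A h (ρ l) i : ℝ) =
            (d : ℝ) / r * ∑ l, (X l : ℝ) * (orb A h (ρ l) i : ℝ) := by
          rw [Finset.mul_sum, Finset.mul_sum]
          refine Finset.sum_congr rfl fun l _ => ?_
          field_simp
        rw [h3, ← h2, hrhd]
        field_simp
      have h4 : (w' i : ℝ) = (q : ℝ) * w i + d * ∑ l, (z l : ℝ) * (orb A h (ρ l) i : ℝ) := by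
        simp only [hw']
        push_cast
        ring
      rw [h4, h1]
      have h5 : ∀ l, (q * ((X l : ℝ) / r) + z l) * (orb A h (ρ l) i : ℝ) =
          q * ((X l : ℝ) / r * (orb A h (ρ l) i : ℝ)) + z l * (orb A h (ρ l) i : ℝ) := by
        intro l; ring
      simp_rw [h5]
      rw [Finset.sum_add_distrib, ← Finset.mul_sum]
      ring
    have hdotR : ∀ m : Fin n → ℤ, ((m ⬝ᵥ w' : ℤ) : ℝ) = (d : ℝ) * ∑ l,
        (q * ((X l : ℝ) / r) + z l) * ((m ⬝ᵥ orb A h (ρ l) : ℤ) : ℝ) := by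
      intro m
      simp only [dotProduct]
      push_cast
      simp_rw [hreal', Finset.mul_sum]
      rw [Finset.sum_comm]
      refine Finset.sum_congr rfl fun l _ => Finset.sum_congr rfl fun i _ => ?_
      ring
    have hdotw : ∀ m : Fin n → ℤ, (h : ℝ) * ((m ⬝ᵥ w : ℤ) : ℝ) = ∑ l,
        (X l : ℝ) * ((m ⬝ᵥ orb A h (ρ l) : ℤ) : ℝ) := by
      intro m
      simp only [dotProduct]
      push_cast
      rw [Finset.mul_sum]
      have h1 : ∀ i, (h : ℝ) * ((m i : ℝ) * (w i : ℝ)) = ∑ l, (X l : ℝ) *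
          ((m i : ℝ) * (orb A h (ρ l) i : ℝ)) := by
        intro i
        have h2 : (h : ℝ) * ((m i : ℝ) * (w i : ℝ)) = (m i : ℝ) * ((h : ℝ) * w i) := by ring
        rw [h2, hreal i, Finset.mul_sum]
        refine Finset.sum_congr rfl fun l _ => ?_
        ring
      simp_rw [h1]
      rw [Finset.sum_comm]
      refine Finset.sum_congr rfl fun l _ => ?_
      rw [← Finset.mul_sum]
    have hw'S : ∀ m ∈ S, m ≠ 0 → 0 < m ⬝ᵥ w' := by
      intro m hm hm0
      have h1 := hwS m hm hm0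
      have h2 : (0 : ℝ) < ∑ l, (X l : ℝ) * ((m ⬝ᵥ orb A h (ρ l) : ℤ) : ℝ) := by
        rw [← hdotw m]
        have : (0 : ℝ) < ((m ⬝ᵥ w : ℤ) : ℝ) := by exact_mod_cast h1
        positivity
      obtain ⟨l, _, hl⟩ : ∃ l ∈ Finset.univ, 0 < (X l : ℝ) * ((m ⬝ᵥ orb A h (ρ l) : ℤ) : ℝ) := by
        by_contra hcon
        push Not at hcon
        exact absurd h2 (not_lt.2 (Finset.sum_nonpos hcon))
      have hl' : (0 : ℝ) < ((m ⬝ᵥ orb A h (ρ l) : ℤ) : ℝ) := (pos_iff_pos_of_mul_pos hl).1 (hXR0 l)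
      have h3 : (0 : ℝ) < ((m ⬝ᵥ w' : ℤ) : ℝ) := by
        rw [hdotR m]
        refine mul_pos hdR ?_
        refine Finset.sum_pos' (fun l' _ => mul_nonneg (hpos l').le ?_) ⟨l, Finset.mem_univ l,
          mul_pos (hpos l) hl'⟩
        have := horb_nn l' m hm
        exact_mod_cast this
      exact_mod_cast h3
    have hw'0 : w' ≠ 0 := by
      intro h0
      have h1 := hw'S m₁ hm₁S hm₁0
      rw [h0, dotProduct_zero] at h1
      exact lt_irrefl _ h1
    have hactq := hact.pow q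
    rw [hAq] at hactq
    have hw'c : ∀ m, m ᵥ* A = m → (∏ s ∈ Finset.range q, c (m ᵥ* A ^ s)) = ζ ^ (m ⬝ᵥ w') := by
      intro m hm
      have h1 : ∀ s ∈ Finset.range q, c (m ᵥ* A ^ s) = ζ ^ (m ⬝ᵥ w) := by
        intro s _
        rw [vecMul_pow_eq hm, hwc m hm]
      rw [Finset.prod_congr rfl h1, Finset.prod_const, Finset.card_range]
      have h2 : m ⬝ᵥ w' = (m ⬝ᵥ w) * q + r * ∑ l, z l * (m ⬝ᵥ ρ l) := by
        rw [hw'vec, dotProduct_add, dotProduct_smul, dotProduct_smul, dotProduct_sum]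
        simp only [smul_eq_mul]
        have h3 : ∀ l, m ⬝ᵥ (z l • orb A h (ρ l)) = h * (z l * (m ⬝ᵥ ρ l)) := by
          intro l
          rw [dotProduct_smul, dot_orb hm, smul_eq_mul]; ring
        simp_rw [h3]
        rw [← Finset.mul_sum, hd]
        push_cast
        ring
      rw [h2, zpow_add₀ hζ0, zpow_mul, zpow_natCast, zpow_mul, zpow_natCast, hζ.pow_eq_one, one_zpow,
        mul_one]
    have hτr : (σ ^ q) ^ r = 1 := by rw [← pow_mul, mul_comm, pow_mul, hσr, one_pow]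
    have hlin' : ∑ i, T.u i * (w' i : ℝ) =
        r * ∑ l, (1 - y l / h) * (q * ((X l : ℝ) / r) + z l) := by
      have h1 : ∀ i, T.u i * (w' i : ℝ) = ∑ l, (d * (q * ((X l : ℝ) / r) + z l)) *
          (T.u i * (orb A h (ρ l) i : ℝ)) := by
        intro i
        rw [hreal' i, Finset.mul_sum, Finset.mul_sum]
        refine Finset.sum_congr rfl fun l _ => ?_
        ring
      simp_rw [h1]
      rw [Finset.sum_comm, Finset.mul_sum]
      refine Finset.sum_congr rfl fun l _ => ?_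
      rw [← Finset.mul_sum, hlinorb]
      nth_rewrite 2 [hrhd]
      field_simp
    have hnn : 0 ≤ ∑ i, T.u i * (w' i : ℝ) := by
      rw [hlin']
      refine mul_nonneg hrR.le (Finset.sum_nonneg fun l _ => mul_nonneg ?_ (hpos l).le)
      rw [sub_nonneg, div_le_one hhR]
      exact hyh l
    have hub := upper_bound hq hx T hactq hr hζ hτr D w' hw'S hw'0 hw'A hw'c hnn
    rw [ht] at hub
    have hub' : t ≤ (∑ i, T.u i * (w' i : ℝ) + ∑ i, (D.b i : ℝ)) / r := by exact_mod_cast hub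
    refine hub'.trans (le_of_eq ?_)
    rw [add_div, hlin', hjb]
    congr 1
    field_simp
  · -- the last claim
    have h1 : ∑ l, (1 - y l / h) * ((X l : ℝ) / r) = (∑ i, T.u i * (w i : ℝ)) / r := by
      have h2 : ∑ i, T.u i * (w i : ℝ) = (∑ l, (X l : ℝ) * (h - y l)) / h := by
        rw [← hlinw]; field_simp
      rw [h2, Finset.sum_div, Finset.sum_div]
      refine Finset.sum_congr rfl fun l _ => ?_
      field_simp
    rw [h1, hjb, ← add_div]
    refine lt_of_le_of_lt ?_ hat'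
    rw [div_le_iff₀ hrR]
    linarith

end Pool.Agent.H50.TQ
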