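import Mathlib
import Pool.Agent.H26.Chains
import Pool.Agent.H26.Engine

/-!
# The limiting argument with a fixed order and a fixed age

PROOF. We reduce to `engine` (`Pool.Agent.H26.Engine`) in dimension `N = n + K` with
`K = (n + 1) * h`, the last `K` coordinates of the points being `1 / h`. Suppose `t` is strictly
increasing. (a) `t i ≤ n + j / h`: apply `E1` with `q = 1` and `z l = - (⌈ν i l⌉ - 1)`, so that
`ν i l + z l ∈ (0, 1]`, and `0 ≤ 1 - u i l ≤ 1` (`u i l ≥ 0`, `closure_nonneg`).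
(b) Use `engine (n + K)` with `W = {y / h | y ∈ AddSubmonoid.closure Γ}` (it is partly well
ordered: the image of `DCC.isPWO_closure` under the monotone map `y ↦ y / h`, `Set.IsPWO.image_of_monotone`;
nonnegative; contains `0`), `U i = {Fin.append (u i) 0}` (one element),
`x i = Fin.append (ν i) (fun _ => 1 / h)`, `t' i = t i - j / h + K / h`. (Sums over `Fin (n + K)`:
`Fin.sum_univ_add`, `Fin.append_left`, `Fin.append_right`.)
`E2`: `∑ l, (1 - u i l) ν i l + K / h < t' (i + 1)` is the hypothesis `E2`.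
`E1`: let `q`, `z` be such that all `q x_l + z_l > 0`. For the last coordinates,
`q / h + z = (q + h z) / h > 0` with `q + h z` a positive integer, so `≥ 1 / h`; if `h ∤ q - 1` then
`q + h z ≠ 1`, so it is `≥ 2 / h`.
Case `h ∣ q - 1`: `∑_l (1 - u) (q ν + z) + ∑_{last} ≥ (t i - j / h) + K / h` by the hypothesis `E1`.
Case `h ∤ q - 1`: the first sum is `≥ 0` and the last one is `≥ 2 K / h`; need
`t i - j / h + K / h ≤ 2 K / h`, i.e. `t i ≤ K / h + j / h`, which holds by (a) as `K / h = n + 1`.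
`t'` is strictly increasing, contradiction to `engine`.
-/

open scoped BigOperators Matrix

namespace Pool.Agent.H50.TQ

open Pool.Agent.H26

/-- the limiting argument for sequences with a fixed order `h` and a fixed age `j / h` -/
theorem engine_twisted (n : ℕ) {Γ : Set ℝ} (hΓ : Γ ⊆ Set.Icc 0 1) (hDCC : DCC Γ) (h : ℕ)
    (hh : 0 < h) (j : ℕ) (u ν : ℕ → Fin n → ℝ) (t : ℕ → ℝ)
    (hu : ∀ i l, ∃ y ∈ AddSubmonoid.closure Γ, u i l = y / h) (hu1 : ∀ i l, u i l ≤ 1)
    (hν : ∀ i, ∃ Q : ℕ, 0 < Q ∧ ∀ l, ∃ z : ℤ, Q * ν i l = z) (hpos : ∀ i l, 0 < ν i l)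
    (E1 : ∀ (i : ℕ) (q : ℕ) (z : Fin n → ℤ), (h : ℤ) ∣ (q : ℤ) - 1 →
      (∀ l, 0 < q * ν i l + z l) → t i ≤ ∑ l, (1 - u i l) * (q * ν i l + z l) + (j : ℝ) / h)
    (E2 : ∀ i, ∑ l, (1 - u i l) * ν i l + (j : ℝ) / h < t (i + 1)) : ¬ StrictMono t := by
  intro hmono
  have hhR : (0 : ℝ) < h := by exact_mod_cast hh
  have hu0 : ∀ i l, 0 ≤ u i l := by
    intro i l
    obtain ⟨y, hy, he⟩ := hu i l
    rw [he]
    exact div_nonneg (closure_nonneg hΓ y hy) hhR.le
  -- (a)
  have ha : ∀ i, t i ≤ n + (j : ℝ) / h := by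
    intro i
    have h1 := E1 i 1 (fun l => -(⌈ν i l⌉ - 1)) (by simp) (fun l => by
      have := Int.ceil_lt_add_one (ν i l)
      push_cast
      linarith)
    refine h1.trans ?_
    have h2 : ∑ l, (1 - u i l) * (((1 : ℕ) : ℝ) * ν i l + ((-(⌈ν i l⌉ - 1) : ℤ) : ℝ))
        ≤ ∑ _l : Fin n, (1 : ℝ) := by
      refine Finset.sum_le_sum fun l _ => ?_
      have h3 : ((1 : ℕ) : ℝ) * ν i l + ((-(⌈ν i l⌉ - 1) : ℤ) : ℝ) ≤ 1 := by
        have := Int.le_ceil (ν i l)
        push_cast
        linarith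
      have h4 : 0 ≤ ((1 : ℕ) : ℝ) * ν i l + ((-(⌈ν i l⌉ - 1) : ℤ) : ℝ) := by
        have := Int.ceil_lt_add_one (ν i l)
        push_cast
        linarith
      have h5 := hu0 i l
      have h6 := hu1 i l
      exact mul_le_one₀ (by linarith) h4 h3
    rw [Finset.sum_const, Finset.card_univ, Fintype.card_fin, nsmul_eq_mul, mul_one] at h2
    exact add_le_add h2 le_rfl
  -- (b)
  set K : ℕ := (n + 1) * h with hK
  have hKh : (K : ℝ) / h = n + 1 := by
    rw [hK]
    push_cast
    field_simp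
  have hWp : ((fun y : ℝ => y / h) '' (AddSubmonoid.closure Γ : Set ℝ)).IsPWO :=
    (hDCC.isPWO_closure hΓ).image_of_monotone fun a b hab =>
      div_le_div_of_nonneg_right hab hhR.le
  refine engine (n + K) hWp (W := (fun y : ℝ => y / h) '' (AddSubmonoid.closure Γ : Set ℝ)) ?_
    (fun i => {Fin.append (u i) (fun _ => 0)}) ?_
    (fun i => Fin.append (ν i) (fun _ => 1 / (h : ℝ))) ?_ ?_
    (fun i => t i - (j : ℝ) / h + (n + 1)) ?_ ?_ ?_
  · rintro _ ⟨y, hy, rfl⟩
    exact div_nonneg (closure_nonneg hΓ y hy) hhR.le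
  · rintro i _ rfl
    refine Fin.addCases (fun l => ?_) (fun l => ?_)
    · rw [Fin.append_left]
      obtain ⟨y, hy, he⟩ := hu i l
      exact ⟨y, hy, he.symm⟩
    · rw [Fin.append_right]
      exact ⟨0, zero_mem _, by simp⟩
  · intro i
    obtain ⟨Q, hQ, hQ2⟩ := hν i
    refine ⟨Q * h, Nat.mul_pos hQ hh, Fin.addCases (fun l => ?_) (fun l => ?_)⟩
    · simp only [Fin.append_left]
      obtain ⟨z, hz⟩ := hQ2 l
      refine ⟨z * h, ?_⟩
      push_cast
      rw [← hz]
      ring
    · simp only [Fin.append_right]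
      refine ⟨Q, ?_⟩
      push_cast
      field_simp
  · intro i
    refine Fin.addCases (fun l => ?_) (fun l => ?_)
    · simp only [Fin.append_left]
      exact hpos i l
    · simp only [Fin.append_right]
      positivity
  · -- E1
    intro i q z hz
    refine ⟨_, rfl, ?_⟩
    have hz1 : ∀ l, 0 < q * ν i l + z (Fin.castAdd K l) := by
      intro l
      have := hz (Fin.castAdd K l)
      rwa [Fin.append_left] at this
    have hz2 : ∀ l : Fin K, (0 : ℝ) < q * (1 / (h : ℝ)) + z (Fin.natAdd n l) := by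
      intro l
      have := hz (Fin.natAdd n l)
      rwa [Fin.append_right] at this
    have hz3 : ∀ l : Fin K, 0 < (q : ℤ) + h * z (Fin.natAdd n l) := by
      intro l
      have h3 := mul_pos hhR (hz2 l)
      have h4 : (h : ℝ) * (q * (1 / (h : ℝ)) + z (Fin.natAdd n l)) =
          (((q : ℤ) + h * z (Fin.natAdd n l) : ℤ) : ℝ) := by
        push_cast
        field_simp
      rw [h4] at h3
      exact_mod_cast h3
    rw [Fin.sum_univ_add]
    simp only [Fin.append_left, Fin.append_right, sub_zero, one_mul]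
    have hlast : ∀ c : ℤ, (∀ l : Fin K, c ≤ (q : ℤ) + h * z (Fin.natAdd n l)) →
        (c : ℝ) * (n + 1) ≤ ∑ l : Fin K, ((q : ℝ) * (1 / (h : ℝ)) + z (Fin.natAdd n l)) := by
      intro c hc
      have h5 : ∑ _l : Fin K, ((c : ℝ) / h) ≤
          ∑ l : Fin K, ((q : ℝ) * (1 / (h : ℝ)) + z (Fin.natAdd n l)) := by
        refine Finset.sum_le_sum fun l _ => ?_
        rw [div_le_iff₀ hhR]
        have h6 : ((q : ℝ) * (1 / (h : ℝ)) + z (Fin.natAdd n l)) * h =
            (((q : ℤ) + h * z (Fin.natAdd n l) : ℤ) : ℝ) := by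
          push_cast
          field_simp
        rw [h6]
        exact_mod_cast hc l
      rw [Finset.sum_const, Finset.card_univ, Fintype.card_fin, nsmul_eq_mul] at h5
      have h7 : (K : ℝ) * ((c : ℝ) / h) = c * (n + 1) := by
        rw [← hKh]
        ring
      linarith
    by_cases hd : (h : ℤ) ∣ (q : ℤ) - 1
    · have h1 := E1 i q (fun l => z (Fin.castAdd K l)) hd hz1
      have h2 := hlast 1 fun l => by
        have := hz3 l
        omega
      push_cast at h2
      linarith
    · have h1 : 0 ≤ ∑ l, (1 - u i l) * ((q : ℝ) * ν i l + z (Fin.castAdd K l)) := by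
        refine Finset.sum_nonneg fun l _ => mul_nonneg ?_ (hz1 l).le
        linarith [hu1 i l]
      have h2 := hlast 2 fun l => by
        have h3 := hz3 l
        by_contra hcon
        have h4 : (q : ℤ) + h * z (Fin.natAdd n l) = 1 := by omega
        exact hd ⟨-z (Fin.natAdd n l), by linarith⟩
      have h3 := ha i
      push_cast at h2
      have h4 : (0 : ℝ) ≤ n := Nat.cast_nonneg n
      linarith
  · -- E2
    rintro i _ rfl
    rw [Fin.sum_univ_add]
    simp only [Fin.append_left, Fin.append_right, sub_zero, one_mul]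
    rw [Finset.sum_const, Finset.card_univ, Fintype.card_fin, nsmul_eq_mul]
    have h1 := E2 i
    have h2 : (K : ℝ) * (1 / (h : ℝ)) = n + 1 := by rw [← hKh]; ring
    linarith
  · intro a b hab
    have := hmono hab
    simp only
    linarith

end Pool.Agent.H50.TQ
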