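import Mathlib

/-!
# Minkowski's bound for the orders of integral matrices

PROOF. Step 1 (torsion free kernel): if `M : Matrix (Fin n) (Fin n) ℤ`, `M ^ p = 1` for a prime `p`
and `M` is the identity modulo `3` then `M = 1`. Otherwise write `M = 1 + 3 ^ a • C` with `a ≥ 1` and
`C` not divisible by `3` (take the largest `a` such that `3 ^ a` divides all entries of `M - 1`).
Then `1 = M ^ p = 1 + p 3 ^ a C + ∑_{j ≥ 2} (p choose j) 3 ^ (a j) C ^ j`
(`Commute.add_pow`/`add_pow`), so `p C = - ∑_{j ≥ 2} (p choose j) 3 ^ (a (j-1)) C ^ j`. If `p ≠ 3`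
the right side is divisible by `3`, so `3 ∣ p C`, so `3 ∣ C`, contradiction. If `p = 3`:
`3 C = - 3 · 3 ^ a C ^ 2 - 3 ^ (2 a) C ^ 3`, so `C = - 3 ^ a C ^ 2 - 3 ^ (2 a - 1) C ^ 3` is
divisible by `3`, contradiction. (For `p ≠ 3` it is enough to know that
`M ^ p = 1 + p 3 ^ a C + 3 ^ (2 a) E` for some integral `E`.)
Step 2: if `M ≡ 1 mod 3` and `M ^ q = 1`, `q > 0`, then `M = 1`: otherwise `orderOf M > 1` and for a
prime `p ∣ orderOf M` the matrix `M ^ (orderOf M / p)` is `≠ 1`, `≡ 1 mod 3`, with `p`-th power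
`1`.
Step 3: let `H = Nat.card (Matrix (Fin n) (Fin n) (ZMod 3))ˣ` (finite), or the factorial of
`Fintype.card (Matrix (Fin n) (Fin n) (ZMod 3))`. For `A` with `A ^ r = 1`, `A` is a unit, let `Ā`
be its image in `(Matrix (Fin n) (Fin n) (ZMod 3))ˣ` (`Matrix.map`, `Int.castRingHom (ZMod 3)`);
`h₀ = orderOf Ā ≤ H` and `A ^ h₀ ≡ 1 mod 3` has finite order, so `A ^ h₀ = 1`. Then `h = orderOf A`
works (`h ∣ h₀`, `orderOf_dvd_of_pow_eq_one`).
-/

open scoped BigOperators Matrix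

namespace Pool.Agent.H50.TQ

/-- binomial expansion to first order -/
theorem Mink.one_add_pow {n : ℕ} (X : Matrix (Fin n) (Fin n) ℤ) (p : ℕ) :
    ∃ F : Matrix (Fin n) (Fin n) ℤ, (1 + X) ^ p = 1 + (p : ℤ) • X + X * X * F := by
  induction p with
  | zero => exact ⟨0, by simp⟩
  | succ p ih =>
    obtain ⟨F, hF⟩ := ih
    refine ⟨F + (p : ℤ) • 1 + F * X, ?_⟩
    rw [pow_succ, hF]
    simp only [mul_add, add_mul, mul_one, one_mul, smul_mul_assoc, mul_smul_comm, Nat.cast_succ,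
      add_smul, one_smul, Matrix.mul_assoc]
    abel

/-- a matrix all of whose entries are divisible by `3` -/
theorem Mink.exists_smul {n : ℕ} (C : Matrix (Fin n) (Fin n) ℤ) (h : ∀ i j, (3 : ℤ) ∣ C i j) :
    ∃ D : Matrix (Fin n) (Fin n) ℤ, C = (3 : ℤ) • D := by
  refine ⟨fun i j => C i j / 3, ?_⟩
  ext i j
  rw [Matrix.smul_apply, smul_eq_mul]
  exact (Int.mul_ediv_cancel' (h i j)).symm

/-- one step of the 3-adic argument -/
theorem Mink.step {n p : ℕ} (hp : p.Prime) {a : ℕ} (ha : 1 ≤ a)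
    {C : Matrix (Fin n) (Fin n) ℤ} (h : (1 + (3 : ℤ) ^ a • C) ^ p = 1) :
    ∀ i j, (3 : ℤ) ∣ C i j := by
  intro i j
  obtain ⟨b, rfl⟩ : ∃ b, a = b + 1 := ⟨a - 1, by omega⟩
  have h3 : (3 : ℤ) ^ (b + 1) ≠ 0 := by positivity
  by_cases hp3 : p = 3
  · subst hp3
    have h1 : (1 + (3 : ℤ) ^ (b + 1) • C) ^ 3 = 1 + (3 : ℤ) ^ (b + 1) •
        ((3 : ℤ) • C + (3 : ℤ) • ((3 : ℤ) ^ (b + 1) • (C * C)) +
          (3 : ℤ) • ((3 : ℤ) ^ b • ((3 : ℤ) ^ (b + 1) • (C * C * C)))) := by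
      have h2 : (3 : ℤ) • ((3 : ℤ) ^ b • ((3 : ℤ) ^ (b + 1) • (C * C * C))) =
          ((3 : ℤ) ^ (b + 1) * (3 : ℤ) ^ (b + 1)) • (C * C * C) := by
        rw [smul_smul, smul_smul]
        congr 1
        ring
      rw [h2]
      simp only [pow_succ, pow_zero, one_mul, mul_add, add_mul, mul_one, smul_mul_assoc,
        mul_smul_comm, smul_smul, Matrix.mul_assoc, smul_add]
      module
    rw [h1] at h
    have h4 : (3 : ℤ) ^ (b + 1) *
        (3 * C i j + 3 * ((3 : ℤ) ^ (b + 1) * (C * C) i j) +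
          3 * ((3 : ℤ) ^ b * ((3 : ℤ) ^ (b + 1) * (C * C * C) i j))) = 0 := by
      have h5 := congrFun (congrFun h i) j
      simp only [Matrix.add_apply, Matrix.smul_apply, smul_eq_mul] at h5
      linarith
    have h6 := (mul_eq_zero.1 h4).resolve_left h3
    refine ⟨-((3 : ℤ) ^ b * (C * C) i j) - (3 : ℤ) ^ b * ((3 : ℤ) ^ b * (C * C * C) i j), ?_⟩
    have h7 : C i j + (3 : ℤ) ^ (b + 1) * (C * C) i j +
        (3 : ℤ) ^ b * ((3 : ℤ) ^ (b + 1) * (C * C * C) i j) = 0 := by linarith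
    rw [pow_succ] at h7
    linear_combination h7
  · obtain ⟨F, hF⟩ := Mink.one_add_pow ((3 : ℤ) ^ (b + 1) • C) p
    rw [h] at hF
    have h5 := congrFun (congrFun hF i) j
    have h8 : (((3 : ℤ) ^ (b + 1) • C) * ((3 : ℤ) ^ (b + 1) • C) * F) =
        ((3 : ℤ) ^ (b + 1) * (3 : ℤ) ^ (b + 1)) • (C * C * F) := by
      simp only [smul_mul_assoc, mul_smul_comm, smul_smul]
    rw [h8] at h5
    simp only [Matrix.add_apply, Matrix.smul_apply, smul_eq_mul] at h5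
    have h4 : (3 : ℤ) ^ (b + 1) * ((p : ℤ) * C i j + (3 : ℤ) ^ (b + 1) * (C * C * F) i j) = 0 := by
      linarith
    have h6 := (mul_eq_zero.1 h4).resolve_left h3
    have h9 : (3 : ℤ) ∣ (p : ℤ) * C i j := by
      refine ⟨-((3 : ℤ) ^ b * (C * C * F) i j), ?_⟩
      rw [pow_succ] at h6
      linear_combination h6
    have hcop : IsCoprime (3 : ℤ) (p : ℤ) := by
      have : Nat.Coprime 3 p := (Nat.coprime_primes Nat.prime_three hp).2 (Ne.symm hp3)
      exact_mod_cast Nat.isCoprime_iff_coprime.2 this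
    exact hcop.dvd_of_dvd_mul_left h9

/-- Step 1 -/
theorem Mink.eq_one {n p : ℕ} (hp : p.Prime) {M C : Matrix (Fin n) (Fin n) ℤ}
    (hM : M = 1 + (3 : ℤ) • C) (h : M ^ p = 1) : M = 1 := by
  have key : ∀ a : ℕ, ∃ D : Matrix (Fin n) (Fin n) ℤ, M = 1 + (3 : ℤ) ^ (a + 1) • D := by
    intro a
    induction a with
    | zero => exact ⟨C, by simpa using hM⟩
    | succ a ih =>
      obtain ⟨D, hD⟩ := ih
      have h1 := h
      rw [hD] at h1
      obtain ⟨E, hE⟩ := Mink.exists_smul D (Mink.step hp (by omega) h1)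
      refine ⟨E, ?_⟩
      rw [hD, hE, smul_smul, ← pow_succ]
  ext i j
  have h0 : M i j - (1 : Matrix (Fin n) (Fin n) ℤ) i j = 0 := by
    by_contra hne
    obtain ⟨D, hD⟩ := key (M i j - (1 : Matrix (Fin n) (Fin n) ℤ) i j).natAbs
    have h2 : M i j - (1 : Matrix (Fin n) (Fin n) ℤ) i j =
        (3 : ℤ) ^ ((M i j - (1 : Matrix (Fin n) (Fin n) ℤ) i j).natAbs + 1) * D i j := by
      have h7 := congrFun (congrFun hD i) j
      rw [Matrix.add_apply, Matrix.smul_apply, smul_eq_mul] at h7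
      linarith
    have h3 : (3 : ℤ) ^ ((M i j - (1 : Matrix (Fin n) (Fin n) ℤ) i j).natAbs + 1) ∣
        M i j - (1 : Matrix (Fin n) (Fin n) ℤ) i j := ⟨_, h2⟩
    have h4 := Int.natAbs_dvd_natAbs.2 h3
    have h5 := Nat.le_of_dvd (Int.natAbs_pos.2 hne) h4
    rw [Int.natAbs_pow] at h5
    have h6 : (M i j - (1 : Matrix (Fin n) (Fin n) ℤ) i j).natAbs + 1 <
        (3 : ℤ).natAbs ^ ((M i j - (1 : Matrix (Fin n) (Fin n) ℤ) i j).natAbs + 1) :=
      Nat.lt_pow_self (by decide)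
    omega
  linarith

/-- Step 2 -/
theorem Mink.eq_one' {n : ℕ} {M : Matrix (Fin n) (Fin n) ℤ}
    (hM : (Int.castRingHom (ZMod 3)).mapMatrix M = 1) {q : ℕ} (hq : 0 < q) (h : M ^ q = 1) :
    M = 1 := by
  by_contra hne
  have hfin : IsOfFinOrder M := isOfFinOrder_iff_pow_eq_one.2 ⟨q, hq, h⟩
  have hord : orderOf M ≠ 1 := fun h1 => hne (orderOf_eq_one_iff.1 h1)
  obtain ⟨p, hp, hpd⟩ := Nat.exists_prime_and_dvd hord
  obtain ⟨s, hs⟩ := hpd
  have hpos : 0 < orderOf M := hfin.orderOf_pos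
  have hs0 : 0 < s := Nat.pos_of_ne_zero fun h0 => by
    rw [h0, mul_zero] at hs
    omega
  have hN : (M ^ s) ^ p = 1 := by
    rw [← pow_mul, mul_comm, ← hs, pow_orderOf_eq_one]
  have hN1 : (Int.castRingHom (ZMod 3)).mapMatrix (M ^ s) = 1 := by
    rw [map_pow, hM, one_pow]
  have hdiv : ∀ i j, (3 : ℤ) ∣ (M ^ s - 1) i j := by
    intro i j
    have h1 := congrFun (congrFun hN1 i) j
    rw [RingHom.mapMatrix_apply, Matrix.map_apply] at h1
    refine (ZMod.intCast_zmod_eq_zero_iff_dvd _ 3).1 ?_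
    rw [Matrix.sub_apply, Int.cast_sub]
    have h2 : ((1 : Matrix (Fin n) (Fin n) ℤ) i j : ZMod 3) = (1 : Matrix (Fin n) (Fin n) (ZMod 3)) i j := by
      by_cases hij : i = j
      · subst hij; simp
      · simp [Matrix.one_apply_ne hij]
    rw [h2]
    have h3 : (((M ^ s) i j : ℤ) : ZMod 3) = (1 : Matrix (Fin n) (Fin n) (ZMod 3)) i j := h1
    rw [h3, sub_self]
  obtain ⟨C, hC⟩ := Mink.exists_smul _ hdiv
  have hN2 : M ^ s = 1 := Mink.eq_one hp (by rw [← hC]; abel) hN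
  have h3 := orderOf_dvd_of_pow_eq_one hN2
  have h4 := Nat.le_of_dvd hs0 h3
  have h5 := hp.two_le
  have h6 : 2 * s ≤ p * s := Nat.mul_le_mul_right s h5
  omega

/-- **Minkowski.** The orders of the integral `n × n` matrices of finite order are bounded. -/
theorem exists_order_bound (n : ℕ) : ∃ H : ℕ, ∀ (A : Matrix (Fin n) (Fin n) ℤ) (r : ℕ), 0 < r →
    A ^ r = 1 → ∃ h : ℕ, 0 < h ∧ h ≤ H ∧ A ^ h = 1 ∧ ∀ j : ℕ, A ^ j = 1 → h ∣ j := by
  classical
  refine ⟨Fintype.card (Matrix (Fin n) (Fin n) (ZMod 3)), fun A r hr hA => ?_⟩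
  obtain ⟨B, hB⟩ : ∃ B, B = (Int.castRingHom (ZMod 3)).mapMatrix A := ⟨_, rfl⟩
  have hBr : B ^ r = 1 := by rw [hB, ← map_pow, hA, map_one]
  have hBu : IsUnit B := IsUnit.of_pow_eq_one hBr hr.ne'
  obtain ⟨i, j, hij, hpow⟩ : ∃ i j : Fin (Fintype.card (Matrix (Fin n) (Fin n) (ZMod 3)) + 1),
      i < j ∧ B ^ (i : ℕ) = B ^ (j : ℕ) := by
    obtain ⟨i, j, hne, hpow⟩ := Fintype.exists_ne_map_eq_of_card_lt
      (fun i : Fin (Fintype.card (Matrix (Fin n) (Fin n) (ZMod 3)) + 1) => B ^ (i : ℕ)) (by simp)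
    rcases lt_or_gt_of_ne hne with h | h
    · exact ⟨i, j, h, hpow⟩
    · exact ⟨j, i, h, hpow.symm⟩
  have hij' : (i : ℕ) < (j : ℕ) := hij
  have h1 : B ^ ((j : ℕ) - i) = 1 := by
    have h2 : B ^ (i : ℕ) * B ^ ((j : ℕ) - i) = B ^ (i : ℕ) * 1 := by
      rw [← pow_add, Nat.add_sub_cancel' hij'.le, mul_one, hpow]
    exact (hBu.pow (i : ℕ)).mul_left_cancel h2
  have h3 : A ^ ((j : ℕ) - i) = 1 := by
    refine Mink.eq_one' ?_ hr ?_
    · rw [map_pow, ← hB, h1]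
    · rw [← pow_mul, mul_comm, pow_mul, hA, one_pow]
  refine ⟨orderOf A, (isOfFinOrder_iff_pow_eq_one.2 ⟨r, hr, hA⟩).orderOf_pos, ?_,
    pow_orderOf_eq_one A, fun k hk => orderOf_dvd_of_pow_eq_one hk⟩
  have h4 := Nat.le_of_dvd (by omega) (orderOf_dvd_of_pow_eq_one h3)
  have h5 := j.2
  omega

end Pool.Agent.H50.TQ
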