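import Mathlib
import Pool.Agent.H50.TQ.CombB
import Pool.Agent.H50.TQ.FinA
import Pool.Agent.H50.TQ.Mink

/-!
# ACC for minimal log discrepancies of toric quotient singularities

PROOF. `ACC_of_real`: let `t : ℕ → ℝ` be strictly increasing with `(t i : EReal)` in the set.
`H` from `exists_order_bound n`. For each `i`, `quotient_output` for `t i < t (i + 1)` gives
`h_i ≤ H`, `j_i ≤ n * h_i`, `u_i`, `ν_i`. The pair `(h_i, j_i)` takes finitely many values, so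
there is a strictly increasing `φ : ℕ → ℕ` on which it is constant (infinite pigeonhole,
e.g. `Finite.exists_infinite_fiber` and `Nat.orderEmbeddingOfSet`, or
`exists_subseq_of_forall_mem_union`, or `Filter`). Apply `engine_twisted` to `t ∘ φ`, `u ∘ φ`,
`ν ∘ φ`: `E2` because `t (φ i + 1) ≤ t (φ (i + 1))`.
-/

open scoped BigOperators Matrix

namespace Pool.Agent.H50.TQ

open Pool.Agent.H26

universe u

theorem toricQuotient_acc (n : ℕ) (Γ : Set ℝ) (hΓ : Γ ⊆ Set.Icc 0 1) (hDCC : DCC Γ) :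
    ACC (toricQuotientMlds.{u} n Γ) := by
  classical
  obtain ⟨H, hH⟩ := exists_order_bound n
  refine ACC_of_real fun t ht hmono => ?_
  have hout : ∀ i, ∃ (h : ℕ) (j : ℕ) (u ν : Fin n → ℝ), 0 < h ∧ h ≤ H ∧ j ≤ n * h ∧
      (∀ l, ∃ y ∈ AddSubmonoid.closure Γ, u l = y / h) ∧ (∀ l, u l ≤ 1) ∧
      (∃ Q : ℕ, 0 < Q ∧ ∀ l, ∃ z : ℤ, Q * ν l = z) ∧ (∀ l, 0 < ν l) ∧
      (∀ (q : ℕ) (z : Fin n → ℤ), (h : ℤ) ∣ (q : ℤ) - 1 → (∀ l, 0 < q * ν l + z l) →
        t i ≤ ∑ l, (1 - u l) * (q * ν l + z l) + (j : ℝ) / h) ∧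
      ∑ l, (1 - u l) * ν l + (j : ℝ) / h < t (i + 1) := by
    intro i
    obtain ⟨k, _, _, _, K, L, _, _, _, _, _, _, G, Y, hQ, hmld⟩ := ht i
    exact quotient_output hΓ hQ hH hmld.symm (hmono (Nat.lt_succ_self i))
  choose h j u ν h0 hH' hjn hu hu1 hν hpos E1 E2 using hout
  -- the pigeonhole principle
  let f : ℕ → Fin (H + 1) × Fin (n * H + 1) := fun i =>
    (⟨h i, Nat.lt_succ_of_le (hH' i)⟩,
      ⟨j i, Nat.lt_succ_of_le ((hjn i).trans (Nat.mul_le_mul_left n (hH' i)))⟩)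
  obtain ⟨p, hp⟩ := Finite.exists_infinite_fiber f
  have hinf : (f ⁻¹' {p}).Infinite := Set.infinite_coe_iff.1 hp
  let φ := Nat.nth (fun i => i ∈ f ⁻¹' {p})
  have hφ : StrictMono φ := Nat.nth_strictMono hinf
  have hφp : ∀ i, f (φ i) = p := fun i => Nat.nth_mem_of_infinite hinf i
  have hh : ∀ i, h (φ i) = p.1 := fun i => by
    have := congrArg (fun z => ((z.1 : Fin (H + 1)) : ℕ)) (hφp i)
    exact this
  have hj : ∀ i, j (φ i) = p.2 := fun i => by
    have := congrArg (fun z => ((z.2 : Fin (n * H + 1)) : ℕ)) (hφp i)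
    exact this
  refine engine_twisted n hΓ hDCC (p.1 : ℕ) (by rw [← hh 0]; exact h0 _) (p.2 : ℕ)
    (fun i => u (φ i)) (fun i => ν (φ i)) (fun i => t (φ i)) (fun i l => ?_) (fun i l => hu1 _ l)
    (fun i => hν _) (fun i l => hpos _ l) (fun i q z hz hq => ?_) (fun i => ?_)
    (hmono.comp hφ)
  · rw [← hh i]; exact hu _ l
  · rw [← hj i, ← hh i]
    exact E1 (φ i) q z (by rw [hh i]; exact hz) hq
  · rw [← hj i, ← hh i]
    refine lt_of_lt_of_le (E2 (φ i)) (hmono.monotone ?_)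
    exact hφ (Nat.lt_succ_self i)

end Pool.Agent.H50.TQ
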